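import Pool.Agent.CID.Zeros

/-!
# Sums of degrees
-/

set_option autoImplicit false

open MvPolynomial

namespace Pool.Agent.CID

open Pool.Agent.CIC Finset

theorem sum_totient' (n N : ℕ) (hn : 0 < n) (hN : n ≤ N) :
    ∑ h ∈ Icc 2 N, (if h ∣ n then (Nat.totient h : ℤ) else 0) = n - 1 := by
  have h0 : ∑ h ∈ n.divisors, (Nat.totient h : ℤ) = n := by
    have := Nat.sum_totient n
    exact_mod_cast this
  have h1 : ∑ h ∈ n.divisors, (Nat.totient h : ℤ) =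
      ∑ h ∈ n.divisors.erase 1, (Nat.totient h : ℤ) + 1 := by
    rw [← Finset.sum_erase_add _ _ (Nat.one_mem_divisors.mpr hn.ne'), Nat.totient_one,
      Nat.cast_one]
  rw [h0] at h1
  rw [h1, add_sub_cancel_right, ← Finset.sum_filter]
  refine Finset.sum_congr ?_ fun _ _ => rfl
  ext h
  rw [mem_filter, mem_Icc, mem_erase, Nat.mem_divisors]
  constructor
  · rintro ⟨⟨h2, -⟩, h3⟩
    exact ⟨by omega, h3, hn.ne'⟩
  · rintro ⟨h2, h3, -⟩
    have h4 : 0 < h := Nat.pos_of_dvd_of_pos h3 hn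
    have h5 : h ≤ n := Nat.le_of_dvd hn h3
    exact ⟨⟨by omega, by omega⟩, h3⟩

variable {r c : ℕ} {w : Fin r → (Fin 2 → ℤ)} {μ : Fin c → (Fin 2 → ℤ)}
  {L : (Fin 2 → ℤ) →+ ℤ} {P : (Fin 2 → ℤ) → Prop}

theorem dvd_toNat {a : ℤ} (ha : 0 < a) (d : ℕ) : d ∣ a.toNat ↔ (d : ℤ) ∣ a := by
  rw [← Int.natCast_dvd_natCast, Int.toNat_of_nonneg ha.le]

theorem point_phi (H : ℕ) {x : Fin 2 → ℤ} (hx : P x → 0 < L x ∧ L x ≤ H) :
    ind P x * L x = ind P x + ∑ d ∈ Icc 2 H, (Nat.totient d : ℤ) *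
      ind (fun x => P x ∧ (d : ℤ) ∣ L x) x := by
  by_cases hP : P x
  · obtain ⟨h1, h2⟩ := hx hP
    have h3 := sum_totient' (L x).toNat H (by omega) (by omega)
    rw [Int.toNat_of_nonneg h1.le] at h3
    have e : ∑ d ∈ Icc 2 H, (Nat.totient d : ℤ) * ind (fun x => P x ∧ (d : ℤ) ∣ L x) x =
        ∑ h ∈ Icc 2 H, (if h ∣ (L x).toNat then (Nat.totient h : ℤ) else 0) := by
      refine Finset.sum_congr rfl fun d _ => ?_
      unfold ind
      have h4 := dvd_toNat h1 d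
      by_cases hd : (d : ℤ) ∣ L x
      · rw [if_pos ⟨hP, hd⟩, if_pos (h4.mpr hd), mul_one]
      · rw [if_neg fun h => hd h.2, if_neg fun h => hd (h4.mp h), mul_zero]
    rw [e, h3]
    unfold ind
    rw [if_pos hP]
    ring
  · have e : ∑ d ∈ Icc 2 H, (Nat.totient d : ℤ) * ind (fun x => P x ∧ (d : ℤ) ∣ L x) x = 0 := by
      refine Finset.sum_eq_zero fun d _ => ?_
      unfold ind
      simp [hP]
    rw [e]
    unfold ind
    rw [if_neg hP]
    ring

theorem point_theta (H : ℕ) {x : Fin 2 → ℤ} (hx : P x → 0 < L x ∧ L x ≤ H) :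
    ind P x * L x = ind (fun x => P x ∧ L x = 1) x + ∑ d ∈ Icc 2 H, theta d *
      ind (fun x => P x ∧ (d : ℤ) ∣ L x) x := by
  by_cases hP : P x
  · obtain ⟨h1, h2⟩ := hx hP
    have h3 := sum_theta' (L x).toNat H (by omega) (by omega)
    rw [Int.toNat_of_nonneg h1.le] at h3
    have e : ∑ d ∈ Icc 2 H, theta d * ind (fun x => P x ∧ (d : ℤ) ∣ L x) x =
        ∑ h ∈ Icc 2 H, (if h ∣ (L x).toNat then theta h else 0) := by
      refine Finset.sum_congr rfl fun d _ => ?_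
      unfold ind
      have h4 := dvd_toNat h1 d
      by_cases hd : (d : ℤ) ∣ L x
      · rw [if_pos ⟨hP, hd⟩, if_pos (h4.mpr hd), mul_one]
      · rw [if_neg fun h => hd h.2, if_neg fun h => hd (h4.mp h), mul_zero]
    have e2 : (L x).toNat = 1 ↔ L x = 1 := by omega
    rw [e, h3]
    unfold ind
    simp only [e2, hP, true_and, if_true]
    ring
  · have e : ∑ d ∈ Icc 2 H, theta d * ind (fun x => P x ∧ (d : ℤ) ∣ L x) x = 0 := by
      refine Finset.sum_eq_zero fun d _ => ?_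
      unfold ind
      simp [hP]
    rw [e]
    unfold ind
    simp [hP]

theorem S_phi (H : ℕ) (hw : ∀ k, P (w k) → 0 < L (w k) ∧ L (w k) ≤ H)
    (hμ : ∀ j, P (μ j) → 0 < L (μ j) ∧ L (μ j) ≤ H) :
    S w μ (fun x => ind P x * L x) = S w μ (ind P) +
      ∑ d ∈ Icc 2 H, (Nat.totient d : ℤ) * S w μ (ind fun x => P x ∧ (d : ℤ) ∣ L x) := by
  rw [S_congr w μ (F := fun x => ind P x * L x) (G := fun x => ind P x + ∑ d ∈ Icc 2 H,
    (Nat.totient d : ℤ) * ind (fun x => P x ∧ (d : ℤ) ∣ L x) x)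
    (fun k => point_phi H (hw k)) (fun j => point_phi H (hμ j)), S_add, S_sum]
  congr 1
  refine Finset.sum_congr rfl fun d _ => ?_
  rw [S_mul]

theorem S_theta (H : ℕ) (hw : ∀ k, P (w k) → 0 < L (w k) ∧ L (w k) ≤ H)
    (hμ : ∀ j, P (μ j) → 0 < L (μ j) ∧ L (μ j) ≤ H) :
    S w μ (fun x => ind P x * L x) = S w μ (ind fun x => P x ∧ L x = 1) +
      ∑ d ∈ Icc 2 H, theta d * S w μ (ind fun x => P x ∧ (d : ℤ) ∣ L x) := by
  rw [S_congr w μ (F := fun x => ind P x * L x) (G := fun x =>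
    ind (fun x => P x ∧ L x = 1) x + ∑ d ∈ Icc 2 H,
    theta d * ind (fun x => P x ∧ (d : ℤ) ∣ L x) x)
    (fun k => point_theta H (hw k)) (fun j => point_theta H (hμ j)), S_add, S_sum]
  congr 1
  refine Finset.sum_congr rfl fun d _ => ?_
  rw [S_mul]

/-- A bound for the degrees. -/
theorem exists_bound (w : Fin r → (Fin 2 → ℤ)) (μ : Fin c → (Fin 2 → ℤ))
    (L : (Fin 2 → ℤ) →+ ℤ) : ∃ H : ℕ, (∀ k, L (w k) ≤ H) ∧ ∀ j, L (μ j) ≤ H := by
  refine ⟨∑ k, (L (w k)).toNat + ∑ j, (L (μ j)).toNat, fun k => ?_, fun j => ?_⟩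
  · have h1 : (L (w k)).toNat ≤ ∑ k, (L (w k)).toNat :=
      Finset.single_le_sum (f := fun k => (L (w k)).toNat) (fun _ _ => Nat.zero_le _)
        (Finset.mem_univ k)
    omega
  · have h1 : (L (μ j)).toNat ≤ ∑ j, (L (μ j)).toNat :=
      Finset.single_le_sum (f := fun j => (L (μ j)).toNat) (fun _ _ => Nat.zero_le _)
        (Finset.mem_univ j)
    omega

/-- `L(κ) = S L`. -/
theorem S_L (L : (Fin 2 → ℤ) →+ ℤ) : S w μ (fun x => L x) = L (anticanonical w μ) := by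
  unfold S anticanonical
  rw [map_sub, map_sum, map_sum]

theorem S_one (w : Fin r → (Fin 2 → ℤ)) (μ : Fin c → (Fin 2 → ℤ)) :
    S w μ (fun _ => 1) = (r : ℤ) - c := by
  unfold S
  simp

end Pool.Agent.CID
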