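import Pool.Agent.CID.Krull

/-!
# Zeros of families of weighted homogeneous polynomials

Let `f_1, …, f_t` be polynomials in the variables `u`, and `g_1, …, g_e` polynomials in the
variables `u, z` which are weighted homogeneous of positive degrees in `z`. If every common zero
`(u, z)` has `u = 0` or `z = 0`, and there is a common zero `(0, z')` with `z' ≠ 0`, then
`#u + #z ≤ t + e + 1`.
-/

set_option autoImplicit false

open MvPolynomial

namespace Pool.Agent.CID

/-- Homogeneous components of a product with a homogeneous polynomial. -/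
theorem comp_mul {ι : Type} (w : ι → ℕ) (b g : MvPolynomial ι ℂ) (d n : ℕ)
    (hg : IsWeightedHomogeneous w g d) :
    weightedHomogeneousComponent w n (b * g) =
      if d ≤ n then weightedHomogeneousComponent w (n - d) b * g else 0 := by
  classical
  let _ := weightedGradedAlgebra ℂ w
  have h := DirectSum.coe_decompose_mul_of_right_mem (weightedHomogeneousSubmodule ℂ w)
    (a := b) (b := g) n hg
  have key : ∀ (p : MvPolynomial ι ℂ) (m : ℕ),
      ((DirectSum.decompose (weightedHomogeneousSubmodule ℂ w) p m :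
        weightedHomogeneousSubmodule ℂ w m) : MvPolynomial ι ℂ) =
          weightedHomogeneousComponent w m p :=
    fun p m => weightedDecomposition.decompose'_apply ℂ w p m
  rw [key, key] at h
  exact h

section Abstract

variable {σ τ : Type} [Fintype σ] [Fintype τ] [DecidableEq σ] [DecidableEq τ]
  {B : Type} [CommRing B] [Algebra ℂ B]

/-- The weights: the variables `u` have weight zero. -/
def wt (σ : Type) {τ : Type} (a : τ → ℕ) : σ ⊕ τ → ℕ := Sum.elim (fun _ => 0) a

/-- A homogeneous form of the Nullstellensatz relation. -/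
theorem homogeneous_relation (φ : MvPolynomial (σ ⊕ τ) ℂ →ₐ[ℂ] B) {t e : ℕ}
    (f : Fin t → MvPolynomial σ ℂ) (hφf : ∀ l, φ (rename Sum.inl (f l)) = 0)
    (g : Fin e → MvPolynomial (σ ⊕ τ) ℂ) (a : τ → ℕ) (d : Fin e → ℕ)
    (hg : ∀ j, IsWeightedHomogeneous (wt σ a) (g j) (d j)) (i : σ) (k : τ) (r : ℕ)
    (hr : (X (Sum.inl i) * X (Sum.inr k)) ^ r ∈
      Ideal.span (Set.range fun l => rename Sum.inl (f l)) ⊔ Ideal.span (Set.range g)) :
    ∃ b : Fin e → MvPolynomial (σ ⊕ τ) ℂ,
      (∀ j, d j ≤ r * a k → IsWeightedHomogeneous (wt σ a) (b j) (r * a k - d j)) ∧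
      (∀ j, ¬ d j ≤ r * a k → b j = 0) ∧
      φ (X (Sum.inl i)) ^ r * φ (X (Sum.inr k)) ^ r = ∑ j, φ (b j) * φ (g j) := by
  obtain ⟨y, hy, z, hz, hyz⟩ := Submodule.mem_sup.mp hr
  rw [Ideal.mem_span_range_iff_exists_fun] at hy hz
  obtain ⟨c, rfl⟩ := hy
  obtain ⟨b, rfl⟩ := hz
  refine ⟨fun j => if d j ≤ r * a k then
    weightedHomogeneousComponent (wt σ a) (r * a k - d j) (b j) else 0, ?_, ?_, ?_⟩
  · intro j hj
    simp only [if_pos hj]
    exact weightedHomogeneousComponent_isWeightedHomogeneous _ _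
  · intro j hj
    simp only [if_neg hj]
  · have hhom : IsWeightedHomogeneous (wt σ a)
        ((X (Sum.inl i) * X (Sum.inr k)) ^ r : MvPolynomial (σ ⊕ τ) ℂ) (r * a k) := by
      have h1 : IsWeightedHomogeneous (wt σ a)
          (X (Sum.inl i) * X (Sum.inr k) : MvPolynomial (σ ⊕ τ) ℂ) (a k) := by
        have h2 := (isWeightedHomogeneous_X ℂ (wt σ a) (Sum.inl i)).mul
          (isWeightedHomogeneous_X ℂ (wt σ a) (Sum.inr k))
        simpa [wt] using h2
      have h3 := h1.pow r
      rwa [smul_eq_mul] at h3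
    have h4 := congrArg (weightedHomogeneousComponent (wt σ a) (r * a k)) hyz
    rw [map_add, map_sum, map_sum] at h4
    rw [weightedHomogeneousComponent_of_mem (n := r * a k) (m := r * a k) hhom, if_pos rfl] at h4
    have h5 : ∀ l, weightedHomogeneousComponent (wt σ a) (r * a k)
        (c l * rename Sum.inl (f l)) =
          weightedHomogeneousComponent (wt σ a) (r * a k) (c l) * rename Sum.inl (f l) := by
      intro l
      have h6 : IsWeightedHomogeneous (wt σ a) (rename Sum.inl (f l) :
          MvPolynomial (σ ⊕ τ) ℂ) 0 := by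
        intro n hn
        obtain ⟨m, rfl, -⟩ := coeff_rename_ne_zero _ _ _ hn
        rw [Finsupp.weight_apply, Finsupp.sum_mapDomain_index (h := fun i c => c • wt σ a i)
          (fun _ => zero_smul _ _) (fun _ _ _ => add_smul _ _ _)]
        simp [wt, Finsupp.sum]
      rw [comp_mul _ _ _ _ _ h6, if_pos (Nat.zero_le _), Nat.sub_zero]
    have h7 := congrArg φ h4
    rw [map_add, map_sum, map_sum] at h7
    rw [Finset.sum_eq_zero (fun l _ => by rw [h5, map_mul, hφf, mul_zero]), zero_add] at h7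
    rw [← mul_pow, ← map_mul, ← map_pow, ← h7]
    refine Finset.sum_congr rfl fun j _ => ?_
    rw [comp_mul _ _ _ _ _ (hg j)]
    simp only
    split_ifs
    · rw [map_mul]
    · rw [map_zero, zero_mul]

/-- The monomials with all exponents less than `r` in the variables `z`. -/
noncomputable def gens (φ : MvPolynomial (σ ⊕ τ) ℂ →ₐ[ℂ] B) (r : ℕ) : Finset (τ → ℕ) × ((τ → ℕ) → B) :=
  (Fintype.piFinset fun _ => Finset.range r, fun β => ∏ k, φ (X (Sum.inr k)) ^ β k)

/-- The `D`-module generated by the monomials with exponents less than `r`. -/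
noncomputable def modul (φ : MvPolynomial (σ ⊕ τ) ℂ →ₐ[ℂ] B) (D : Subalgebra ℂ B) (r : ℕ) :
    Submodule D B := Submodule.span D ((gens φ r).2 '' ((gens φ r).1 : Set (τ → ℕ)))

theorem mem_modul (φ : MvPolynomial (σ ⊕ τ) ℂ →ₐ[ℂ] B) (D : Subalgebra ℂ B) (r : ℕ)
    {β : τ → ℕ} (hβ : ∀ k, β k < r) : ∏ k, φ (X (Sum.inr k)) ^ β k ∈ modul φ D r :=
  Submodule.subset_span ⟨β, by
    simp only [gens, Finset.mem_coe, Fintype.mem_piFinset, Finset.mem_range]
    exact hβ, rfl⟩

variable {φ : MvPolynomial (σ ⊕ τ) ℂ →ₐ[ℂ] B} {D : Subalgebra ℂ B} {r : ℕ} {M : Submodule D B}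
  {u : B}

/-- `u ^ N * b` is in `M` for some `N`. -/
def Good (M : Submodule D B) (u b : B) : Prop := ∃ N : ℕ, u ^ N * b ∈ M

theorem mul_mem_of_mem {x b : B} (hx : x ∈ D) (hb : b ∈ M) : x * b ∈ M := by
  have := M.smul_mem (⟨x, hx⟩ : D) hb
  rwa [Subalgebra.smul_def, smul_eq_mul] at this

theorem pow_mul_mem (hu : u ∈ D) {b : B} {N N' : ℕ} (h : N ≤ N') (hb : u ^ N * b ∈ M) :
    u ^ N' * b ∈ M := by
  obtain ⟨c, rfl⟩ := Nat.exists_eq_add_of_le h
  have : u ^ (N + c) * b = u ^ c * (u ^ N * b) := by ring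
  rw [this]
  exact mul_mem_of_mem (pow_mem hu c) hb

theorem Good.add (hu : u ∈ D) {b b' : B} (h : Good M u b) (h' : Good M u b') :
    Good M u (b + b') := by
  obtain ⟨N, hN⟩ := h
  obtain ⟨N', hN'⟩ := h'
  refine ⟨max N N', ?_⟩
  rw [mul_add]
  exact M.add_mem (pow_mul_mem hu (le_max_left _ _) hN) (pow_mul_mem hu (le_max_right _ _) hN')

theorem Good.mul {x b : B} (hx : x ∈ D) (h : Good M u b) : Good M u (x * b) := by
  obtain ⟨N, hN⟩ := h
  refine ⟨N, ?_⟩
  rw [mul_left_comm]
  exact mul_mem_of_mem hx hN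

theorem Good.zero : Good M u 0 := ⟨0, by rw [mul_zero]; exact M.zero_mem⟩

theorem Good.sum (hu : u ∈ D) {ι : Type} (s : Finset ι) (b : ι → B)
    (h : ∀ i ∈ s, Good M u (b i)) : Good M u (∑ i ∈ s, b i) := by
  classical
  induction s using Finset.induction_on with
  | empty => rw [Finset.sum_empty]; exact Good.zero
  | insert i s hi ih =>
    rw [Finset.sum_insert hi]
    exact (h i (Finset.mem_insert_self i s)).add hu
      (ih fun j hj => h j (Finset.mem_insert_of_mem hj))

/-- A common exponent for finitely many elements. -/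
theorem Good.uniform (hu : u ∈ D) {ι : Type} (s : Finset ι) (b : ι → B)
    (h : ∀ i ∈ s, Good M u (b i)) : ∃ N : ℕ, ∀ i ∈ s, u ^ N * b i ∈ M := by
  classical
  induction s using Finset.induction_on with
  | empty => exact ⟨0, fun i hi => absurd hi (Finset.notMem_empty i)⟩
  | insert i s hi ih =>
    obtain ⟨N, hN⟩ := ih fun j hj => h j (Finset.mem_insert_of_mem hj)
    obtain ⟨N', hN'⟩ := h i (Finset.mem_insert_self i s)
    refine ⟨max N N', fun j hj => ?_⟩
    rcases Finset.mem_insert.mp hj with rfl | hj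
    · exact pow_mul_mem hu (le_max_right _ _) hN'
    · exact pow_mul_mem hu (le_max_left _ _) (hN j hj)

/-- After multiplication with a power of `u`, everything is in the module. -/
theorem good_of_homogeneous {e : ℕ} (g : Fin e → MvPolynomial (σ ⊕ τ) ℂ) (a : τ → ℕ)
    (d : Fin e → ℕ) (hd : ∀ j, 0 < d j) (i : σ)
    (hX : ∀ i, φ (X (Sum.inl i)) ∈ D) (hgD : ∀ j, φ (g j) ∈ D)
    (hrel : ∀ k, ∃ b : Fin e → MvPolynomial (σ ⊕ τ) ℂ,
      (∀ j, d j ≤ r * a k → IsWeightedHomogeneous (wt σ a) (b j) (r * a k - d j)) ∧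
      (∀ j, ¬ d j ≤ r * a k → b j = 0) ∧
      φ (X (Sum.inl i)) ^ r * φ (X (Sum.inr k)) ^ r = ∑ j, φ (b j) * φ (g j)) (n : ℕ) :
    ∀ m : σ ⊕ τ →₀ ℕ, Finsupp.weight (wt σ a) m = n → ∀ c : ℂ,
      Good (modul φ D r) (φ (X (Sum.inl i))) (φ (monomial m c)) := by
  induction n using Nat.strong_induction_on with
  | _ n ih =>
    intro m hm c
    by_cases hall : ∀ k, m (Sum.inr k) < r
    · refine ⟨0, ?_⟩
      rw [pow_zero, one_mul]
      have h1 : φ (monomial m c) = (algebraMap ℂ B c * ∏ i, φ (X (Sum.inl i)) ^ m (Sum.inl i)) *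
          ∏ k, φ (X (Sum.inr k)) ^ m (Sum.inr k) := by
        rw [monomial_eq, map_mul, Finsupp.prod_fintype _ _ (fun i => pow_zero _), map_prod,
          Fintype.prod_sum_type]
        simp only [map_pow]
        rw [← mul_assoc]
        congr 2
        exact φ.commutes c
      rw [h1]
      refine mul_mem_of_mem (mul_mem (D.algebraMap_mem c) (prod_mem fun i _ =>
        pow_mem (hX i) _)) (mem_modul φ D r hall)
    · push Not at hall
      obtain ⟨k, hk⟩ := hall
      obtain ⟨b, hb1, hb2, hb3⟩ := hrel k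
      obtain ⟨m', hm'⟩ : ∃ m', m = Finsupp.single (Sum.inr k) r + m' := by
        refine ⟨m - Finsupp.single (Sum.inr k) r, ?_⟩
        rw [add_tsub_cancel_of_le]
        exact Finsupp.single_le_iff.mpr hk
      have hwt : Finsupp.weight (wt σ a) m = r * a k + Finsupp.weight (wt σ a) m' := by
        rw [hm', map_add, Finsupp.weight_single, smul_eq_mul]
        rfl
      have h2 : φ (X (Sum.inl i)) ^ r * φ (monomial m c) =
          ∑ j, φ (g j) * φ (b j * monomial m' c) := by
        have h3 : φ (monomial m c) = φ (X (Sum.inr k)) ^ r * φ (monomial m' c) := by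
          rw [← map_pow, ← map_mul, X_pow_eq_monomial, monomial_mul, one_mul, ← hm']
        rw [h3, ← mul_assoc, hb3, Finset.sum_mul]
        refine Finset.sum_congr rfl fun j _ => ?_
        rw [map_mul]
        ring
      have h4 : Good (modul φ D r) (φ (X (Sum.inl i)))
          (φ (X (Sum.inl i)) ^ r * φ (monomial m c)) := by
        rw [h2]
        refine Good.sum (hX i) _ _ fun j _ => Good.mul (hgD j) ?_
        by_cases hj : d j ≤ r * a k
        · -- the product is homogeneous of smaller degree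
          have h5 : IsWeightedHomogeneous (wt σ a) (b j * monomial m' c) (n - d j) := by
            have h6 := (hb1 j hj).mul (isWeightedHomogeneous_monomial (wt σ a) m' c rfl)
            have h7 : r * a k - d j + Finsupp.weight (wt σ a) m' = n - d j := by
              omega
            rwa [h7] at h6
          have h8 : n - d j < n := by
            have := hd j
            omega
          have h9 : φ (b j * monomial m' c) = ∑ s ∈ (b j * monomial m' c).support,
              φ (monomial s ((b j * monomial m' c).coeff s)) := by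
            rw [← map_sum, support_sum_monomial_coeff]
          rw [h9]
          exact Good.sum (hX i) _ _ fun s hs =>
            ih (n - d j) h8 s (h5 (mem_support_iff.mp hs)) _
        · rw [hb2 j hj, zero_mul, map_zero]
          exact Good.zero
      obtain ⟨N, hN⟩ := h4
      refine ⟨N + r, ?_⟩
      rw [pow_add, mul_assoc]
      exact hN

/-- After multiplication with a power of `u`, everything is in the module. -/
theorem good_all {e : ℕ} (g : Fin e → MvPolynomial (σ ⊕ τ) ℂ) (a : τ → ℕ)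
    (d : Fin e → ℕ) (hd : ∀ j, 0 < d j) (i : σ)
    (hX : ∀ i, φ (X (Sum.inl i)) ∈ D) (hgD : ∀ j, φ (g j) ∈ D)
    (hrel : ∀ k, ∃ b : Fin e → MvPolynomial (σ ⊕ τ) ℂ,
      (∀ j, d j ≤ r * a k → IsWeightedHomogeneous (wt σ a) (b j) (r * a k - d j)) ∧
      (∀ j, ¬ d j ≤ r * a k → b j = 0) ∧
      φ (X (Sum.inl i)) ^ r * φ (X (Sum.inr k)) ^ r = ∑ j, φ (b j) * φ (g j))
    (hφ : Function.Surjective φ) (b : B) :
    Good (modul φ D r) (φ (X (Sum.inl i))) b := by
  obtain ⟨p, rfl⟩ := hφ b
  have h9 : φ p = ∑ s ∈ p.support, φ (monomial s (p.coeff s)) := by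
    rw [← map_sum, support_sum_monomial_coeff]
  rw [h9]
  exact Good.sum (hX i) _ _ fun s _ =>
    good_of_homogeneous g a d hd i hX hgD hrel _ s rfl _

end Abstract

end Pool.Agent.CID
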