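import Pool.Agent.CID.CT

/-!
# Zeros of families of weighted homogeneous polynomials, II

The determinant trick.
-/

set_option autoImplicit false

open MvPolynomial

namespace Pool.Agent.CID

section Abstract

variable {σ τ : Type} [Fintype σ] [Fintype τ] [DecidableEq σ] [DecidableEq τ]
  {B : Type} [CommRing B] [Algebra ℂ B]
  {φ : MvPolynomial (σ ⊕ τ) ℂ →ₐ[ℂ] B} {D : Subalgebra ℂ B} {r : ℕ}

theorem modul_fg (φ : MvPolynomial (σ ⊕ τ) ℂ →ₐ[ℂ] B) (D : Subalgebra ℂ B) (r : ℕ) :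
    (modul φ D r).FG :=
  Submodule.fg_span (((gens φ r).1.finite_toSet).image _)

theorem one_mem_modul (φ : MvPolynomial (σ ⊕ τ) ℂ →ₐ[ℂ] B) (D : Subalgebra ℂ B) (hr : 0 < r) :
    (1 : B) ∈ modul φ D r := by
  have := mem_modul φ D r (β := fun _ => 0) (fun _ => hr)
  simpa using this

/-- A property of the generators extends to the module. -/
theorem modul_induction {N : Submodule D B} {x : B}
    (h : ∀ β : τ → ℕ, (∀ k, β k < r) → x * ∏ k, φ (X (Sum.inr k)) ^ β k ∈ N) {m : B}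
    (hm : m ∈ modul φ D r) : x * m ∈ N := by
  induction hm using Submodule.span_induction with
  | mem y hy =>
    obtain ⟨β, hβ, rfl⟩ := hy
    simp only [gens, Finset.mem_coe, Fintype.mem_piFinset, Finset.mem_range] at hβ
    exact h β hβ
  | zero => rw [mul_zero]; exact N.zero_mem
  | add y z _ _ hy hz => rw [mul_add]; exact N.add_mem hy hz
  | smul c y _ hy =>
    rw [Subalgebra.smul_def, smul_eq_mul, mul_left_comm]
    have := N.smul_mem c hy
    rwa [Subalgebra.smul_def, smul_eq_mul] at this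

/-- A prime ideal which contains the `g_j` contains `u`. -/
theorem mem_of_prime {e : ℕ} (g : Fin e → MvPolynomial (σ ⊕ τ) ℂ) (a : τ → ℕ)
    (d : Fin e → ℕ) (hd : ∀ j, 0 < d j) (i : σ) (hr : 0 < r)
    (hX : ∀ i, φ (X (Sum.inl i)) ∈ D) (hgD : ∀ j, φ (g j) ∈ D)
    (hrel : ∀ k, ∃ b : Fin e → MvPolynomial (σ ⊕ τ) ℂ,
      (∀ j, d j ≤ r * a k → IsWeightedHomogeneous (wt σ a) (b j) (r * a k - d j)) ∧
      (∀ j, ¬ d j ≤ r * a k → b j = 0) ∧
      φ (X (Sum.inl i)) ^ r * φ (X (Sum.inr k)) ^ r = ∑ j, φ (b j) * φ (g j))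
    (hφ : Function.Surjective φ) (k₀ : τ) (hk₀ : φ (X (Sum.inr k₀)) = 1)
    (q : Ideal D) [hq : q.IsPrime] (hqg : ∀ j, (⟨φ (g j), hgD j⟩ : D) ∈ q) :
    (⟨φ (X (Sum.inl i)), hX i⟩ : D) ∈ q := by
  classical
  set u : B := φ (X (Sum.inl i)) with hu
  set M := modul φ D r with hM
  let I : Ideal D := Ideal.span (Set.range fun j => (⟨φ (g j), hgD j⟩ : D))
  have hIq : I ≤ q := Ideal.span_le.mpr (by rintro _ ⟨j, rfl⟩; exact hqg j)
  obtain ⟨b, -, -, hb⟩ := hrel k₀
  rw [hk₀, one_pow, mul_one] at hb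
  obtain ⟨N, hN⟩ := Good.uniform (M := M) (u := u) (hX i)
    ((gens φ r).1 ×ˢ (Finset.univ : Finset (Fin e)))
    (fun p => φ (b p.2) * ∏ k, φ (X (Sum.inr k)) ^ p.1 k)
    (fun p _ => good_all g a d hd i hX hgD hrel hφ _)
  have hx : ∀ m ∈ M, u ^ (N + r) * m ∈ I • M := by
    intro m hm
    refine modul_induction (N := I • M) (x := u ^ (N + r)) (fun β hβ => ?_) hm
    have h1 : u ^ (N + r) * ∏ k, φ (X (Sum.inr k)) ^ β k =
        ∑ j, φ (g j) * (u ^ N * (φ (b j) * ∏ k, φ (X (Sum.inr k)) ^ β k)) := by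
      rw [pow_add, hb, Finset.mul_sum, Finset.sum_mul]
      refine Finset.sum_congr rfl fun j _ => ?_
      ring
    rw [h1]
    refine Submodule.sum_mem _ fun j _ => ?_
    have h2 := hN (β, j) (Finset.mem_product.mpr ⟨by
      simp only [gens, Fintype.mem_piFinset, Finset.mem_range]
      exact hβ, Finset.mem_univ _⟩)
    have h3 : (⟨φ (g j), hgD j⟩ : D) ∈ I := Ideal.subset_span ⟨j, rfl⟩
    have h4 := Submodule.smul_mem_smul h3 h2
    rwa [Subalgebra.smul_def, smul_eq_mul] at h4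
  let x : D := ⟨u, hX i⟩ ^ (N + r)
  have hfin : Module.Finite D M := Module.Finite.iff_fg.mpr (modul_fg φ D r)
  obtain ⟨p, hp, -, hpc, hp0⟩ :=
    LinearMap.exists_monic_and_natDegree_eq_and_coeff_mem_pow_and_aeval_eq_zero D
      (algebraMap D (Module.End D M) x) I (by
        rintro _ ⟨m, rfl⟩
        rw [Submodule.mem_smul_top_iff]
        have h5 := hx m m.2
        exact h5)
  rw [Polynomial.aeval_algebraMap_apply_eq_algebraMap_eval] at hp0
  have h6 : p.eval x = 0 := by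
    have h7 : (((algebraMap D (Module.End D M) (p.eval x)) ⟨1, one_mem_modul φ D hr⟩ : M) : B) =
        0 := by
      rw [hp0]
      rfl
    have h8 : (((algebraMap D (Module.End D M) (p.eval x)) ⟨1, one_mem_modul φ D hr⟩ : M) : B) =
        ((p.eval x : D) : B) * 1 := rfl
    rw [h8, mul_one] at h7
    exact Subtype.ext h7
  rw [Polynomial.eval_eq_sum_range, Finset.sum_range_succ, hp.coeff_natDegree, one_mul] at h6
  have h9 : ∑ k ∈ Finset.range p.natDegree, p.coeff k * x ^ k ∈ q := by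
    refine Submodule.sum_mem _ fun k hk => ?_
    rw [Finset.mem_range] at hk
    refine q.mul_mem_right _ (hIq ?_)
    exact Ideal.pow_le_self (by omega) (hpc k)
  have h10 : x ^ p.natDegree ∈ q := by
    rw [add_comm] at h6
    rw [eq_neg_of_add_eq_zero_left h6]
    exact q.neg_mem h9
  have h11 : x ∈ q := hq.mem_of_pow_mem _ h10
  exact hq.mem_of_pow_mem _ h11

/-- Everything is algebraic over `D`. -/
theorem isAlgebraic [IsDomain B] {e : ℕ} (g : Fin e → MvPolynomial (σ ⊕ τ) ℂ) (a : τ → ℕ)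
    (d : Fin e → ℕ) (hd : ∀ j, 0 < d j) (i : σ) (hr : 0 < r)
    (hX : ∀ i, φ (X (Sum.inl i)) ∈ D) (hgD : ∀ j, φ (g j) ∈ D)
    (hrel : ∀ k, ∃ b : Fin e → MvPolynomial (σ ⊕ τ) ℂ,
      (∀ j, d j ≤ r * a k → IsWeightedHomogeneous (wt σ a) (b j) (r * a k - d j)) ∧
      (∀ j, ¬ d j ≤ r * a k → b j = 0) ∧
      φ (X (Sum.inl i)) ^ r * φ (X (Sum.inr k)) ^ r = ∑ j, φ (b j) * φ (g j))
    (hφ : Function.Surjective φ) (hne : φ (X (Sum.inl i)) ≠ 0) (b : B) : IsAlgebraic D b := by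
  classical
  set u : B := φ (X (Sum.inl i)) with hu
  set M := modul φ D r with hM
  obtain ⟨N, hN⟩ := Good.uniform (M := M) (u := u) (hX i) (gens φ r).1
    (fun β => b * ∏ k, φ (X (Sum.inr k)) ^ β k)
    (fun β _ => good_all g a d hd i hX hgD hrel hφ _)
  have hx : ∀ m ∈ M, (u ^ N * b) • m ∈ M := by
    intro m hm
    rw [smul_eq_mul]
    refine modul_induction (N := M) (x := u ^ N * b) (fun β hβ => ?_) hm
    rw [mul_assoc]
    refine hN β ?_
    simp only [gens, Fintype.mem_piFinset, Finset.mem_range]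
    exact hβ
  have hint : IsIntegral D (u ^ N * b) := by
    refine isIntegral_of_smul_mem_submodule M ?_ (modul_fg φ D r) _ hx
    intro h0
    have h1 := one_mem_modul φ D hr
    rw [← hM, h0, Submodule.mem_bot] at h1
    exact one_ne_zero h1
  rw [IsAlgebraic.iff_exists_smul_integral]
  refine ⟨⟨u, hX i⟩ ^ N, ?_, ?_⟩
  · apply pow_ne_zero
    intro h0
    exact hne (congrArg Subtype.val h0)
  · have : (⟨u, hX i⟩ ^ N : D) • b = u ^ N * b := by
      rw [Subalgebra.smul_def, smul_eq_mul]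
      rfl
    rw [this]
    exact hint

end Abstract

end Pool.Agent.CID
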