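import Pool.Agent.CID.CT2

/-!
# Zeros of families of weighted homogeneous polynomials, III

The main statement, `card_le`.
-/

set_option autoImplicit false

open MvPolynomial Cardinal

namespace Pool.Agent.CID

/-- Scaling of the variables of a weighted homogeneous polynomial. -/
theorem eval_scale {ι : Type} [Fintype ι] {w : ι → ℕ} {p : MvPolynomial ι ℂ} {n : ℕ}
    (hp : IsWeightedHomogeneous w p n) (s : ℂ) (x : ι → ℂ) :
    eval (fun i => s ^ w i * x i) p = s ^ n * eval x p := by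
  rw [eval_eq', eval_eq', Finset.mul_sum]
  refine Finset.sum_congr rfl fun m hm => ?_
  have h1 : ∏ i, (s ^ w i * x i) ^ m i = s ^ n * ∏ i, x i ^ m i := by
    have h2 : n = ∑ i, m i * w i := by
      rw [← hp (mem_support_iff.mp hm), Finsupp.weight_apply]
      exact Finsupp.sum_fintype _ _ (fun i => zero_smul _ _)
    rw [h2, ← Finset.prod_pow_eq_pow_sum, ← Finset.prod_mul_distrib]
    refine Finset.prod_congr rfl fun i _ => ?_
    rw [mul_pow, ← pow_mul, mul_comm (w i)]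
  rw [h1]
  ring

/-- A finitely generated algebra in which everything is constant has transcendence degree zero. -/
theorem trdeg_eq_zero_of_surjective {A : Type} [CommRing A] [Algebra ℂ A]
    (h : Function.Surjective (algebraMap ℂ A)) : Algebra.trdeg ℂ A = 0 := by
  have : Algebra.IsAlgebraic ℂ A := ⟨fun x => by
    obtain ⟨c, rfl⟩ := h x
    exact isAlgebraic_algebraMap c⟩
  exact trdeg_eq_zero

section

variable {σ τ : Type} [Fintype σ] [Fintype τ] [DecidableEq σ] [DecidableEq τ]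

/-- The Nullstellensatz for the product `u_i z_k`. -/
theorem exists_pow_mem {t e : ℕ} (f : Fin t → MvPolynomial σ ℂ)
    (g : Fin e → MvPolynomial (σ ⊕ τ) ℂ)
    (h1 : ∀ (u : σ → ℂ) (v : τ → ℂ), (∀ l, eval u (f l) = 0) →
      (∀ j, eval (Sum.elim u v) (g j) = 0) → u = 0 ∨ v = 0) (i : σ) :
    ∃ r : ℕ, 0 < r ∧ ∀ k, (X (Sum.inl i) * X (Sum.inr k)) ^ r ∈
      Ideal.span (Set.range fun l => rename Sum.inl (f l)) ⊔ Ideal.span (Set.range g) := by
  classical
  set I : Ideal (MvPolynomial (σ ⊕ τ) ℂ) :=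
    Ideal.span (Set.range fun l => rename Sum.inl (f l)) ⊔ Ideal.span (Set.range g) with hI
  have key : ∀ k, ∃ r : ℕ, (X (Sum.inl i) * X (Sum.inr k)) ^ r ∈ I := by
    intro k
    have h2 : (X (Sum.inl i) * X (Sum.inr k) : MvPolynomial (σ ⊕ τ) ℂ) ∈ I.radical := by
      rw [← vanishingIdeal_zeroLocus_eq_radical (K := ℂ) I, mem_vanishingIdeal_iff]
      intro x hx
      rw [mem_zeroLocus_iff] at hx
      have h3 : ∀ l, eval (x ∘ Sum.inl) (f l) = 0 := by
        intro l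
        have := hx (rename Sum.inl (f l))
          ((le_sup_left : _ ≤ I) (Ideal.subset_span ⟨l, rfl⟩))
        rwa [aeval_rename, aeval_eq_eval] at this
      have h4 : ∀ j, eval (Sum.elim (x ∘ Sum.inl) (x ∘ Sum.inr)) (g j) = 0 := by
        intro j
        have := hx (g j) ((le_sup_right : _ ≤ I) (Ideal.subset_span ⟨j, rfl⟩))
        rw [Sum.elim_comp_inl_inr]
        rwa [aeval_eq_eval] at this
      rw [map_mul, aeval_X, aeval_X]
      rcases h1 _ _ h3 h4 with h5 | h5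
      · have : x (Sum.inl i) = 0 := congrFun h5 i
        rw [this, zero_mul]
      · have : x (Sum.inr k) = 0 := congrFun h5 k
        rw [this, mul_zero]
    exact h2
  choose r hr using key
  refine ⟨(Finset.univ.sup r) + 1, Nat.succ_pos _, fun k => ?_⟩
  have h6 : r k ≤ Finset.univ.sup r + 1 := (Finset.le_sup (Finset.mem_univ k)).trans
    (Nat.le_succ _)
  obtain ⟨c, hc⟩ := Nat.exists_eq_add_of_le h6
  rw [hc, pow_add]
  exact Ideal.mul_mem_right _ _ (hr k)

/-- The substitution `u ↦ u mod p`, `z_{k₀} ↦ 1`. -/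
noncomputable def subst (p : Ideal (MvPolynomial σ ℂ)) (k₀ : τ) :
    MvPolynomial (σ ⊕ τ) ℂ →ₐ[ℂ] MvPolynomial {k : τ // k ≠ k₀} (MvPolynomial σ ℂ ⧸ p) :=
  aeval (Sum.elim (fun i => C (Ideal.Quotient.mk p (X i)))
    (fun k => if h : k = k₀ then 1 else X ⟨k, h⟩))

theorem subst_rename (p : Ideal (MvPolynomial σ ℂ)) (k₀ : τ) (q : MvPolynomial σ ℂ) :
    subst p k₀ (rename Sum.inl q) = C (Ideal.Quotient.mk p q) := by
  have h : (subst p k₀).toRingHom.comp (rename Sum.inl).toRingHom =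
      (C : _ →+* MvPolynomial {k : τ // k ≠ k₀} (MvPolynomial σ ℂ ⧸ p)).comp
        (Ideal.Quotient.mk p) := by
    apply MvPolynomial.ringHom_ext
    · intro c
      simp only [AlgHom.toRingHom_eq_coe, RingHom.coe_comp, RingHom.coe_coe,
        Function.comp_apply]
      rw [rename_C]
      exact (subst p k₀).commutes c
    · intro i
      simp only [AlgHom.toRingHom_eq_coe, RingHom.coe_comp, RingHom.coe_coe,
        Function.comp_apply]
      rw [rename_X, subst, aeval_X, Sum.elim_inl]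
  exact DFunLike.congr_fun h q

theorem subst_surjective (p : Ideal (MvPolynomial σ ℂ)) (k₀ : τ) :
    Function.Surjective (subst p k₀) := by
  intro b
  induction b using MvPolynomial.induction_on with
  | C o =>
    obtain ⟨q, rfl⟩ := Ideal.Quotient.mk_surjective o
    exact ⟨rename Sum.inl q, subst_rename p k₀ q⟩
  | add x y hx hy =>
    obtain ⟨x', rfl⟩ := hx
    obtain ⟨y', rfl⟩ := hy
    exact ⟨x' + y', map_add _ _ _⟩
  | mul_X x k hx =>
    obtain ⟨x', rfl⟩ := hx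
    refine ⟨x' * X (Sum.inr k.1), ?_⟩
    rw [map_mul]
    congr 1
    rw [subst, aeval_X, Sum.elim_inr, dif_neg k.2]

/-- The evaluation at `u = 0`, `z = v`. -/
noncomputable def evalAt (p : Ideal (MvPolynomial σ ℂ))
    (hp : p ≤ RingHom.ker (aeval (0 : σ → ℂ) : MvPolynomial σ ℂ →ₐ[ℂ] ℂ)) (k₀ : τ) (v : τ → ℂ) :
    MvPolynomial {k : τ // k ≠ k₀} (MvPolynomial σ ℂ ⧸ p) →+* ℂ :=
  eval₂Hom (Ideal.Quotient.lift p
    ((aeval (0 : σ → ℂ) : MvPolynomial σ ℂ →ₐ[ℂ] ℂ) : MvPolynomial σ ℂ →+* ℂ)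
    (fun a ha => hp ha)) (fun k => v k)

theorem evalAt_subst (p : Ideal (MvPolynomial σ ℂ))
    (hp : p ≤ RingHom.ker (aeval (0 : σ → ℂ) : MvPolynomial σ ℂ →ₐ[ℂ] ℂ)) (k₀ : τ) (v : τ → ℂ)
    (hv : v k₀ = 1) (q : MvPolynomial (σ ⊕ τ) ℂ) :
    evalAt p hp k₀ v (subst p k₀ q) = eval (Sum.elim 0 v) q := by
  have h : (evalAt p hp k₀ v).comp (subst p k₀ : MvPolynomial (σ ⊕ τ) ℂ →+* _) =
      eval (Sum.elim 0 v) := by
    apply MvPolynomial.ringHom_ext
    · intro c
      rw [RingHom.comp_apply, eval_C]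
      have h1 : subst p k₀ (C c : MvPolynomial (σ ⊕ τ) ℂ) = C (Ideal.Quotient.mk p (C c)) :=
        (subst p k₀).commutes c
      show evalAt p hp k₀ v (subst p k₀ (C c)) = c
      rw [h1, evalAt, coe_eval₂Hom, eval₂_C, Ideal.Quotient.lift_mk]
      exact aeval_C _ _
    · intro i
      rw [RingHom.comp_apply, eval_X]
      have h1 : (subst p k₀ : MvPolynomial (σ ⊕ τ) ℂ →+* _) (X i) = subst p k₀ (X i) := rfl
      rw [h1, subst, aeval_X]
      rcases i with i | k
      · rw [Sum.elim_inl, Sum.elim_inl, evalAt, coe_eval₂Hom, eval₂_C, Ideal.Quotient.lift_mk]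
        exact aeval_X _ _
      · rw [Sum.elim_inr, Sum.elim_inr]
        by_cases hk : k = k₀
        · rw [dif_pos hk, map_one, hk, hv]
        · rw [dif_neg hk, evalAt, coe_eval₂Hom, eval₂_X]
  exact DFunLike.congr_fun h q

/-- **The lemma.** -/
theorem card_le {t e : ℕ} (f : Fin t → MvPolynomial σ ℂ) (hf : ∀ l, eval 0 (f l) = 0)
    (g : Fin e → MvPolynomial (σ ⊕ τ) ℂ) (a : τ → ℕ) (ha : ∀ k, 0 < a k) (d : Fin e → ℕ)
    (hd : ∀ j, 0 < d j) (hg : ∀ j, IsWeightedHomogeneous (wt σ a) (g j) (d j))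
    (h1 : ∀ (u : σ → ℂ) (v : τ → ℂ), (∀ l, eval u (f l) = 0) →
      (∀ j, eval (Sum.elim u v) (g j) = 0) → u = 0 ∨ v = 0)
    (h2 : ∃ v : τ → ℂ, v ≠ 0 ∧ ∀ j, eval (Sum.elim (0 : σ → ℂ) v) (g j) = 0)
    (h3 : t < Fintype.card σ) : Fintype.card σ + Fintype.card τ ≤ t + e + 1 := by
  classical
  -- the normalised point
  obtain ⟨v₀, hv₀, hgv₀⟩ := h2
  obtain ⟨k₀, hk₀⟩ : ∃ k, v₀ k ≠ 0 := by
    by_contra hcon
    push Not at hcon
    exact hv₀ (funext hcon)
  obtain ⟨s, hs⟩ := IsAlgClosed.exists_pow_nat_eq (v₀ k₀)⁻¹ (ha k₀)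
  let v : τ → ℂ := fun k => s ^ a k * v₀ k
  have hv : v k₀ = 1 := by
    show s ^ a k₀ * v₀ k₀ = 1
    rw [hs, inv_mul_cancel₀ hk₀]
  have hgv : ∀ j, eval (Sum.elim (0 : σ → ℂ) v) (g j) = 0 := by
    intro j
    have h4 := eval_scale (hg j) s (Sum.elim (0 : σ → ℂ) v₀)
    rw [hgv₀ j, mul_zero] at h4
    rw [← h4]
    congr 2
    ext i
    rcases i with i | k
    · simp [wt]
    · simp [wt, v]
  -- the prime ideal
  let A := MvPolynomial σ ℂ
  let m₀ : Ideal A := RingHom.ker (aeval (0 : σ → ℂ) : MvPolynomial σ ℂ →ₐ[ℂ] ℂ)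
  have hm₀ : m₀.IsPrime := RingHom.ker_isPrime _
  obtain ⟨p, hp, hpm, hfp, htr⟩ := exists_prime ℂ A m₀ t f (fun l => by
    rw [RingHom.mem_ker, aeval_eq_eval]
    exact hf l)
  have hA : Algebra.trdeg ℂ A = Fintype.card σ := by
    rw [MvPolynomial.trdeg_of_isDomain, Cardinal.mk_fintype, Cardinal.lift_natCast]
  rw [hA] at htr
  -- a variable which is not in `p`
  obtain ⟨i₀, hi₀⟩ : ∃ i, (Ideal.Quotient.mk p (X i) : A ⧸ p) ≠ 0 := by
    by_contra hcon
    push Not at hcon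
    have h5 : Algebra.trdeg ℂ (A ⧸ p) = 0 := by
      apply trdeg_eq_zero_of_surjective
      intro x
      obtain ⟨q, rfl⟩ := Ideal.Quotient.mk_surjective x
      refine ⟨eval 0 q, ?_⟩
      induction q using MvPolynomial.induction_on with
      | C c =>
        rw [eval_C]
        rfl
      | add x y hx hy => rw [map_add, map_add, hx, hy, map_add]
      | mul_X x k _ =>
        rw [map_mul, eval_X, Pi.zero_apply, mul_zero, map_zero, map_mul (Ideal.Quotient.mk p),
          hcon k, mul_zero]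
    rw [h5, zero_add] at htr
    have h6 : Fintype.card σ ≤ t := by exact_mod_cast htr
    omega
  -- the rings
  let B := MvPolynomial {k : τ // k ≠ k₀} (A ⧸ p)
  let φ : MvPolynomial (σ ⊕ τ) ℂ →ₐ[ℂ] B := subst p k₀
  have hφX : ∀ i, φ (X (Sum.inl i)) = C (Ideal.Quotient.mk p (X i)) := by
    intro i
    show subst p k₀ (X (Sum.inl i)) = _
    rw [subst, aeval_X, Sum.elim_inl]
  have hφf : ∀ l, φ (rename Sum.inl (f l)) = 0 := by
    intro l
    show subst p k₀ _ = 0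
    rw [subst_rename, Ideal.Quotient.eq_zero_iff_mem.mpr (hfp l), map_zero]
  have hφk : φ (X (Sum.inr k₀)) = 1 := by
    show subst p k₀ (X (Sum.inr k₀)) = 1
    rw [subst, aeval_X, Sum.elim_inr, dif_pos rfl]
  let S : Set B := Set.range (fun i => φ (X (Sum.inl i))) ∪ Set.range (fun j => φ (g j))
  let D : Subalgebra ℂ B := Algebra.adjoin ℂ S
  have hXD : ∀ i, φ (X (Sum.inl i)) ∈ D := fun i => Algebra.subset_adjoin (Or.inl ⟨i, rfl⟩)
  have hgD : ∀ j, φ (g j) ∈ D := fun j => Algebra.subset_adjoin (Or.inr ⟨j, rfl⟩)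
  have hfinS : S.Finite := (Set.finite_range _).union (Set.finite_range _)
  have hDfin : Algebra.FiniteType ℂ D := Algebra.FiniteType.adjoin_of_finite hfinS
  have hrel : ∀ i, ∃ r : ℕ, 0 < r ∧ ∀ k, ∃ b : Fin e → MvPolynomial (σ ⊕ τ) ℂ,
      (∀ j, d j ≤ r * a k → IsWeightedHomogeneous (wt σ a) (b j) (r * a k - d j)) ∧
      (∀ j, ¬ d j ≤ r * a k → b j = 0) ∧
      φ (X (Sum.inl i)) ^ r * φ (X (Sum.inr k)) ^ r = ∑ j, φ (b j) * φ (g j) := by
    intro i
    obtain ⟨r, hr, hr'⟩ := exists_pow_mem f g h1 i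
    exact ⟨r, hr, fun k => homogeneous_relation φ f hφf g a d hg i k r (hr' k)⟩
  -- everything is algebraic over `D`
  have halg : Algebra.IsAlgebraic D B := by
    obtain ⟨r, hr, hr'⟩ := hrel i₀
    refine ⟨fun b => isAlgebraic g a d hd i₀ hr hXD hgD hr' (subst_surjective p k₀) ?_ b⟩
    rw [hφX]
    intro h0
    exact hi₀ (C_injective _ _ (by rw [h0, map_zero]))
  -- the maximal ideal
  let ε : D →+* ℂ := (evalAt p hpm k₀ v).comp (algebraMap D B)
  let m : Ideal D := RingHom.ker ε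
  have hm : m.IsPrime := RingHom.ker_isPrime _
  obtain ⟨q, hq, -, hgq, htrq⟩ := exists_prime ℂ D m e (fun j => ⟨φ (g j), hgD j⟩) (fun j => by
    rw [RingHom.mem_ker]
    show evalAt p hpm k₀ v (subst p k₀ (g j)) = 0
    rw [evalAt_subst p hpm k₀ v hv, hgv j])
  have hXq : ∀ i, (⟨φ (X (Sum.inl i)), hXD i⟩ : D) ∈ q := by
    intro i
    obtain ⟨r, hr, hr'⟩ := hrel i
    exact mem_of_prime g a d hd i hr hXD hgD hr' (subst_surjective p k₀) k₀ hφk q hgq
  have htr0 : Algebra.trdeg ℂ (D ⧸ q) = 0 := by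
    apply trdeg_eq_zero_of_surjective
    intro x
    obtain ⟨y, rfl⟩ := Ideal.Quotient.mk_surjective x
    have h7 : y ∈ (⊤ : Subalgebra ℂ D) := Algebra.mem_top
    rw [← Algebra.adjoin_adjoin_coe_preimage (R := ℂ) (s := S)] at h7
    have h8 : Algebra.adjoin ℂ ((fun x : D => (x : B)) ⁻¹' S) ≤
        (⊥ : Subalgebra ℂ (D ⧸ q)).comap (Ideal.Quotient.mkₐ ℂ q) := by
      rw [Algebra.adjoin_le_iff]
      rintro y hy
      have h9 : (Ideal.Quotient.mkₐ ℂ q) y = 0 := by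
        rw [Ideal.Quotient.mkₐ_eq_mk, Ideal.Quotient.eq_zero_iff_mem]
        rcases hy with ⟨i, hi⟩ | ⟨j, hj⟩
        · have : y = ⟨φ (X (Sum.inl i)), hXD i⟩ := Subtype.ext hi.symm
          rw [this]
          exact hXq i
        · have : y = ⟨φ (g j), hgD j⟩ := Subtype.ext hj.symm
          rw [this]
          exact hgq j
      rw [Subalgebra.coe_comap, Set.mem_preimage, h9]
      exact Subalgebra.zero_mem _
    obtain ⟨c, hc⟩ := Algebra.mem_bot.mp (h8 h7)
    exact ⟨c, hc⟩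
  -- conclusion
  rw [htr0, zero_add] at htrq
  have h10 : Algebra.trdeg ℂ (A ⧸ p) + Algebra.trdeg (A ⧸ p) B = Algebra.trdeg ℂ B :=
    trdeg_add_eq ℂ (A ⧸ p)
  have h11 : Algebra.trdeg ℂ D + Algebra.trdeg D B = Algebra.trdeg ℂ B := trdeg_add_eq ℂ D
  have h12 : Algebra.trdeg D B = 0 := trdeg_eq_zero
  have h13 : Algebra.trdeg (A ⧸ p) B = ((Fintype.card τ - 1 : ℕ) : Cardinal) := by
    have h16 : Fintype.card {k : τ // k ≠ k₀} = Fintype.card τ - 1 := by
      rw [Fintype.card_subtype_compl (p := fun k => k = k₀), Fintype.card_subtype_eq]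
    rw [MvPolynomial.trdeg_of_isDomain, Cardinal.mk_fintype, Cardinal.lift_natCast, h16]
  rw [h12, add_zero] at h11
  rw [h13, ← h11] at h10
  have h14 : ((Fintype.card σ + (Fintype.card τ - 1) : ℕ) : Cardinal) ≤ ((e + t : ℕ) : Cardinal) := by
    push_cast
    calc (Fintype.card σ : Cardinal) + ((Fintype.card τ - 1 : ℕ) : Cardinal)
        ≤ (Algebra.trdeg ℂ (A ⧸ p) + t) + ((Fintype.card τ - 1 : ℕ) : Cardinal) := by gcongr
      _ = (Algebra.trdeg ℂ (A ⧸ p) + ((Fintype.card τ - 1 : ℕ) : Cardinal)) + t := by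
        rw [add_right_comm]
      _ ≤ e + t := by
        rw [h10]
        gcongr
  have h15 : Fintype.card σ + (Fintype.card τ - 1) ≤ e + t := by exact_mod_cast h14
  omega

end

end Pool.Agent.CID
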