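import Pool.Agent.CID.Zeros

/-!
# Inequalities for the numbers of variables and equations
-/

set_option autoImplicit false

open MvPolynomial

namespace Pool.Agent.CID

open Pool.Agent.CIC

variable {r c : ℕ} {w : Fin r → (Fin 2 → ℤ)} {μ : Fin c → (Fin 2 → ℤ)}
  {g : Fin c → MvPolynomial (Fin r) ℂ} {L L₁ L₂ : (Fin 2 → ℤ) →+ ℤ}

theorem weight_nonneg {n : Fin r →₀ ℕ} (h : ∀ i, n i ≠ 0 → 0 ≤ L (w i)) :
    0 ≤ L (Finsupp.weight w n) := by
  rw [L_weight]
  refine Finset.sum_nonneg fun i _ => ?_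
  by_cases hi : n i = 0
  · rw [hi]; simp
  · have := h i hi
    positivity

theorem weight_pos {n : Fin r →₀ ℕ} (h : ∀ i, n i ≠ 0 → 0 ≤ L (w i))
    (h' : ∃ i, n i ≠ 0 ∧ 0 < L (w i)) : 0 < L (Finsupp.weight w n) := by
  rw [L_weight]
  obtain ⟨k, hk, hk'⟩ := h'
  refine Finset.sum_pos' (fun i _ => ?_) ⟨k, Finset.mem_univ k, ?_⟩
  · by_cases hi : n i = 0
    · rw [hi]; simp
    · have := h i hi
      positivity
  · have := Nat.pos_of_ne_zero hk
    positivity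

theorem weight_nonpos {n : Fin r →₀ ℕ} (h : ∀ i, n i ≠ 0 → L (w i) ≤ 0) :
    L (Finsupp.weight w n) ≤ 0 := by
  have h1 := weight_nonneg (L := -L) (n := n) (w := w) (fun i hi => by
    have := h i hi
    rw [AddMonoidHom.neg_apply]
    omega)
  rw [AddMonoidHom.neg_apply] at h1
  omega

theorem weight_neg {n : Fin r →₀ ℕ} (h : ∀ i, n i ≠ 0 → L (w i) ≤ 0)
    (h' : ∃ i, n i ≠ 0 ∧ L (w i) < 0) : L (Finsupp.weight w n) < 0 := by
  have h1 := weight_pos (L := -L) (n := n) (w := w) (fun i hi => by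
    have := h i hi
    rw [AddMonoidHom.neg_apply]
    omega) (by
    obtain ⟨k, hk, hk'⟩ := h'
    refine ⟨k, hk, ?_⟩
    rw [AddMonoidHom.neg_apply]
    omega)
  rw [AddMonoidHom.neg_apply] at h1
  omega

theorem weight_dvd {n : Fin r →₀ ℕ} {d : ℤ} (h : ∀ i, n i ≠ 0 → d ∣ L (w i)) :
    d ∣ L (Finsupp.weight w n) := by
  rw [L_weight]
  refine Finset.dvd_sum fun i _ => ?_
  by_cases hi : n i = 0
  · rw [hi]; simp
  · exact Dvd.dvd.mul_left (h i hi) _

/-- `(I1)`: the degrees on one side of `κ`. -/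
theorem S_side (hX : IsFanoCompleteIntersection w μ g) (h : Pair w μ g L₁ L₂) (d : ℕ) :
    S w μ (ind fun x => 0 < Dl (anticanonical w μ) L₁ L₂ x ∧ 0 < L₁ x ∧ (d : ℤ) ∣ L₁ x) ≤ 0 := by
  obtain ⟨y, hy, -⟩ := h.e₁.isRay hX
  have hl₁ := h.e₁.pos hX
  have hl₂ := h.e₂.pos hX
  have hyD : ∀ i, y i ≠ 0 → 0 < Dl (anticanonical w μ) L₁ L₂ (w i) := fun i hi =>
    Dl_pos_of_nonpos hl₁ hl₂ (h.pos_var hX i) (hy.supp i hi).le
  refine S_ind_nonpos hX hy.zero _ ?_ ?_ ?_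
  · rintro k ⟨-, hk, -⟩
    exact y_pos hy k hk
  · rintro n hn ⟨k, hk, hk', hk'', -⟩
    have hD : ∀ i, n i ≠ 0 → 0 < Dl (anticanonical w μ) L₁ L₂ (w i) := by
      intro i hi
      rcases hn i hi with h4 | h4
      · exact hyD i h4
      · exact h4.1
    refine ⟨weight_pos (fun i hi => (hD i hi).le) ⟨k, hk, hk'⟩,
      weight_pos (fun i hi => ?_) ⟨k, hk, hk''⟩, weight_dvd fun i hi => ?_⟩
    · rcases hn i hi with h4 | h4
      · exact (hy.supp i h4).ge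
      · exact h4.2.1.le
    · rcases hn i hi with h4 | h4
      · rw [hy.supp i h4]
        exact dvd_zero _
      · exact h4.2.2
  · intro z hz hz' k hk
    by_contra hcon
    refine not_semistable hX h (z := z) ?_ (hy.semistable z ⟨hz, fun i hi => ?_, fun i hi => ?_,
      k, hk.2.1, hcon⟩)
    · intro i hi
      by_cases h4 : 0 < Dl (anticanonical w μ) L₁ L₂ (w i) ∧ 0 < L₁ (w i) ∧ (d : ℤ) ∣ L₁ (w i)
      · exact h4.1
      · rw [hz' i h4] at hi
        exact hyD i hi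
    · refine hz' i fun h4 => ?_
      have := h4.2.1
      omega
    · rw [hz' i fun h4 => by have := h4.2.1; omega]
      exact y_neg hy i hi

/-- `(I3)`: freeness. -/
theorem S_dvd (hX : IsFanoCompleteIntersection w μ g) (h : IsEdge w μ g L) (d : ℕ)
    (hd : 2 ≤ d) : S w μ (ind fun x => 0 < L x ∧ (d : ℤ) ∣ L x) ≤ 0 := by
  obtain ⟨y, hy, -⟩ := h.isRay hX
  refine S_ind_nonpos hX hy.zero _ ?_ ?_ ?_
  · rintro k ⟨hk, -⟩
    exact y_pos hy k hk
  · rintro n hn ⟨k, hk, hk', -⟩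
    refine ⟨weight_pos (fun i hi => ?_) ⟨k, hk, hk'⟩, weight_dvd fun i hi => ?_⟩
    · rcases hn i hi with h4 | h4
      · exact (hy.supp i h4).ge
      · exact h4.1.le
    · rcases hn i hi with h4 | h4
      · rw [hy.supp i h4]
        exact dvd_zero _
      · exact h4.2
  · intro z hz hz' k hk
    by_contra hcon
    refine not_dvd hX h.surj hd hz (hy.semistable z ⟨hz, fun i hi => ?_, fun i hi => ?_,
      k, hk.1, hcon⟩) ?_
    · refine hz' i fun h4 => ?_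
      have := h4.1
      omega
    · rw [hz' i fun h4 => by have := h4.1; omega]
      exact y_neg hy i hi
    · intro i hi
      by_cases h4 : 0 < L (w i) ∧ (d : ℤ) ∣ L (w i)
      · exact h4.2
      · rw [hz' i h4] at hi
        rw [hy.supp i hi]
        exact dvd_zero _

/-- `(I2)`: the degrees on the line of `κ`. -/
theorem S_line (hX : IsFanoCompleteIntersection w μ g) (h : Pair w μ g L₁ L₂) :
    S w μ (ind fun x => Dl (anticanonical w μ) L₁ L₂ x = 0) ≤ 0 := by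
  refine S_ind_nonpos_zero hX _ ?_ ?_
  · intro n hn _
    exact le_antisymm (weight_nonpos fun i hi => (hn i hi).le)
      (weight_nonneg fun i hi => (hn i hi).ge)
  · intro z hz hz'
    exact no_zero_on_line hX h hz hz'

/-- `(I4)`: smoothness. -/
theorem S_neg (hX : IsFanoCompleteIntersection w μ g) (h : IsEdge w μ g L) (F : ℤ → ℤ)
    (hF : ∀ t < 0, 0 ≤ F t) (hF' : ∀ s t, s ≤ t → t < 0 → F t ≤ F s) :
    0 ≤ S w μ (fun x => ind (fun x => L x < 0) x * F (L x)) := by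
  classical
  obtain ⟨y, hy, -⟩ := h.isRay hX
  obtain ⟨z, hz⟩ := hy.fibre
  have hlin := hX.smooth z hz.1 (hy.semistable z hz)
  have hlin' : LinearIndependent ℂ fun (j : {j : Fin c // L (μ j) < 0}) (i : Fin r) =>
      eval z (pderiv i (g j)) := hlin.comp (fun j : {j : Fin c // L (μ j) < 0} => (j : Fin c))
        Subtype.val_injective
  obtain ⟨f, hf, hf'⟩ := exists_matching _ hlin'
  have h1 : ∀ j : {j : Fin c // L (μ j) < 0}, L (w (f j)) ≤ L (μ j) := fun j =>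
    eval_pderiv_ne_zero (hX.homogeneous j) hz.2.2.1 (hf' j)
  have e1 : ∑ j, ind (fun x => L x < 0) (μ j) * F (L (μ j)) =
      ∑ j : {j : Fin c // L (μ j) < 0}, F (L (μ j)) := by
    rw [← Finset.sum_subtype (Finset.univ.filter (fun j => L (μ j) < 0))
      (fun j => by simp) (fun j => F (L (μ j))), Finset.sum_filter]
    refine Finset.sum_congr rfl fun j _ => ?_
    unfold ind
    split_ifs <;> simp
  have e2 : ∑ k, ind (fun x => L x < 0) (w k) * F (L (w k)) =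
      ∑ k ∈ Finset.univ.filter (fun k => L (w k) < 0), F (L (w k)) := by
    rw [Finset.sum_filter]
    refine Finset.sum_congr rfl fun j _ => ?_
    unfold ind
    split_ifs <;> simp
  have e3 : ∑ j : {j : Fin c // L (μ j) < 0}, F (L (μ j)) ≤
      ∑ k ∈ Finset.univ.filter (fun k => L (w k) < 0), F (L (w k)) := by
    calc ∑ j : {j : Fin c // L (μ j) < 0}, F (L (μ j))
        ≤ ∑ j : {j : Fin c // L (μ j) < 0}, F (L (w (f j))) :=
          Finset.sum_le_sum fun j _ => hF' _ _ (h1 j) j.2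
      _ = ∑ k ∈ Finset.univ.image f, F (L (w k)) :=
          (Finset.sum_image (f := fun k => F (L (w k))) fun a _ b _ h => hf h).symm
      _ ≤ ∑ k ∈ Finset.univ.filter (fun k => L (w k) < 0), F (L (w k)) := by
          refine Finset.sum_le_sum_of_subset_of_nonneg ?_ ?_
          · intro k hk
            obtain ⟨j, -, rfl⟩ := Finset.mem_image.mp hk
            rw [Finset.mem_filter]
            exact ⟨Finset.mem_univ _, (h1 j).trans_lt j.2⟩
          · intro k hk _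
            exact hF _ (Finset.mem_filter.mp hk).2
  show 0 ≤ ∑ k, ind (fun x => L x < 0) (w k) * F (L (w k)) -
    ∑ j, ind (fun x => L x < 0) (μ j) * F (L (μ j))
  rw [e1, e2]
  omega

/-- Type `(b)`: there is no nonzero zero supported on the variables with `D ≤ 0` and `d ∣ L₁`. -/
def TypeB (w : Fin r → (Fin 2 → ℤ)) (μ : Fin c → (Fin 2 → ℤ))
    (g : Fin c → MvPolynomial (Fin r) ℂ) (L₁ L₂ : (Fin 2 → ℤ) →+ ℤ) (d : ℕ) : Prop :=
  ∀ z, IsZero g z → (∀ i, z i ≠ 0 → Dl (anticanonical w μ) L₁ L₂ (w i) ≤ 0 ∧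
    (d : ℤ) ∣ L₁ (w i)) → ∀ i, z i = 0

/-- `(b)`, general form. -/
theorem TypeB.S_le (hX : IsFanoCompleteIntersection w μ g) {d : ℕ} (hb : TypeB w μ g L₁ L₂ d)
    (P : (Fin 2 → ℤ) → Prop)
    (hclosed : ∀ n : Fin r →₀ ℕ, (∀ i, n i ≠ 0 → P (w i)) → (∃ i, n i ≠ 0) →
      P (Finsupp.weight w n))
    (hP : ∀ i, P (w i) → Dl (anticanonical w μ) L₁ L₂ (w i) ≤ 0 ∧ (d : ℤ) ∣ L₁ (w i)) :
    S w μ (ind P) ≤ 0 :=
  S_ind_nonpos_zero hX P hclosed fun z hz hz' => hb z hz fun i hi => hP i (hz' i hi)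

theorem TypeB.S_all (hX : IsFanoCompleteIntersection w μ g) {d : ℕ}
    (hb : TypeB w μ g L₁ L₂ d) :
    S w μ (ind fun x => Dl (anticanonical w μ) L₁ L₂ x ≤ 0 ∧ (d : ℤ) ∣ L₁ x) ≤ 0 :=
  hb.S_le hX _ (fun n hn _ => ⟨weight_nonpos fun i hi => (hn i hi).1,
    weight_dvd fun i hi => (hn i hi).2⟩) fun i hi => hi

theorem TypeB.S_line (hX : IsFanoCompleteIntersection w μ g) {d : ℕ}
    (hb : TypeB w μ g L₁ L₂ d) :
    S w μ (ind fun x => Dl (anticanonical w μ) L₁ L₂ x = 0 ∧ (d : ℤ) ∣ L₁ x) ≤ 0 :=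
  hb.S_le hX _ (fun n hn _ => ⟨le_antisymm (weight_nonpos fun i hi => (hn i hi).1.le)
    (weight_nonneg fun i hi => (hn i hi).1.ge),
    weight_dvd fun i hi => (hn i hi).2⟩) fun i hi => ⟨hi.1.le, hi.2⟩

theorem TypeB.S_mid (hX : IsFanoCompleteIntersection w μ g) {d : ℕ}
    (hb : TypeB w μ g L₁ L₂ d) :
    S w μ (ind fun x => Dl (anticanonical w μ) L₁ L₂ x < 0 ∧ 0 < L₂ x ∧ (d : ℤ) ∣ L₁ x) ≤ 0 :=
  hb.S_le hX _ (fun n hn hn' => by
    obtain ⟨k, hk⟩ := hn'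
    exact ⟨weight_neg (fun i hi => (hn i hi).1.le) ⟨k, hk, (hn k hk).1⟩,
      weight_pos (fun i hi => (hn i hi).2.1.le) ⟨k, hk, (hn k hk).2.1⟩,
      weight_dvd fun i hi => (hn i hi).2.2⟩) fun i hi => ⟨hi.1.le, hi.2.2⟩

theorem TypeB.S_far (hX : IsFanoCompleteIntersection w μ g) (h : Pair w μ g L₁ L₂) {d : ℕ}
    (hb : TypeB w μ g L₁ L₂ d) :
    S w μ (ind fun x => L₂ x ≤ 0 ∧ (d : ℤ) ∣ L₁ x) ≤ 0 :=
  hb.S_le hX _ (fun n hn _ => ⟨weight_nonpos fun i hi => (hn i hi).1,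
    weight_dvd fun i hi => (hn i hi).2⟩) fun i hi =>
      ⟨(Dl_neg_of_nonpos (h.e₁.pos hX) (h.e₂.pos hX) (h.pos_var hX i) hi.1).le, hi.2⟩

end Pool.Agent.CID
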