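import Pool.Agent.CID.Krull
import Pool.Agent.CID.CT3
import Pool.Agent.CID.Ineq

/-!
# The dimension of a complete intersection with a smooth point
-/

set_option autoImplicit false

open MvPolynomial Cardinal

namespace Pool.Agent.CID

open Pool.Agent.CIC

universe u

/-- A nonzero prime ideal lowers the transcendence degree. -/
theorem trdeg_add_one_le (F : Type u) [Field F] (A : Type u) [CommRing A] [IsDomain A]
    [Algebra F A] [Algebra.FiniteType F A] (P : Ideal A) [P.IsPrime] (hP : P ≠ ⊥) :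
    Algebra.trdeg F (A ⧸ P) + 1 ≤ Algebra.trdeg F A := by
  have : IsNoetherianRing A := Algebra.FiniteType.isNoetherianRing F A
  obtain ⟨x, hx, hx0⟩ := Submodule.exists_mem_ne_zero_of_ne_bot hP
  obtain ⟨q, hq, hqm⟩ := Ideal.exists_minimalPrimes_le (I := Ideal.span {x}) (J := P)
    ((Ideal.span_singleton_le_iff_mem P).mpr hx)
  have hqp : q.IsPrime := hq.1.1
  have hxq : x ∈ q := hq.1.2 (Ideal.mem_span_singleton_self x)
  have h1 : q.height ≤ 1 := Ideal.height_le_one_of_isPrincipal_of_mem_minimalPrimes _ q hq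
  have h0 : q ≠ ⊥ := by
    rintro rfl
    exact hx0 (by simpa using hxq)
  have h2 : q.height = 1 := by
    refine le_antisymm h1 ?_
    rw [Order.one_le_iff_pos, pos_iff_ne_zero, Ne, Ideal.height_eq_zero_iff_eq_bot]
    exact h0
  rw [← NumGor.p_DIM F A q h2]
  gcongr
  exact trdeg_le_of_surjective (Ideal.Quotient.factorₐ F hqm)
    (Ideal.Quotient.factor_surjective hqm)

/-- A prime ideal which lowers the (finite) transcendence degree by at most one has height at
most one. -/
theorem height_le_one (F : Type u) [Field F] (A : Type u) [CommRing A] [IsDomain A]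
    [Algebra F A] [Algebra.FiniteType F A] (P : Ideal A) [P.IsPrime] (n : ℕ)
    (hA : Algebra.trdeg F A ≤ n + 1) (hP : (n : Cardinal) ≤ Algebra.trdeg F (A ⧸ P)) :
    P.height ≤ 1 := by
  have : IsNoetherianRing A := Algebra.FiniteType.isNoetherianRing F A
  rw [show (1 : ℕ∞) = ((1 : ℕ) : ℕ∞) from rfl, Ideal.height_le_iff]
  intro q hq hqP
  by_contra hcon
  have hq0 : q ≠ ⊥ := by
    rintro rfl
    rw [Ideal.height_bot] at hcon
    exact hcon (by norm_num)
  have h1 := trdeg_add_one_le F A q hq0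
  let P' : Ideal (A ⧸ q) := P.map (Ideal.Quotient.mk q)
  have hker : RingHom.ker (Ideal.Quotient.mk q) ≤ P := by
    rw [Ideal.mk_ker]
    exact hqP.le
  have hP' : P'.IsPrime := Ideal.map_isPrime_of_surjective Ideal.Quotient.mk_surjective hker
  have hP'0 : P' ≠ ⊥ := by
    intro h0
    have h2 := (Ideal.map_eq_bot_iff_le_ker _).mp h0
    rw [Ideal.mk_ker] at h2
    exact absurd h2 (not_le_of_gt hqP)
  have h2 := trdeg_add_one_le F (A ⧸ q) P' hP'0
  let f : ((A ⧸ q) ⧸ P') →ₐ[F] (A ⧸ P) :=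
    Ideal.Quotient.liftₐ P' (Ideal.Quotient.factorₐ F hqP.le) (by
      intro a ha
      have h3 : P' ≤ RingHom.ker (Ideal.Quotient.factor hqP.le) := by
        rw [Ideal.map_le_iff_le_comap]
        intro x hx
        rw [Ideal.mem_comap, RingHom.mem_ker, Ideal.Quotient.factor_mk]
        exact Ideal.Quotient.eq_zero_iff_mem.mpr hx
      exact h3 ha)
  have hf : Function.Surjective f := by
    intro b
    obtain ⟨a, rfl⟩ := Ideal.Quotient.mk_surjective b
    exact ⟨Ideal.Quotient.mk _ (Ideal.Quotient.mk _ a), rfl⟩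
  have h3 := trdeg_le_of_surjective f hf
  have h4 : ((n + 2 : ℕ) : Cardinal.{u}) ≤ ((n + 1 : ℕ) : Cardinal.{u}) := by
    push_cast
    calc (n : Cardinal.{u}) + 2 ≤ Algebra.trdeg F (A ⧸ P) + 2 := by gcongr
      _ ≤ Algebra.trdeg F ((A ⧸ q) ⧸ P') + 2 := by gcongr
      _ = (Algebra.trdeg F ((A ⧸ q) ⧸ P') + 1) + 1 := by
        rw [add_assoc, one_add_one_eq_two]
      _ ≤ Algebra.trdeg F (A ⧸ q) + 1 := by gcongr
      _ ≤ Algebra.trdeg F A := h1
      _ ≤ n + 1 := hA
  have h5 : n + 2 ≤ n + 1 := by exact_mod_cast h4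
  omega

end Pool.Agent.CID
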