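import Pool.Agent.CID.Dim

/-!
# The dimension of a complete intersection with a smooth point, II
-/

set_option autoImplicit false

open MvPolynomial Cardinal

namespace Pool.Agent.CID

open Pool.Agent.CIC

variable {r c : ℕ}

/-- The affine linear function with gradient `v` which vanishes at `z`. -/
noncomputable def lin (z : Fin r → ℂ) : (Fin r → ℂ) →ₗ[ℂ] MvPolynomial (Fin r) ℂ where
  toFun v := ∑ k, C (v k) * (X k - C (z k))
  map_add' u v := by
    rw [← Finset.sum_add_distrib]
    refine Finset.sum_congr rfl fun k _ => ?_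
    rw [Pi.add_apply, map_add, add_mul]
  map_smul' a v := by
    rw [RingHom.id_apply, Finset.smul_sum]
    refine Finset.sum_congr rfl fun k _ => ?_
    rw [Pi.smul_apply, smul_eq_mul, map_mul, smul_eq_C_mul, mul_assoc]

/-- The ideal of the point `z`. -/
noncomputable def ptIdeal (z : Fin r → ℂ) : Ideal (MvPolynomial (Fin r) ℂ) :=
  Ideal.span (Set.range fun k => X k - C (z k))

theorem lin_mem (z : Fin r → ℂ) (v : Fin r → ℂ) : lin z v ∈ ptIdeal z := by
  show ∑ k, C (v k) * (X k - C (z k)) ∈ ptIdeal z
  refine Ideal.sum_mem _ fun k _ => Ideal.mul_mem_left _ _ (Ideal.subset_span ⟨k, rfl⟩)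

theorem lin_single (z : Fin r → ℂ) (k : Fin r) : lin z (Pi.single k 1) = X k - C (z k) := by
  show ∑ i, C ((Pi.single k (1 : ℂ) : Fin r → ℂ) i) * (X i - C (z i)) = _
  rw [Finset.sum_eq_single k]
  · rw [Pi.single_eq_same, C_1, one_mul]
  · intro i _ hi
    rw [Pi.single_eq_of_ne hi, map_zero, zero_mul]
  · intro h
    exact absurd (Finset.mem_univ k) h

/-- Taylor's formula modulo the square of the ideal of `z`. -/
theorem taylor (z : Fin r → ℂ) (p : MvPolynomial (Fin r) ℂ) :
    p - C (eval z p) - lin z (fun k => eval z (pderiv k p)) ∈ ptIdeal z ^ 2 := by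
  induction p using MvPolynomial.induction_on with
  | C a =>
    have h : (fun k => eval z (pderiv k (C a : MvPolynomial (Fin r) ℂ))) = 0 := by
      funext k
      rw [pderiv_C, map_zero]
      rfl
    rw [h, map_zero, eval_C, sub_self, sub_zero]
    exact Ideal.zero_mem _
  | add p q hp hq =>
    have h : (fun k => eval z (pderiv k (p + q))) =
        (fun k => eval z (pderiv k p)) + fun k => eval z (pderiv k q) := by
      funext k
      rw [map_add, map_add]
      rfl
    rw [h, map_add (lin z), map_add, map_add]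
    have := Ideal.add_mem _ hp hq
    convert this using 1
    ring
  | mul_X p i hp =>
    have h : (fun k => eval z (pderiv k (p * X i))) =
        z i • (fun k => eval z (pderiv k p)) + eval z p • Pi.single i 1 := by
      funext k
      rw [pderiv_mul, map_add, map_mul, map_mul, eval_X, Pi.add_apply, Pi.smul_apply,
        Pi.smul_apply, smul_eq_mul, smul_eq_mul, pderiv_X, mul_comm (z i)]
      congr 2
      by_cases hk : k = i
      · subst hk
        rw [Pi.single_eq_same, Pi.single_eq_same, map_one]
      · rw [Pi.single_eq_of_ne hk, Pi.single_eq_of_ne (fun h => hk h.symm), map_zero]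
    rw [h, map_add (lin z), map_smul, map_smul, lin_single, map_mul, eval_X, map_mul,
      smul_eq_C_mul, smul_eq_C_mul]
    have h1 : lin z (fun k => eval z (pderiv k p)) * (X i - C (z i)) ∈ ptIdeal z ^ 2 := by
      rw [pow_two]
      exact Ideal.mul_mem_mul (lin_mem z _) (Ideal.subset_span ⟨i, rfl⟩)
    have h2 := Ideal.add_mem _ (Ideal.mul_mem_right (X i) _ hp) h1
    convert h2 using 1
    ring

/-- The dimension of `V(g_1, …, g_c)` is at most `r - c`, if there is a point at which the
gradients are linearly independent. -/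
theorem trdeg_coxRing_le (g : Fin c → MvPolynomial (Fin r) ℂ) [hp : (relations g).IsPrime]
    (z : Fin r → ℂ) (hz : IsZero g z)
    (hlin : LinearIndependent ℂ fun (j : Fin c) (i : Fin r) => eval z (pderiv i (g j))) :
    c ≤ r ∧ Algebra.trdeg ℂ (CoxRing g) ≤ (r - c : ℕ) := by
  classical
  have hcr : c ≤ r := by
    have := hlin.fintype_card_le_finrank
    rwa [Module.finrank_fintype_fun_eq_card, Fintype.card_fin, Fintype.card_fin] at this
  refine ⟨hcr, ?_⟩
  set v : Fin c → Fin r → ℂ := fun j i => eval z (pderiv i (g j)) with hv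
  set W := Submodule.span ℂ (Set.range v) with hW
  have hWf : Module.finrank ℂ W = c := by
    rw [hW, finrank_span_eq_card hlin, Fintype.card_fin]
  have hQ : Module.finrank ℂ ((Fin r → ℂ) ⧸ W) = r - c := by
    have := W.finrank_quotient_add_finrank
    rw [Module.finrank_fintype_fun_eq_card, Fintype.card_fin, hWf] at this
    omega
  let b := Module.finBasisOfFinrankEq ℂ ((Fin r → ℂ) ⧸ W) hQ
  choose ℓ hℓ using fun a => Submodule.mkQ_surjective W (b a)
  -- the evaluation
  let ε : CoxRing g →ₐ[ℂ] ℂ := Ideal.Quotient.liftₐ (relations g) (aeval z) (by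
    intro a ha
    have h1 : relations g ≤ RingHom.ker (aeval z : MvPolynomial (Fin r) ℂ →ₐ[ℂ] ℂ) := by
      rw [relations, Ideal.span_le]
      rintro _ ⟨j, rfl⟩
      rw [SetLike.mem_coe, RingHom.mem_ker, aeval_eq_eval]
      exact hz j
    exact h1 ha)
  let m : Ideal (CoxRing g) := RingHom.ker ε
  have hm : m.IsPrime := RingHom.ker_isPrime _
  have hεmk : ∀ p, ε (Ideal.Quotient.mk (relations g) p) = eval z p := fun p => by
    show (aeval z) p = _
    rw [aeval_eq_eval]
  have hlinm : ∀ u, Ideal.Quotient.mk (relations g) (lin z u) ∈ m := by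
    intro u
    rw [RingHom.mem_ker, hεmk]
    show eval z (∑ k, C (u k) * (X k - C (z k))) = 0
    rw [map_sum]
    refine Finset.sum_eq_zero fun k _ => ?_
    rw [map_mul, map_sub, eval_X, eval_C, eval_C, sub_self, mul_zero]
  obtain ⟨q, hq, hqm, hxq, htr⟩ := exists_prime ℂ (CoxRing g) m (r - c)
    (fun a => Ideal.Quotient.mk (relations g) (lin z (ℓ a))) (fun a => hlinm _)
  -- generators of `m`
  have hM : ∀ p : MvPolynomial (Fin r) ℂ, p - C (eval z p) ∈ ptIdeal z := by
    intro p
    have h1 := Ideal.pow_le_self (n := 2) (by norm_num) (taylor z p)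
    have h2 := Ideal.add_mem _ h1 (lin_mem z fun k => eval z (pderiv k p))
    convert h2 using 1
    ring
  have hmap : (ptIdeal z).map (Ideal.Quotient.mk (relations g)) = m := by
    apply le_antisymm
    · rw [Ideal.map_le_iff_le_comap, ptIdeal, Ideal.span_le]
      rintro _ ⟨k, rfl⟩
      show Ideal.Quotient.mk (relations g) (X k - C (z k)) ∈ m
      rw [← lin_single]
      exact hlinm _
    · intro x hx
      obtain ⟨p, rfl⟩ := Ideal.Quotient.mk_surjective x
      rw [RingHom.mem_ker, hεmk] at hx
      have h1 := hM p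
      rw [hx, map_zero, sub_zero] at h1
      exact Ideal.mem_map_of_mem _ h1
  have hspan : ∀ u, Ideal.Quotient.mk (relations g) (lin z u) ∈ q ⊔ m ^ 2 := by
    let N : Submodule ℂ (CoxRing g) := (q ⊔ m ^ 2).restrictScalars ℂ
    let T : (Fin r → ℂ) →ₗ[ℂ] CoxRing g :=
      (Ideal.Quotient.mkₐ ℂ (relations g)).toLinearMap ∘ₗ lin z
    have hT : ∀ u, T u = Ideal.Quotient.mk (relations g) (lin z u) := fun u => rfl
    have h1 : W ≤ N.comap T := by
      rw [hW, Submodule.span_le]
      rintro _ ⟨j, rfl⟩
      show T (v j) ∈ N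
      have h2 := Ideal.mem_map_of_mem (Ideal.Quotient.mk (relations g)) (taylor z (g j))
      rw [hz j, map_zero, sub_zero, Ideal.map_pow, hmap, map_sub,
        Ideal.Quotient.eq_zero_iff_mem.mpr
          (show g j ∈ relations g from Ideal.subset_span ⟨j, rfl⟩), zero_sub,
        neg_mem_iff] at h2
      exact Ideal.mem_sup_right h2
    intro u
    have h3 : W.mkQ (u - ∑ a, b.repr (W.mkQ u) a • ℓ a) = 0 := by
      rw [map_sub, map_sum]
      have h4 : ∀ a, W.mkQ (b.repr (W.mkQ u) a • ℓ a) = b.repr (W.mkQ u) a • b a := fun a => by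
        rw [map_smul, hℓ]
      rw [Finset.sum_congr rfl fun a _ => h4 a, b.sum_repr, sub_self]
    have h5 : u - ∑ a, b.repr (W.mkQ u) a • ℓ a ∈ W := by
      rwa [Submodule.mkQ_apply, Submodule.Quotient.mk_eq_zero] at h3
    have h6 : T (u - ∑ a, b.repr (W.mkQ u) a • ℓ a) ∈ N := h1 h5
    have h7 : T (∑ a, b.repr (W.mkQ u) a • ℓ a) ∈ N := by
      rw [map_sum]
      refine Submodule.sum_mem _ fun a _ => ?_
      rw [map_smul]
      exact Submodule.smul_mem _ _ (Ideal.mem_sup_left (hxq a))
    have h8 := Submodule.add_mem _ h6 h7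
    rw [← map_add, sub_add_cancel] at h8
    exact h8
  have hle : m ≤ q ⊔ m ^ 2 := by
    rw [← hmap, Ideal.map_le_iff_le_comap, ptIdeal, Ideal.span_le]
    rintro _ ⟨k, rfl⟩
    show Ideal.Quotient.mk (relations g) (X k - C (z k)) ∈
      q ⊔ (Ideal.map (Ideal.Quotient.mk (relations g)) (Ideal.span _)) ^ 2
    rw [← lin_single]
    have := hspan (Pi.single k 1)
    rw [← hmap, ptIdeal] at this
    exact this
  -- in the quotient by `q` the ideal `m` is idempotent
  let m' : Ideal (CoxRing g ⧸ q) := m.map (Ideal.Quotient.mk q)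
  have hid : IsIdempotentElem m' := by
    apply le_antisymm
    · exact Ideal.mul_le_left
    · have h1 := Ideal.map_mono (f := Ideal.Quotient.mk q) hle
      rw [Ideal.map_sup, Ideal.map_quotient_self, bot_sup_eq, Ideal.map_pow, pow_two] at h1
      exact h1
  have : IsNoetherianRing (CoxRing g ⧸ q) := inferInstance
  have hker : RingHom.ker (Ideal.Quotient.mk q) ≤ m := by
    rw [Ideal.mk_ker]
    exact hqm
  have hm' : m'.IsPrime := Ideal.map_isPrime_of_surjective Ideal.Quotient.mk_surjective hker
  have hm'0 : m' = ⊥ := by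
    rcases (Ideal.isIdempotentElem_iff_eq_bot_or_top m'
      (IsNoetherian.noetherian m')).mp hid with h1 | h1
    · exact h1
    · exact absurd h1 hm'.ne_top
  have hmq : m ≤ q := by
    have h2 := (Ideal.map_eq_bot_iff_le_ker _).mp hm'0
    rwa [Ideal.mk_ker] at h2
  have htr0 : Algebra.trdeg ℂ (CoxRing g ⧸ q) = 0 := by
    apply trdeg_eq_zero_of_surjective
    intro x
    obtain ⟨y, rfl⟩ := Ideal.Quotient.mk_surjective x
    refine ⟨ε y, ?_⟩
    have h3 : y - algebraMap ℂ (CoxRing g) (ε y) ∈ m := by
      rw [RingHom.mem_ker, map_sub, AlgHom.commutes, Algebra.algebraMap_self, RingHom.id_apply,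
        sub_self]
    have h4 := hmq h3
    rw [← Ideal.Quotient.eq_zero_iff_mem, map_sub, sub_eq_zero] at h4
    rw [h4]
    rfl
  rwa [htr0, zero_add] at htr

end Pool.Agent.CID
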