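import Pool.Agent.CID.Dim2
import Pool.Agent.CID.Arith2

/-!
# The number of variables on one side of a line
-/

set_option autoImplicit false

open MvPolynomial Cardinal

namespace Pool.Agent.CID

open Pool.Agent.CIC

variable {r c : ℕ} {w : Fin r → (Fin 2 → ℤ)} {μ : Fin c → (Fin 2 → ℤ)}
  {g : Fin c → MvPolynomial (Fin r) ℂ} {L : (Fin 2 → ℤ) →+ ℤ}

section

variable (w L)

/-- The variables with `L ≤ 0`. -/
abbrev Kn : Type := {i : Fin r // L (w i) ≤ 0}

/-- The restriction to the variables with `L ≤ 0`. -/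
noncomputable def res : MvPolynomial (Fin r) ℂ →ₐ[ℂ] MvPolynomial (Kn w L) ℂ :=
  aeval fun i => if h : L (w i) ≤ 0 then X ⟨i, h⟩ else 0

end

theorem res_surjective : Function.Surjective (res w L) := by
  intro p
  induction p using MvPolynomial.induction_on with
  | C a => exact ⟨C a, by rw [res, aeval_C]; rfl⟩
  | add p q hp hq =>
    obtain ⟨p', rfl⟩ := hp
    obtain ⟨q', rfl⟩ := hq
    exact ⟨p' + q', map_add _ _ _⟩
  | mul_X p i hp =>
    obtain ⟨p', rfl⟩ := hp
    refine ⟨p' * X i.1, ?_⟩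
    rw [map_mul]
    congr 1
    rw [res, aeval_X, dif_pos i.2]

theorem res_eq_zero {p : MvPolynomial (Fin r) ℂ} {m : Fin 2 → ℤ}
    (hp : IsWeightedHomogeneous w p m) (hm : 0 < L m) : res w L p = 0 := by
  classical
  rw [p.as_sum, map_sum]
  refine Finset.sum_eq_zero fun n hn => ?_
  rw [res, aeval_monomial]
  have h1 : 0 < L (Finsupp.weight w n) := by
    rw [hp (mem_support_iff.mp hn)]
    exact hm
  obtain ⟨i, hi, hi'⟩ : ∃ i, n i ≠ 0 ∧ 0 < L (w i) := by
    by_contra hcon
    push Not at hcon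
    have := weight_nonpos (L := L) (w := w) (n := n) hcon
    omega
  rw [Finsupp.prod, Finset.prod_eq_zero (Finsupp.mem_support_iff.mpr hi), mul_zero]
  rw [dif_neg (by omega), zero_pow hi]

/-- **Two variables.** If `L(κ) > 0`, then the number of variables with `L > 0` is at least the
number of equations with `L > 0` plus two. -/
theorem two_le_S_pos [hp : (relations g).IsPrime] (hX : IsFanoCompleteIntersection w μ g)
    (hL : 0 < L (anticanonical w μ)) : 2 ≤ S w μ (ind fun x => 0 < L x) := by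
  classical
  by_contra hcon
  let A := MvPolynomial (Kn w L) ℂ
  let J₀ := Finset.univ.filter fun j => L (μ j) ≤ 0
  let e₀ := J₀.equivFin
  let m₀ : Ideal A := RingHom.ker (aeval (0 : Kn w L → ℂ) : A →ₐ[ℂ] ℂ)
  have hm₀ : m₀.IsPrime := RingHom.ker_isPrime _
  have hx : ∀ a : Fin J₀.card, res w L (g (e₀.symm a)) ∈ m₀ := by
    intro a
    rw [RingHom.mem_ker]
    have h1 : (aeval (0 : Kn w L → ℂ) : A →ₐ[ℂ] ℂ).comp (res w L) = aeval (0 : Fin r → ℂ) := by
      apply MvPolynomial.algHom_ext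
      intro i
      rw [AlgHom.comp_apply, res, aeval_X, aeval_X]
      split_ifs with h
      · rw [aeval_X]
        rfl
      · rw [map_zero]
        rfl
    have h2 := DFunLike.congr_fun h1 (g (e₀.symm a))
    rw [AlgHom.comp_apply, aeval_eq_eval (0 : Fin r → ℂ)] at h2
    rw [h2]
    exact isZero_zero hX _
  obtain ⟨q, hq, -, hxq, htr⟩ := exists_prime ℂ A m₀ J₀.card _ hx
  have hA : Algebra.trdeg ℂ A = Fintype.card (Kn w L) := by
    rw [MvPolynomial.trdeg_of_isDomain, Cardinal.mk_fintype, Cardinal.lift_natCast]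
  let ψ : MvPolynomial (Fin r) ℂ →ₐ[ℂ] (A ⧸ q) := (Ideal.Quotient.mkₐ ℂ q).comp (res w L)
  have hψ : Function.Surjective ψ :=
    (Ideal.Quotient.mkₐ_surjective ℂ q).comp res_surjective
  have hrel : ∀ a ∈ relations g, ψ a = 0 := by
    intro a ha
    have h1 : relations g ≤ RingHom.ker ψ := by
      rw [relations, Ideal.span_le]
      rintro _ ⟨j, rfl⟩
      rw [SetLike.mem_coe, RingHom.mem_ker]
      show Ideal.Quotient.mk q (res w L (g j)) = 0
      by_cases hj : L (μ j) ≤ 0
      · have h2 := hxq (e₀ ⟨j, Finset.mem_filter.mpr ⟨Finset.mem_univ _, hj⟩⟩)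
        rw [Equiv.symm_apply_apply] at h2
        exact Ideal.Quotient.eq_zero_iff_mem.mpr h2
      · rw [res_eq_zero (hX.homogeneous j) (by omega), map_zero]
    exact h1 ha
  let φ : CoxRing g →ₐ[ℂ] (A ⧸ q) := Ideal.Quotient.liftₐ (relations g) ψ hrel
  have hφ : Function.Surjective φ := by
    intro x
    obtain ⟨y, rfl⟩ := hψ x
    exact ⟨Ideal.Quotient.mk _ y, rfl⟩
  let P : Ideal (CoxRing g) := RingHom.ker φ
  have hP : P.IsPrime := RingHom.ker_isPrime _
  have htrP : Algebra.trdeg ℂ (CoxRing g ⧸ P) = Algebra.trdeg ℂ (A ⧸ q) :=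
    (Ideal.quotientKerAlgEquivOfSurjective hφ).trdeg_eq
  obtain ⟨z, hz, hzs⟩ := hX.nonempty
  obtain ⟨hcr, htrR⟩ := trdeg_coxRing_le g z hz (hX.smooth z hz hzs)
  -- the count
  obtain ⟨t, ht⟩ : ∃ t : ℕ, Algebra.trdeg ℂ (A ⧸ q) = t := by
    have h1 : Algebra.trdeg ℂ (A ⧸ q) ≤ Algebra.trdeg ℂ A :=
      trdeg_le_of_surjective (Ideal.Quotient.mkₐ ℂ q) (Ideal.Quotient.mkₐ_surjective ℂ q)
    rw [hA] at h1
    exact Cardinal.lt_aleph0.mp (lt_of_le_of_lt h1 (Cardinal.natCast_lt_aleph0))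
  have hcount : r - c - 1 ≤ t := by
    rw [hA, ht] at htr
    have h1 : Fintype.card (Kn w L) ≤ t + J₀.card := by exact_mod_cast htr
    have h2 : Fintype.card (Kn w L) = (Finset.univ.filter fun k => L (w k) ≤ 0).card := by
      rw [Fintype.card_subtype]
    have h3 : S w μ (ind fun x => L x ≤ 0) = r - c - S w μ (ind fun x => 0 < L x) := by
      rw [← S_one w μ, ← S_sub]
      have : ∀ x : Fin 2 → ℤ, ind (fun x => L x ≤ 0) x = 1 - ind (fun x => 0 < L x) x := by
        intro x
        unfold ind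
        split_ifs <;> omega
      exact S_congr w μ (fun k => this _) (fun j => this _)
    rw [S_ind'] at h3
    have h4 : J₀.card = (Finset.univ.filter fun j => L (μ j) ≤ 0).card := rfl
    omega
  have hheight : P.height ≤ 1 := by
    refine height_le_one ℂ (CoxRing g) P (r - c - 1) ?_ ?_
    · refine htrR.trans ?_
      have : r - c ≤ (r - c - 1) + 1 := by omega
      exact_mod_cast this
    · rw [htrP, ht]
      exact_mod_cast hcount
  refine hX.small P hP hheight ?_
  rw [irrelevant, Ideal.span_le]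
  rintro f ⟨n, hn, p, hp', rfl⟩
  rw [SetLike.mem_coe, RingHom.mem_ker]
  show Ideal.Quotient.mk q (res w L p) = 0
  rw [res_eq_zero hp', map_zero]
  rw [map_nsmul, nsmul_eq_mul]
  have : (0 : ℤ) < n := by exact_mod_cast hn
  positivity

end Pool.Agent.CID
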