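import Pool.Agent.CIC.PicTwo

/-!
# The two extremal rays of a smooth Fano variety of Picard number two
-/

set_option autoImplicit false

open scoped ENNReal NNReal
open MvPolynomial

namespace Pool.Agent.CID

open Pool.Agent.CIC

variable {r c : ℕ}

/-- The properties of an extremal ray of `X` (Picard number two) which are used: `L : K → ℤ` is
the primitive integral linear form on `K` which is zero on the ray `v` of the nef cone orthogonal
to the extremal ray. A point of `V(g_1, …, g_c)` with nonvanishing coordinates on both sides of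
the line `L = 0` is semistable: if `z_i, z_k ≠ 0`, `L(w_i) ≤ 0 < L(w_k)`, then the cone of
`w_i, w_k` contains ample classes (near `v`), and all ample classes have the same semistable
points. The ray contracts curves: some point of `V(g_1, …, g_c)` has no nonvanishing coordinates
with `L < 0`, but some with `L = 0` and some with `L > 0`. -/
structure IsEdge (w : Fin r → (Fin 2 → ℤ)) (μ : Fin c → (Fin 2 → ℤ))
    (g : Fin c → MvPolynomial (Fin r) ℂ) (L : (Fin 2 → ℤ) →+ ℤ) : Prop where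
  surj : Function.Surjective L
  wall : ∀ z, IsZero g z → (∃ i, z i ≠ 0 ∧ L (w i) ≤ 0) → (∃ i, z i ≠ 0 ∧ 0 < L (w i)) →
    FAC.Semistable w (anticanonical w μ) z
  fibre : ∃ z, IsZero g z ∧ (∀ i, L (w i) < 0 → z i = 0) ∧ (∃ i, z i ≠ 0 ∧ L (w i) = 0) ∧
    ∃ i, z i ≠ 0 ∧ 0 < L (w i)

/-- The two extremal rays: `κ` is in the cone of the variables on the two lines. -/
structure Pair (w : Fin r → (Fin 2 → ℤ)) (μ : Fin c → (Fin 2 → ℤ))
    (g : Fin c → MvPolynomial (Fin r) ℂ) (L₁ L₂ : (Fin 2 → ℤ) →+ ℤ) : Prop where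
  e₁ : IsEdge w μ g L₁
  e₂ : IsEdge w μ g L₂
  cone : InCone w ({i | L₁ (w i) = 0} ∪ {i | L₂ (w i) = 0}) (anticanonical w μ)

variable {w : Fin r → (Fin 2 → ℤ)} {μ : Fin c → (Fin 2 → ℤ)}
  {g : Fin c → MvPolynomial (Fin r) ℂ} {L L₁ L₂ : (Fin 2 → ℤ) →+ ℤ}

theorem Pair.symm (h : Pair w μ g L₁ L₂) : Pair w μ g L₂ L₁ :=
  ⟨h.e₂, h.e₁, by rw [Set.union_comm]; exact h.cone⟩

/-- A point of the base of the fibres. -/
theorem IsEdge.isRay (hX : IsFanoCompleteIntersection w μ g) (h : IsEdge w μ g L) :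
    ∃ y, IsRay w μ g L y ∧ ∃ i, y i ≠ 0 := by
  classical
  obtain ⟨z, hz, hzN, ⟨i, hi, hLi⟩, ⟨k, hk, hLk⟩⟩ := h.fibre
  let y : Fin r → ℂ := fun i => if L (w i) = 0 then z i else 0
  have hysupp : ∀ i, y i ≠ 0 → L (w i) = 0 := by
    intro i hi
    by_contra hcon
    exact hi (if_neg hcon)
  have hyz : ∀ i, L (w i) = 0 → z i = y i := fun i hi => (if_pos hi).symm
  have hyi : y i ≠ 0 := by
    rw [← hyz i hLi]
    exact hi
  refine ⟨y, ⟨h.surj, ?_, hysupp, ⟨z, hz, hyz, hzN, k, hLk, hk⟩, ?_⟩, i, hyi⟩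
  · intro j
    by_cases hj : L (μ j) = 0
    · rw [← eval_zero (hX.homogeneous j) hj hzN hysupp hyz]
      exact hz j
    · apply eval_eq_zero
      intro n hn
      by_contra hcon
      push Not at hcon
      apply hj
      rw [← hX.homogeneous j (mem_support_iff.mp hn), L_weight]
      refine Finset.sum_eq_zero fun i _ => ?_
      by_cases hi : n i = 0
      · rw [hi]; simp
      · rw [hysupp i (hcon i hi), mul_zero]
  · rintro z' ⟨hz', hz'y, -, k', hk', hzk'⟩
    refine h.wall z' hz' ⟨i, ?_, hLi.le⟩ ⟨k', hzk', hk'⟩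
    rw [hz'y i hLi]
    exact hyi

theorem IsEdge.pos (hX : IsFanoCompleteIntersection w μ g) (h : IsEdge w μ g L) :
    0 < L (anticanonical w μ) := by
  obtain ⟨y, hy, -⟩ := h.isRay hX
  exact L_kappa_pos hX hy

/-- There is a variable on the first line, on the positive side of the second. -/
theorem Pair.exists_var (hX : IsFanoCompleteIntersection w μ g) (h : Pair w μ g L₁ L₂) :
    ∃ i, L₁ (w i) = 0 ∧ 0 < L₂ (w i) := by
  obtain ⟨m, hm, n, hn, hn'⟩ := h.cone
  have hm' : (0 : ℤ) < m := by exact_mod_cast hm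
  have hl₂ := h.e₂.pos hX
  by_contra hcon
  push Not at hcon
  have e1 := congrArg L₂ hn
  rw [L_weight, map_nsmul, nsmul_eq_mul] at e1
  have e2 : ∑ i, (n i : ℤ) * L₂ (w i) ≤ 0 := by
    refine Finset.sum_nonpos fun i _ => ?_
    by_cases hi : n i = 0
    · rw [hi]; simp
    · rcases hn' i hi with h4 | h4
      · exact mul_nonpos_of_nonneg_of_nonpos (by positivity) (hcon i h4)
      · rw [h4, mul_zero]
  rw [e1] at e2
  have := mul_pos hm' hl₂
  omega

/-- Injectivity of `(L₁, L₂)`. -/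
theorem Pair.eq_zero (hX : IsFanoCompleteIntersection w μ g) (h : Pair w μ g L₁ L₂)
    {x : Fin 2 → ℤ} (h1 : L₁ x = 0) (h2 : L₂ x = 0) : x = 0 := by
  obtain ⟨i₁, hi₁, hi₁'⟩ := h.exists_var hX
  obtain ⟨i₂, hi₂, hi₂'⟩ := h.symm.exists_var hX
  have e := plane L₁ L₂ (w i₁) (w i₂) hi₁ hi₂ hi₂' hi₁' x
  rw [h1, h2, mul_zero, mul_zero, zero_smul, zero_smul, add_zero] at e
  rcases smul_eq_zero.mp e with h3 | h3
  · have := mul_pos hi₁' hi₂'
    omega
  · exact h3

/-- A class on which some linear form which is positive on the variables is positive is on the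
positive side of one of the two lines. -/
theorem Pair.pos_or (hX : IsFanoCompleteIntersection w μ g) (h : Pair w μ g L₁ L₂)
    {H : (Fin 2 → ℤ) →+ ℤ} (hH : ∀ i, 0 < H (w i)) {x : Fin 2 → ℤ} (hx : 0 < H x) :
    0 < L₁ x ∨ 0 < L₂ x := by
  obtain ⟨i₁, hi₁, hi₁'⟩ := h.exists_var hX
  obtain ⟨i₂, hi₂, hi₂'⟩ := h.symm.exists_var hX
  by_contra hcon
  push Not at hcon
  obtain ⟨h1, h2⟩ := hcon
  have e := congrArg H (plane L₁ L₂ (w i₁) (w i₂) hi₁ hi₂ hi₂' hi₁' x)
  rw [map_add, map_zsmul, map_zsmul, map_zsmul] at e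
  simp only [smul_eq_mul] at e
  have h4 := hH i₁
  have h5 := hH i₂
  have h6 : 0 < L₂ (w i₁) * L₁ (w i₂) * H x := by positivity
  have h7 : L₁ (w i₂) * L₂ x * H (w i₁) ≤ 0 :=
    mul_nonpos_of_nonpos_of_nonneg (mul_nonpos_of_nonneg_of_nonpos hi₂'.le h2) h4.le
  have h8 : L₂ (w i₁) * L₁ x * H (w i₂) ≤ 0 :=
    mul_nonpos_of_nonpos_of_nonneg (mul_nonpos_of_nonneg_of_nonpos hi₁'.le h1) h5.le
  omega

theorem Pair.pos_var (hX : IsFanoCompleteIntersection w μ g) (h : Pair w μ g L₁ L₂) (i : Fin r) :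
    0 < L₁ (w i) ∨ 0 < L₂ (w i) := by
  obtain ⟨H, hH⟩ := hX.pointed
  exact h.pos_or hX hH (hH i)

theorem Pair.pos_eq (hX : IsFanoCompleteIntersection w μ g) (h : Pair w μ g L₁ L₂) (j : Fin c) :
    0 < L₁ (μ j) ∨ 0 < L₂ (μ j) := by
  obtain ⟨H, hH⟩ := hX.pointed
  exact h.pos_or hX hH (degree_pos hX hH j)

/-- The linear form which vanishes at `κ` and is positive on the side of the first line. -/
def Dl (κ : Fin 2 → ℤ) (L₁ L₂ : (Fin 2 → ℤ) →+ ℤ) : (Fin 2 → ℤ) →+ ℤ := L₁ κ • L₂ - L₂ κ • L₁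

theorem Dl_apply (κ : Fin 2 → ℤ) (L₁ L₂ : (Fin 2 → ℤ) →+ ℤ) (x : Fin 2 → ℤ) :
    Dl κ L₁ L₂ x = L₁ κ * L₂ x - L₂ κ * L₁ x := by
  simp [Dl]

theorem Dl_symm (κ : Fin 2 → ℤ) (L₁ L₂ : (Fin 2 → ℤ) →+ ℤ) (x : Fin 2 → ℤ) :
    Dl κ L₂ L₁ x = - Dl κ L₁ L₂ x := by
  rw [Dl_apply, Dl_apply]
  ring

section

variable {κ : Fin 2 → ℤ} {x : Fin 2 → ℤ}

theorem pos_two_of_Dl_pos (h1 : 0 < L₁ κ) (h2 : 0 < L₂ κ) (hx : 0 < L₁ x ∨ 0 < L₂ x)
    (h : 0 ≤ Dl κ L₁ L₂ x) : 0 < L₂ x := by
  rw [Dl_apply] at h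
  by_contra hcon
  rcases hx with hx | hx
  · have := mul_pos h2 hx
    have := mul_nonpos_of_nonneg_of_nonpos h1.le (not_lt.mp hcon)
    omega
  · exact hcon hx

theorem pos_one_of_Dl_nonpos (h1 : 0 < L₁ κ) (h2 : 0 < L₂ κ) (hx : 0 < L₁ x ∨ 0 < L₂ x)
    (h : Dl κ L₁ L₂ x ≤ 0) : 0 < L₁ x := by
  apply pos_two_of_Dl_pos (L₁ := L₂) (L₂ := L₁) h2 h1 hx.symm
  rw [Dl_symm]
  omega

theorem Dl_pos_of_nonpos (h1 : 0 < L₁ κ) (h2 : 0 < L₂ κ) (hx : 0 < L₁ x ∨ 0 < L₂ x)
    (h : L₁ x ≤ 0) : 0 < Dl κ L₁ L₂ x := by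
  by_contra hcon
  have := pos_one_of_Dl_nonpos h1 h2 hx (not_lt.mp hcon)
  omega

theorem Dl_neg_of_nonpos (h1 : 0 < L₁ κ) (h2 : 0 < L₂ κ) (hx : 0 < L₁ x ∨ 0 < L₂ x)
    (h : L₂ x ≤ 0) : Dl κ L₁ L₂ x < 0 := by
  by_contra hcon
  have := pos_two_of_Dl_pos h1 h2 hx (not_lt.mp hcon)
  omega

end

/-- A point supported on one side of `κ` is not semistable. -/
theorem not_semistable (hX : IsFanoCompleteIntersection w μ g) (h : Pair w μ g L₁ L₂)
    {z : Fin r → ℂ} (hz : ∀ i, z i ≠ 0 → 0 < Dl (anticanonical w μ) L₁ L₂ (w i)) :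
    ¬ FAC.Semistable w (anticanonical w μ) z := by
  rintro ⟨m, hm, n, hn, hn'⟩
  have hm' : (0 : ℤ) < m := by exact_mod_cast hm
  set D := Dl (anticanonical w μ) L₁ L₂ with hD
  have h1 : D (anticanonical w μ) = 0 := by
    rw [hD, Dl_apply]
    ring
  have h2 : D (Finsupp.weight w n) = 0 := by
    rw [hn, map_nsmul, h1, smul_zero]
  have h3 : ∃ i, n i ≠ 0 := by
    by_contra hcon
    push Not at hcon
    have h4 : n = 0 := Finsupp.ext hcon
    rw [h4, map_zero] at hn
    have h5 := congrArg L₁ hn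
    rw [map_zero, map_nsmul, nsmul_eq_mul] at h5
    have := mul_pos hm' (h.e₁.pos hX)
    omega
  obtain ⟨i, hi⟩ := h3
  rw [L_weight] at h2
  have h4 : 0 < ∑ i, (n i : ℤ) * D (w i) := by
    refine Finset.sum_pos' (fun k _ => ?_) ⟨i, Finset.mem_univ i, ?_⟩
    · by_cases hk : n k = 0
      · rw [hk]; simp
      · have := hz k (hn' k hk)
        positivity
    · have h5 := hz i (hn' i hi)
      have h6 : 0 < n i := Nat.pos_of_ne_zero hi
      positivity
  omega

theorem not_semistable' (hX : IsFanoCompleteIntersection w μ g) (h : Pair w μ g L₁ L₂)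
    {z : Fin r → ℂ} (hz : ∀ i, z i ≠ 0 → Dl (anticanonical w μ) L₁ L₂ (w i) < 0) :
    ¬ FAC.Semistable w (anticanonical w μ) z := by
  apply not_semistable hX h.symm
  intro i hi
  rw [Dl_symm]
  have := hz i hi
  omega

/-- A semistable zero is not supported on the variables with `h ∣ L`, `h ≥ 2`. -/
theorem not_dvd (hX : IsFanoCompleteIntersection w μ g) (hL : Function.Surjective L) {h : ℕ}
    (hh : 2 ≤ h) {z : Fin r → ℂ} (hz : IsZero g z)
    (hs : FAC.Semistable w (anticanonical w μ) z) : ¬ ∀ i, z i ≠ 0 → (h : ℤ) ∣ L (w i) := by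
  intro hz'
  have h3 := hX.free z hz hs
  obtain ⟨x, hx⟩ := hL 1
  have h4 : ∀ v ∈ Submodule.span ℤ (w '' {i | z i ≠ 0}), (h : ℤ) ∣ L v := by
    intro v hv
    induction hv using Submodule.span_induction with
    | mem x hx =>
      obtain ⟨i, hi, rfl⟩ := hx
      exact hz' i hi
    | zero => rw [map_zero]; exact dvd_zero _
    | add x y _ _ hx hy => rw [map_add]; exact dvd_add hx hy
    | smul a x _ hx => rw [map_zsmul, smul_eq_mul]; exact Dvd.dvd.mul_left hx a
  have h5 := h4 x (by rw [h3]; trivial)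
  rw [hx] at h5
  have := Int.le_of_dvd one_pos h5
  omega

/-- There is no zero supported on the line of `κ`. -/
theorem no_zero_on_line (hX : IsFanoCompleteIntersection w μ g) (h : Pair w μ g L₁ L₂)
    {z : Fin r → ℂ} (hz : IsZero g z)
    (hz' : ∀ i, z i ≠ 0 → Dl (anticanonical w μ) L₁ L₂ (w i) = 0) (k : Fin r) : z k = 0 := by
  by_contra hk
  set κ := anticanonical w μ with hκ
  set D := Dl κ L₁ L₂ with hD
  have hl₁ := h.e₁.pos hX
  have hl₂ := h.e₂.pos hX
  have hDk := hz' k hk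
  have hpos := h.pos_var hX k
  have hk₁ : 0 < L₁ (w k) := pos_one_of_Dl_nonpos hl₁ hl₂ hpos hDk.le
  -- `z` is semistable
  have hs : FAC.Semistable w κ z := by
    refine ⟨(L₁ (w k)).toNat, by omega, Finsupp.single k (L₁ κ).toNat, ?_, ?_⟩
    · have e : (L₁ κ) • w k - (L₁ (w k)) • κ = 0 := by
        apply h.eq_zero hX
        · rw [map_sub, map_zsmul, map_zsmul]
          simp only [smul_eq_mul]
          ring
        · rw [map_sub, map_zsmul, map_zsmul]
          simp only [smul_eq_mul]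
          rw [hD, Dl_apply] at hDk
          linarith [mul_comm (L₁ (w k)) (L₂ κ)]
      rw [Finsupp.weight_single, ← natCast_zsmul, ← natCast_zsmul, Int.toNat_of_nonneg hl₁.le,
        Int.toNat_of_nonneg hk₁.le]
      exact sub_eq_zero.mp e
    · intro i hi
      by_cases hik : k = i
      · rw [← hik]
        exact hk
      · rw [Finsupp.single_apply, if_neg hik] at hi
        exact absurd rfl hi
  have h3 := hX.free z hz hs
  have h4 : ∀ v ∈ Submodule.span ℤ (w '' {i | z i ≠ 0}), D v = 0 := by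
    intro v hv
    induction hv using Submodule.span_induction with
    | mem x hx =>
      obtain ⟨i, hi, rfl⟩ := hx
      exact hz' i hi
    | zero => rw [map_zero]
    | add x y _ _ hx hy => rw [map_add, hx, hy, add_zero]
    | smul a x _ hx => rw [map_zsmul, hx, smul_zero]
  obtain ⟨i₁, hi₁, hi₁'⟩ := h.exists_var hX
  have h5 := h4 (w i₁) (by rw [h3]; trivial)
  rw [hD, Dl_apply, hi₁, mul_zero, sub_zero] at h5
  exact absurd h5 (mul_pos hl₁ hi₁').ne'

/-- A monomial of degree `m κ` with an exponent at least `m` shows that `α(X) ≤ 1`. -/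
theorem alpha_le_one (hX : IsFanoCompleteIntersection w μ g) [hp : (relations g).IsPrime]
    {m : ℕ} (hm : 0 < m) {n : Fin r →₀ ℕ} (hn : Finsupp.weight w n = m • anticanonical w μ)
    (k : Fin r) (hk : m ≤ n k) : alpha w (anticanonical w μ) g ≤ 1 := by
  classical
  have hnk : 0 < n k := by omega
  have hprod : (monomial n (1 : ℂ)) = ∏ i, X i ^ n i := by
    rw [monomial_eq, C_1, one_mul, Finsupp.prod_fintype _ _ (fun i => pow_zero _)]
  have hne : Ideal.Quotient.mk (relations g) (monomial n 1) ≠ 0 := by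
    rw [Ne, Ideal.Quotient.eq_zero_iff_mem, hprod]
    intro h
    obtain ⟨i, -, hi⟩ := (hp.prod_mem_iff).mp h
    exact hX.var_ne i (hp.mem_of_pow_mem _ hi)
  have hnor := hX.normal
  set x : CoxRing g := Ideal.Quotient.mk (relations g) (X k) with hx
  have htop : Ideal.span {x} ≠ ⊤ := by
    intro h
    exact not_isUnit_var hX k (Ideal.span_singleton_eq_top.mp h)
  obtain ⟨P, hP⟩ := Ideal.nonempty_minimalPrimes htop
  have hPp : P.IsPrime := hP.1.1
  have hxP : x ∈ P := hP.1.2 (Ideal.mem_span_singleton_self x)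
  have hht : P.height ≤ 1 :=
    Ideal.height_le_one_of_isPrincipal_of_mem_minimalPrimes (Ideal.span {x}) P hP
  have hdvd : x ^ n k ∣ Ideal.Quotient.mk (relations g) (monomial n 1) := by
    rw [hprod, hx, ← map_pow]
    exact map_dvd _ (Finset.dvd_prod_of_mem (fun i => X i ^ n i) (Finset.mem_univ k))
  have hsec : Ideal.Quotient.mk (relations g) (monomial n 1) ∈
      sections w (anticanonical w μ) g m :=
    ⟨monomial n 1, isWeightedHomogeneous_monomial w n 1 hn, rfl⟩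
  unfold alpha
  refine iInf_le_of_le m (iInf_le_of_le hm (iInf_le_of_le _ (iInf_le_of_le hsec
    (iInf_le_of_le hne ?_))))
  unfold FAC.lct
  refine iSup₂_le ?_
  intro t ht
  have key := lct_mul_le _ hne m (n k) P hxP hdvd hnk hht (hX.small P hPp hht) t ht
  have h1 : (t : ℝ) ≤ 1 := by
    have h2 : (m : ℝ) ≤ n k := by exact_mod_cast hk
    have h3 : (0 : ℝ) < m := by exact_mod_cast hm
    have h4 : (0 : ℝ) ≤ t := t.2
    have h5 : (t : ℝ) * m ≤ 1 * m := by
      calc (t : ℝ) * m ≤ t * n k := by gcongr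
        _ ≤ m := key
        _ = 1 * m := (one_mul _).symm
    exact le_of_mul_le_mul_right h5 h3
  exact_mod_cast h1

/-- All exponents of the monomials of degree `m κ` are less than `m`. -/
def Fail (w : Fin r → (Fin 2 → ℤ)) (κ : Fin 2 → ℤ) : Prop :=
  ∀ m : ℕ, 0 < m → ∀ n : Fin r →₀ ℕ, Finsupp.weight w n = m • κ → ∀ k, n k < m

theorem fail_of_not_le (hX : IsFanoCompleteIntersection w μ g) [hp : (relations g).IsPrime]
    (hα : ¬ alpha w (anticanonical w μ) g ≤ 1) : Fail w (anticanonical w μ) := by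
  intro m hm n hn k
  by_contra hcon
  exact hα (alpha_le_one hX hm hn k (not_lt.mp hcon))

/-- If `α(X) > 1`, then the variables beyond `κ` have degree larger than `L₁(κ)`. -/
theorem lt_of_not_le (hX : IsFanoCompleteIntersection w μ g)
    (h : Pair w μ g L₁ L₂) (hα : Fail w (anticanonical w μ)) (k : Fin r)
    (hk : Dl (anticanonical w μ) L₁ L₂ (w k) ≤ 0) : L₁ (anticanonical w μ) < L₁ (w k) := by
  classical
  set κ := anticanonical w μ with hκ
  have hl₁ := h.e₁.pos hX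
  have hl₂ := h.e₂.pos hX
  obtain ⟨i, hi, hi'⟩ := h.exists_var hX
  have hk₁ : 0 < L₁ (w k) := pos_one_of_Dl_nonpos hl₁ hl₂ (h.pos_var hX k) hk
  by_contra hcon
  rw [not_lt] at hcon
  have hik : i ≠ k := by
    rintro rfl
    omega
  rw [Dl_apply] at hk
  have hs : 0 ≤ L₂ κ * L₁ (w k) - L₁ κ * L₂ (w k) := by omega
  refine absurd (hα (L₁ (w k) * L₂ (w i)).toNat
    (by have := mul_pos hk₁ hi'; omega)
    (Finsupp.single i (L₂ κ * L₁ (w k) - L₁ κ * L₂ (w k)).toNat +
      Finsupp.single k (L₁ κ * L₂ (w i)).toNat) ?_ k) (not_lt.mpr ?_)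
  · rw [map_add, Finsupp.weight_single, Finsupp.weight_single, ← natCast_zsmul,
      ← natCast_zsmul, ← natCast_zsmul, Int.toNat_of_nonneg hs,
      Int.toNat_of_nonneg (mul_pos hk₁ hi').le, Int.toNat_of_nonneg (mul_pos hl₁ hi').le]
    have e : (L₂ κ * L₁ (w k) - L₁ κ * L₂ (w k)) • w i + (L₁ κ * L₂ (w i)) • w k -
        (L₁ (w k) * L₂ (w i)) • κ = 0 := by
      apply h.eq_zero hX
      · rw [map_sub, map_add, map_zsmul, map_zsmul, map_zsmul]
        simp only [smul_eq_mul]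
        rw [hi]
        ring
      · rw [map_sub, map_add, map_zsmul, map_zsmul, map_zsmul]
        simp only [smul_eq_mul]
        ring
    exact sub_eq_zero.mp e
  · rw [Finsupp.add_apply, Finsupp.single_apply, Finsupp.single_apply, if_neg hik, if_pos rfl,
      zero_add]
    apply Int.toNat_le_toNat
    exact mul_le_mul_of_nonneg_right hcon hi'.le

end Pool.Agent.CID
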