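import Pool.Agent.CID.Final2

/-!
# The exceptional case: counting
-/

set_option autoImplicit false

open scoped ENNReal
open MvPolynomial

namespace Pool.Agent.CID

open Pool.Agent.CIC

variable {r c : ℕ} {w : Fin r → (Fin 2 → ℤ)} {μ : Fin c → (Fin 2 → ℤ)}
  {g : Fin c → MvPolynomial (Fin r) ℂ} {L L₁ L₂ : (Fin 2 → ℤ) →+ ℤ}

/-- The exceptional case. -/
structure Exc (w : Fin r → (Fin 2 → ℤ)) (μ : Fin c → (Fin 2 → ℤ))
    (g : Fin c → MvPolynomial (Fin r) ℂ) (L₁ L₂ : (Fin 2 → ℤ) →+ ℤ) : Prop where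
  hX : IsFanoCompleteIntersection w μ g
  pair : Pair w μ g L₁ L₂
  min : ∀ j k, coeff (Finsupp.single k 1) (g j) = 0
  one₁ : L₁ (anticanonical w μ) = 1
  one₂ : L₂ (anticanonical w μ) = 1
  zer₁ : zer w μ L₁ = 1
  zer₂ : zer w μ L₂ = 1
  dim₁ : (r : ℤ) - c = 2 * (neg w μ L₁ + 1)
  dim₂ : (r : ℤ) - c = 2 * (neg w μ L₂ + 1)
  big₁ : ∀ k, Dl (anticanonical w μ) L₁ L₂ (w k) ≤ 0 → 1 < L₁ (w k)
  big₂ : ∀ k, 0 ≤ Dl (anticanonical w μ) L₁ L₂ (w k) → 1 < L₂ (w k)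
  nosec : ∀ i k, w i + w k ≠ anticanonical w μ

theorem Exc.symm (e : Exc w μ g L₁ L₂) : Exc w μ g L₂ L₁ where
  hX := e.hX
  pair := e.pair.symm
  min := e.min
  one₁ := e.one₂
  one₂ := e.one₁
  zer₁ := e.zer₂
  zer₂ := e.zer₁
  dim₁ := e.dim₂
  dim₂ := e.dim₁
  big₁ := fun k hk => e.big₂ k (by rw [Dl_symm] at hk; omega)
  big₂ := fun k hk => e.big₁ k (by rw [Dl_symm] at hk; omega)
  nosec := e.nosec

theorem exc_of_not_le (hX : IsFanoCompleteIntersection w μ g)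
    (h : Pair w μ g L₁ L₂) (hα : Fail w (anticanonical w μ))
    (hmin : ∀ j k, coeff (Finsupp.single k 1) (g j) = 0) : Exc w μ g L₁ L₂ := by
  obtain ⟨h1, h2, h3, h4, h5, h6⟩ := exceptional hX h hα hmin
  refine ⟨hX, h, hmin, h1, h2, h3, h4, h5, h6, ?_, ?_, ?_⟩
  · intro k hk
    have := lt_of_not_le hX h hα k hk
    omega
  · intro k hk
    have := lt_of_not_le hX h.symm hα k (by rw [Dl_symm]; omega)
    omega
  · intro i k hik
    refine absurd (hα 1 one_pos (Finsupp.single i 1 + Finsupp.single k 1) ?_ k) (not_lt.mpr ?_)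
    · rw [map_add, Finsupp.weight_single, Finsupp.weight_single, one_smul, one_smul, one_smul]
      exact hik
    · rw [Finsupp.add_apply, Finsupp.single_eq_same]
      omega

/-- The regions in the interior of the nef cone are balanced. -/
theorem Exc.middle (e : Exc w μ g L₁ L₂) :
    S w μ (ind fun x => 0 < Dl (anticanonical w μ) L₁ L₂ x ∧ 0 < L₁ x) = 0 ∧
      S w μ (ind fun x => Dl (anticanonical w μ) L₁ L₂ x = 0) = 0 ∧
      S w μ (ind fun x => Dl (anticanonical w μ) L₁ L₂ x < 0 ∧ 0 < L₂ x) = 0 := by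
  have a3 := CID.middle e.hX e.pair
  have a4 := S_side' e.hX e.pair
  have a5 := S_side'' e.hX e.pair
  have a6 := S_line e.hX e.pair
  have h1 := e.zer₁
  have h2 := e.zer₂
  have h3 := e.dim₁
  have h4 := e.dim₂
  omega

theorem Exc.neg_nonneg (e : Exc w μ g L₁ L₂) : 0 ≤ neg w μ L₁ := neg_nonneg' e.hX e.pair.e₁

theorem S_pos_eq (L : (Fin 2 → ℤ) →+ ℤ) :
    S w μ (ind fun x => 0 < L x) = r - c - zer w μ L - neg w μ L := by
  rw [← S_one w μ, zer, neg, ← S_sub, ← S_sub]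
  have : ∀ x : Fin 2 → ℤ, ind (fun x => 0 < L x) x = 1 - ind (fun x => L x = 0) x -
      ind (fun x => L x < 0) x := by
    intro x
    unfold ind
    split_ifs <;> omega
  exact S_congr w μ (fun k => this _) (fun j => this _)

theorem Exc.pos_eq (e : Exc w μ g L₁ L₂) : S w μ (ind fun x => 0 < L₁ x) = neg w μ L₁ + 1 := by
  rw [S_pos_eq, e.zer₁, e.dim₁]
  ring

theorem S_L_split (L : (Fin 2 → ℤ) →+ ℤ) :
    L (anticanonical w μ) = S w μ (fun x => ind (fun x => 0 < L x) x * L x) -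
      S w μ (fun x => ind (fun x => L x < 0) x * (-L x - 1)) - neg w μ L := by
  rw [← S_L, neg, ← S_sub, ← S_sub]
  have : ∀ x : Fin 2 → ℤ, L x = ind (fun x => 0 < L x) x * L x -
      ind (fun x => L x < 0) x * (-L x - 1) - ind (fun x => L x < 0) x := by
    intro x
    unfold ind
    split_ifs <;> omega
  exact S_congr w μ (fun k => this _) (fun j => this _)

/-- All inequalities are equalities. -/
theorem Exc.balance (e : Exc w μ g L₁ L₂) (H : ℕ) (hw : ∀ k, L₁ (w k) ≤ H)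
    (hμ : ∀ j, L₁ (μ j) ≤ H) :
    (∀ d ∈ Finset.Icc 2 H, S w μ (ind fun x => 0 < L₁ x ∧ (d : ℤ) ∣ L₁ x) = 0) ∧
      S w μ (fun x => ind (fun x => L₁ x < 0) x * (-L₁ x - 1)) = 0 := by
  have h1 := S_phi (w := w) (μ := μ) (L := L₁) (P := fun x => 0 < L₁ x) H
    (fun k hk => ⟨hk, hw k⟩) (fun j hj => ⟨hj, hμ j⟩)
  have h2 := S_neg e.hX e.pair.e₁ (fun t => -t - 1) (fun t ht => by omega)
    (fun s t h1 _ => by omega)
  have h3 := S_L_split (w := w) (μ := μ) L₁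
  have h4 := e.pos_eq
  have h5 := e.one₁
  have hterm : ∀ d ∈ Finset.Icc 2 H, (Nat.totient d : ℤ) *
      S w μ (ind fun x => 0 < L₁ x ∧ (d : ℤ) ∣ L₁ x) ≤ 0 := fun d hd =>
    mul_nonpos_of_nonneg_of_nonpos (by positivity)
      (S_dvd e.hX e.pair.e₁ d (Finset.mem_Icc.mp hd).1)
  have h6 := Finset.sum_nonpos hterm
  have h7 : ∑ d ∈ Finset.Icc 2 H, (Nat.totient d : ℤ) *
      S w μ (ind fun x => 0 < L₁ x ∧ (d : ℤ) ∣ L₁ x) = 0 := by omega
  refine ⟨fun d hd => ?_, by omega⟩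
  have h8 := (Finset.sum_eq_zero_iff_of_nonpos hterm).mp h7 d hd
  rcases mul_eq_zero.mp h8 with h9 | h9
  · have h10 : 0 < Nat.totient d := Nat.totient_pos.mpr (by have := Finset.mem_Icc.mp hd; omega)
    have : Nat.totient d = 0 := by exact_mod_cast h9
    omega
  · exact h9

/-- `S[L₁ ≤ v] = 0` for `v ≤ -2`. -/
theorem Exc.le_eq_zero (e : Exc w μ g L₁ L₂) {v : ℤ} (hv : v ≤ -2) :
    S w μ (ind fun x => L₁ x ≤ v) = 0 := by
  obtain ⟨H, hw, hμ⟩ := exists_bound w μ L₁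
  obtain ⟨-, h1⟩ := e.balance H hw hμ
  have h2 := S_neg e.hX e.pair.e₁ (fun t => if t ≤ v then 1 else 0)
    (fun t ht => by split_ifs <;> omega) (fun s t h1 _ => by split_ifs <;> omega)
  have h3 := S_neg e.hX e.pair.e₁ (fun t => -t - 1 - if t ≤ v then 1 else 0)
    (fun t ht => by split_ifs <;> omega) (fun s t h1 _ => by split_ifs <;> omega)
  have h4 : S w μ (ind fun x => L₁ x ≤ v) =
      S w μ (fun x => ind (fun x => L₁ x < 0) x * (if L₁ x ≤ v then 1 else 0)) := by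
    have : ∀ x : Fin 2 → ℤ, ind (fun x => L₁ x ≤ v) x =
        ind (fun x => L₁ x < 0) x * (if L₁ x ≤ v then 1 else 0) := by
      intro x
      unfold ind
      split_ifs <;> omega
    exact S_congr w μ (fun k => this _) (fun j => this _)
  have h5 : S w μ (fun x => ind (fun x => L₁ x < 0) x * (-L₁ x - 1)) =
      S w μ (fun x => ind (fun x => L₁ x < 0) x * (if L₁ x ≤ v then 1 else 0)) +
      S w μ (fun x => ind (fun x => L₁ x < 0) x * (-L₁ x - 1 - if L₁ x ≤ v then 1 else 0)) := by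
    rw [← S_add]
    have : ∀ x : Fin 2 → ℤ, ind (fun x => L₁ x < 0) x * (-L₁ x - 1) =
        ind (fun x => L₁ x < 0) x * (if L₁ x ≤ v then 1 else 0) +
        ind (fun x => L₁ x < 0) x * (-L₁ x - 1 - if L₁ x ≤ v then 1 else 0) := by
      intro x
      ring
    exact S_congr w μ (fun k => this _) (fun j => this _)
  omega

/-- `S[L₁ = 1] = a + 1`. -/
theorem Exc.one_eq (e : Exc w μ g L₁ L₂) : S w μ (ind fun x => L₁ x = 1) = neg w μ L₁ + 1 := by
  obtain ⟨H, hw, hμ⟩ := exists_bound w μ L₁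
  obtain ⟨h0, -⟩ := e.balance H hw hμ
  have h1 := S_phi (w := w) (μ := μ) (L := L₁) (P := fun x => 0 < L₁ x) H
    (fun k hk => ⟨hk, hw k⟩) (fun j hj => ⟨hj, hμ j⟩)
  have h2 := S_theta (w := w) (μ := μ) (L := L₁) (P := fun x => 0 < L₁ x) H
    (fun k hk => ⟨hk, hw k⟩) (fun j hj => ⟨hj, hμ j⟩)
  rw [Finset.sum_eq_zero fun d hd => by rw [h0 d hd, mul_zero], add_zero] at h1 h2
  have h3 : S w μ (ind fun x => 0 < L₁ x ∧ L₁ x = 1) = S w μ (ind fun x => L₁ x = 1) := by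
    have : ∀ x : Fin 2 → ℤ, ind (fun x => 0 < L₁ x ∧ L₁ x = 1) x =
        ind (fun x => L₁ x = 1) x := by
      intro x
      unfold ind
      split_ifs <;> omega
    exact S_congr w μ (fun k => this _) (fun j => this _)
  rw [← h3, ← h2, h1, e.pos_eq]

/-- The corner point. -/
theorem Exc.corner (e : Exc w μ g L₁ L₂) : ∃ z, IsZero g z ∧
    FAC.Semistable w (anticanonical w μ) z ∧ ∀ i, z i ≠ 0 → 0 ≤ L₁ (w i) ∧ 0 ≤ L₂ (w i) := by
  have hl₁ := e.pair.e₁.pos e.hX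
  have hl₂ := e.pair.e₂.pos e.hX
  obtain ⟨m1, m2, m3⟩ := e.middle
  have h0 := e.zer₁
  have h1 : 0 < S w μ (ind fun x => 0 < L₂ x ∧ 0 ≤ L₁ x) := by
    have h2 : S w μ (ind fun x => 0 < L₂ x ∧ 0 ≤ L₁ x) =
        S w μ (ind fun x => 0 < Dl (anticanonical w μ) L₁ L₂ x ∧ 0 < L₁ x) +
        S w μ (ind fun x => Dl (anticanonical w μ) L₁ L₂ x = 0) +
        S w μ (ind fun x => Dl (anticanonical w μ) L₁ L₂ x < 0 ∧ 0 < L₂ x) +
        zer w μ L₁ := by
      rw [zer, ← S_add, ← S_add, ← S_add]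
      have : ∀ x : Fin 2 → ℤ, (0 < L₁ x ∨ 0 < L₂ x) →
          ind (fun x => 0 < L₂ x ∧ 0 ≤ L₁ x) x =
          ind (fun x => 0 < Dl (anticanonical w μ) L₁ L₂ x ∧ 0 < L₁ x) x +
          ind (fun x => Dl (anticanonical w μ) L₁ L₂ x = 0) x +
          ind (fun x => Dl (anticanonical w μ) L₁ L₂ x < 0 ∧ 0 < L₂ x) x +
          ind (fun x => L₁ x = 0) x := by
        intro x hx
        have e1 := Dl_pos_of_nonpos hl₁ hl₂ hx
        have e2 := Dl_neg_of_nonpos hl₁ hl₂ hx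
        unfold ind
        split_ifs <;> omega
      exact S_congr w μ (fun k => this _ (e.pair.pos_var e.hX k))
        (fun j => this _ (e.pair.pos_eq e.hX j))
    omega
  obtain ⟨y, hy, -⟩ := e.pair.e₂.isRay e.hX
  have hy1 : ∀ i, y i ≠ 0 → 0 < L₁ (w i) := by
    intro i hi
    have h3 := e.pair.pos_var e.hX i
    have h4 := hy.supp i hi
    omega
  obtain ⟨z, hz, hzy, k, hk, hzk⟩ := exists_zero_of_S_pos e.hX hy.zero
    (fun x => 0 < L₂ x ∧ 0 ≤ L₁ x) (fun k hk => y_pos hy k hk.1) (by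
      rintro j n hn hn' ⟨k, hk, hk'⟩
      rw [← hn]
      refine ⟨weight_pos (fun i hi => ?_) ⟨k, hk, hk'.1⟩, weight_nonneg fun i hi => ?_⟩
      · rcases hn' i hi with h4 | h4
        · exact (hy.supp i h4).ge
        · exact h4.1.le
      · rcases hn' i hi with h4 | h4
        · exact (hy1 i h4).le
        · exact h4.2) h1
  refine ⟨z, hz, hy.semistable z ⟨hz, fun i hi => hzy i fun h4 => by omega, fun i hi => ?_,
    k, hk.1, hzk⟩, fun i hi => ?_⟩
  · rw [hzy i fun h4 => by omega]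
    exact y_neg hy i hi
  · by_cases h4 : 0 < L₂ (w i) ∧ 0 ≤ L₁ (w i)
    · exact ⟨h4.2, h4.1.le⟩
    · rw [hzy i h4] at hi
      exact ⟨(hy1 i hi).le, (hy.supp i hi).ge⟩

/-- Equations with `L₂ ≤ 0` have `L₁ ≥ 2`. -/
theorem Exc.two_le (e : Exc w μ g L₁ L₂) {j : Fin c} (hj : L₂ (μ j) ≤ 0) : 2 ≤ L₁ (μ j) := by
  obtain ⟨z, hz, hzs, hz'⟩ := e.corner
  have hl₁ := e.pair.e₁.pos e.hX
  have hl₂ := e.pair.e₂.pos e.hX
  have h1 := (e.hX.smooth z hz hzs).ne_zero j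
  obtain ⟨k, hk⟩ : ∃ k, eval z (pderiv k (g j)) ≠ 0 := by
    by_contra hcon
    push Not at hcon
    exact h1 (funext hcon)
  obtain ⟨n, hn, hn'⟩ := exists_of_eval_ne_zero hk
  have hwt := weight_of_mem_support_pderiv (e.hX.homogeneous j) k hn
  have h2 := weight_nonneg (L := L₁) (w := w) (n := n) fun i hi => (hz' i (hn' i hi)).1
  have h3 := weight_nonneg (L := L₂) (w := w) (n := n) fun i hi => (hz' i (hn' i hi)).2
  rw [hwt, map_sub] at h2 h3
  have h4 := e.big₁ k (Dl_neg_of_nonpos hl₁ hl₂ (e.pair.pos_var e.hX k) (by omega)).le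
  omega

end Pool.Agent.CID
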