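import Pool.Agent.CID.Exc
import Pool.Agent.CIC.Count

/-!
# The exceptional case: linear parts
-/

set_option autoImplicit false

open scoped ENNReal
open MvPolynomial

namespace Pool.Agent.CID

open Pool.Agent.CIC

variable {r c : ℕ} {w : Fin r → (Fin 2 → ℤ)} {μ : Fin c → (Fin 2 → ℤ)}
  {g : Fin c → MvPolynomial (Fin r) ℂ} {L L₁ L₂ : (Fin 2 → ℤ) →+ ℤ} {y : Fin r → ℂ}

/-- If the linear parts of the equations of degree at least two have the maximal rank, then these
equations can be matched with variables. -/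
theorem linear_matching (hX : IsFanoCompleteIntersection w μ g) (hW : IsRay w μ g L y)
    (hcount : (Finset.univ.filter fun j => 2 ≤ L (μ j)).card ≤ linearRank w g L y) :
    ∃ f : {j : Fin c // 2 ≤ L (μ j)} → Fin r, Function.Injective f ∧
      ∀ j, 2 ≤ L (w (f j)) ∧ eval y (pderiv (f j) (g j)) ≠ 0 := by
  classical
  let v : Fin c → {k // 2 ≤ L (w k)} → ℂ := fun j k => eval y (pderiv k.1 (g j))
  let b : {j : Fin c // 2 ≤ L (μ j)} → {k // 2 ≤ L (w k)} → ℂ := fun j => v j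
  have hv0 : ∀ j, ¬ 2 ≤ L (μ j) → v j = 0 := by
    intro j hj
    funext k
    by_contra hcon
    have h1 := degree_eq hX hW hcon
    have := k.2
    omega
  have hspan : Submodule.span ℂ (Set.range v) = Submodule.span ℂ (Set.range b) := by
    apply le_antisymm
    · rw [Submodule.span_le]
      rintro _ ⟨j, rfl⟩
      by_cases hj : 2 ≤ L (μ j)
      · exact Submodule.subset_span ⟨⟨j, hj⟩, rfl⟩
      · rw [hv0 j hj]
        exact Submodule.zero_mem _
    · apply Submodule.span_mono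
      rintro _ ⟨j, rfl⟩
      exact ⟨j, rfl⟩
  have hrank : linearRank w g L y = Module.finrank ℂ (Submodule.span ℂ (Set.range b)) := by
    rw [linearRank, Matrix.rank_eq_finrank_span_row, ← hspan]
    rfl
  have hcard : Fintype.card {j : Fin c // 2 ≤ L (μ j)} =
      (Finset.univ.filter fun j => 2 ≤ L (μ j)).card := by
    rw [Fintype.card_subtype]
  have hle : (Set.range b).finrank ℂ ≤ Fintype.card {j : Fin c // 2 ≤ L (μ j)} :=
    finrank_range_le_card b
  have hli : LinearIndependent ℂ b := by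
    rw [linearIndependent_iff_card_eq_finrank_span]
    have h1 : (Set.range b).finrank ℂ = Module.finrank ℂ (Submodule.span ℂ (Set.range b)) := rfl
    rw [h1] at hle ⊢
    omega
  obtain ⟨f, hf, hf'⟩ := exists_matching b hli
  exact ⟨fun j => (f j).1, fun i j hij => hf (Subtype.ext hij), fun j => ⟨(f j).2, hf' j⟩⟩

/-- In the exceptional case, the linear parts have the maximal rank. -/
theorem Exc.le_linearRank (e : Exc w μ g L₁ L₂) (hW : IsRay w μ g L₁ y) :
    (Finset.univ.filter fun j => 2 ≤ L₁ (μ j)).card ≤ linearRank w g L₁ y := by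
  classical
  obtain ⟨-, h1⟩ := count e.hX hW
  obtain ⟨H, hw, hμ⟩ := exists_bound w μ L₁
  obtain ⟨h0, -⟩ := e.balance H hw hμ
  have h2 := S_phi (w := w) (μ := μ) (L := L₁) (P := fun x => 0 < L₁ x) H
    (fun k hk => ⟨hk, hw k⟩) (fun j hj => ⟨hj, hμ j⟩)
  rw [Finset.sum_eq_zero fun d hd => by rw [h0 d hd, mul_zero], add_zero, e.pos_eq] at h2
  have h3 : fibreDegree w μ L₁ = S w μ (fun x => ind (fun x => 0 < L₁ x) x * L₁ x) := by
    unfold fibreDegree S
    rw [Finset.sum_filter, Finset.sum_filter]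
    congr 1
    · refine Finset.sum_congr rfl fun k _ => ?_
      show _ = ind (fun x => 0 < L₁ x) (w k) * L₁ (w k)
      by_cases hk : 0 < L₁ (w k)
      · rw [if_pos hk, ind_of hk, one_mul]
      · rw [if_neg hk, ind_of_not hk, zero_mul]
    · refine Finset.sum_congr rfl fun k _ => ?_
      show _ = ind (fun x => 0 < L₁ x) (μ k) * L₁ (μ k)
      by_cases hk : 0 < L₁ (μ k)
      · rw [if_pos hk, ind_of hk, one_mul]
      · rw [if_neg hk, ind_of_not hk, zero_mul]
  have h4 := e.one_eq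
  rw [S_ind'] at h4
  have h5 : (positive μ L₁).card = (Finset.univ.filter fun j => 2 ≤ L₁ (μ j)).card +
      (Finset.univ.filter fun j => L₁ (μ j) = 1).card := by
    rw [positive, ← Finset.card_union_of_disjoint]
    · congr 1
      ext j
      simp only [Finset.mem_union, Finset.mem_filter, Finset.mem_univ, true_and]
      omega
    · rw [Finset.disjoint_filter]
      intro j _ h6 h7
      omega
  unfold degreeOne at h1
  omega

theorem Exc.exists_matching (e : Exc w μ g L₁ L₂) (hW : IsRay w μ g L₁ y) :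
    ∃ f : {j : Fin c // 2 ≤ L₁ (μ j)} → Fin r, Function.Injective f ∧
      ∀ j, 2 ≤ L₁ (w (f j)) ∧ eval y (pderiv (f j) (g j)) ≠ 0 :=
  linear_matching e.hX hW (e.le_linearRank hW)

/-- A nonzero derivative at `y` gives the difference of the degrees. -/
theorem Exc.exists_of_eval (e : Exc w μ g L₁ L₂) (hW : IsRay w μ g L₁ y) {j : Fin c} {k : Fin r}
    (h : eval y (pderiv k (g j)) ≠ 0) : ∃ n : Fin r →₀ ℕ, n ≠ 0 ∧ (∀ i, n i ≠ 0 → y i ≠ 0) ∧
      Finsupp.weight w n = μ j - w k := by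
  obtain ⟨n, hn, hn'⟩ := exists_of_eval_ne_zero h
  refine ⟨n, ?_, hn', weight_of_mem_support_pderiv (e.hX.homogeneous j) k hn⟩
  rintro rfl
  rw [mem_support_iff, coeff_pderiv, zero_add, e.min, zero_mul] at hn
  exact hn rfl

theorem Exc.two_le_L₂ (e : Exc w μ g L₁ L₂) {i : Fin r} (hi : L₁ (w i) = 0) :
    2 ≤ L₂ (w i) := by
  have := e.big₂ i (Dl_pos_of_nonpos (e.pair.e₁.pos e.hX) (e.pair.e₂.pos e.hX)
    (e.pair.pos_var e.hX i) hi.le).le
  omega

/-- An equation with `L₁ ≥ 2` has a variable below it. -/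
theorem Exc.exists_below (e : Exc w μ g L₁ L₂) {j : Fin c} (hj : 2 ≤ L₁ (μ j)) :
    ∃ k, L₂ (w k) + 2 ≤ L₂ (μ j) := by
  obtain ⟨y, hy, -⟩ := e.pair.e₁.isRay e.hX
  obtain ⟨f, -, hf⟩ := e.exists_matching hy
  obtain ⟨-, h1⟩ := hf ⟨j, hj⟩
  obtain ⟨n, hn0, hn, hwt⟩ := e.exists_of_eval hy h1
  refine ⟨f ⟨j, hj⟩, ?_⟩
  obtain ⟨i, hi⟩ : ∃ i, n i ≠ 0 := by
    by_contra hcon
    push Not at hcon
    exact hn0 (Finsupp.ext hcon)
  have h2 : 2 ≤ L₂ (Finsupp.weight w n) := by
    rw [L_weight]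
    have h3 : ∀ k ∈ Finset.univ, (0 : ℤ) ≤ (n k : ℤ) * L₂ (w k) := by
      intro k _
      by_cases hk : n k = 0
      · rw [hk]; simp
      · have := e.two_le_L₂ (hy.supp k (hn k hk))
        positivity
    have h4 := Finset.single_le_sum h3 (Finset.mem_univ i)
    have h5 := e.two_le_L₂ (hy.supp i (hn i hi))
    have h6 : (1 : ℤ) ≤ n i := by
      have := Nat.pos_of_ne_zero hi
      exact_mod_cast this
    nlinarith
  rw [hwt, map_sub] at h2
  change 2 ≤ L₂ (μ j) - L₂ (w (f ⟨j, hj⟩)) at h2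
  omega

/-- **There are no equations with `L₂ ≤ 0`.** -/
theorem Exc.L₂_pos (e : Exc w μ g L₁ L₂) (j : Fin c) : 0 < L₂ (μ j) := by
  by_contra hj
  obtain ⟨j₀, -, hj₀⟩ := Finset.exists_min_image Finset.univ (fun j => L₂ (μ j))
    ⟨j, Finset.mem_univ j⟩
  have h1 := hj₀ j (Finset.mem_univ j)
  obtain ⟨k, hk⟩ := e.exists_below (e.two_le (j := j₀) (by omega))
  have h2 := e.symm.le_eq_zero (v := L₂ (μ j₀) - 2) (by omega)
  rw [S_ind'] at h2
  have h3 : 0 < (Finset.univ.filter fun k => L₂ (w k) ≤ L₂ (μ j₀) - 2).card :=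
    Finset.card_pos.mpr ⟨k, Finset.mem_filter.mpr ⟨Finset.mem_univ _, by omega⟩⟩
  have h4 : 0 < (Finset.univ.filter fun j => L₂ (μ j) ≤ L₂ (μ j₀) - 2).card := by omega
  obtain ⟨j', hj'⟩ := Finset.card_pos.mp h4
  have h5 := (Finset.mem_filter.mp hj').2
  have h6 := hj₀ j' (Finset.mem_univ j')
  omega

theorem Exc.L₁_pos (e : Exc w μ g L₁ L₂) (j : Fin c) : 0 < L₁ (μ j) := e.symm.L₂_pos j

/-- The variables have `L₁ ≥ -1`. -/
theorem Exc.neg_one_le (e : Exc w μ g L₁ L₂) (k : Fin r) : -1 ≤ L₁ (w k) := by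
  by_contra hk
  have h2 := e.le_eq_zero (v := -2) le_rfl
  rw [S_ind'] at h2
  have h3 : 0 < (Finset.univ.filter fun k => L₁ (w k) ≤ -2).card :=
    Finset.card_pos.mpr ⟨k, Finset.mem_filter.mpr ⟨Finset.mem_univ _, by omega⟩⟩
  have h4 : 0 < (Finset.univ.filter fun j => L₁ (μ j) ≤ -2).card := by omega
  obtain ⟨j', hj'⟩ := Finset.card_pos.mp h4
  have h5 := (Finset.mem_filter.mp hj').2
  have := e.L₁_pos j'
  omega

/-- There is exactly one variable with `L₁ = 0`. -/
theorem Exc.unique (e : Exc w μ g L₁ L₂) : ∃ i, L₁ (w i) = 0 ∧ ∀ k, L₁ (w k) = 0 → k = i := by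
  have h1 := e.zer₁
  rw [zer, S_ind'] at h1
  have h2 : (Finset.univ.filter fun j => L₁ (μ j) = 0).card = 0 := by
    rw [Finset.card_eq_zero, Finset.filter_eq_empty_iff]
    intro j _ hj
    have := e.L₁_pos j
    omega
  have h3 : (Finset.univ.filter fun k => L₁ (w k) = 0).card = 1 := by omega
  obtain ⟨i, hi⟩ := Finset.card_eq_one.mp h3
  have h4 : ∀ k, L₁ (w k) = 0 ↔ k = i := by
    intro k
    have h5 : k ∈ (Finset.univ.filter fun k => L₁ (w k) = 0) ↔ k ∈ ({i} : Finset (Fin r)) := by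
      rw [hi]
    simpa using h5
  exact ⟨i, (h4 i).mpr rfl, fun k hk => (h4 k).mp hk⟩

end Pool.Agent.CID
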