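import Pool.Agent.CID.Dim3

/-!
# The two extremal rays exist
-/

set_option autoImplicit false

open MvPolynomial

namespace Pool.Agent.CID

open Pool.Agent.CIC

variable {r c : ℕ} {w : Fin r → (Fin 2 → ℤ)} {μ : Fin c → (Fin 2 → ℤ)}
  {g : Fin c → MvPolynomial (Fin r) ℂ} {L : (Fin 2 → ℤ) →+ ℤ}

/-- If `M ≥ 0` on the support of the zero `z`, then the part of `z` with `M = 0` is a zero. -/
theorem isZero_face (hX : IsFanoCompleteIntersection w μ g) (M : (Fin 2 → ℤ) →+ ℤ)
    {z : Fin r → ℂ} (hz : IsZero g z) (hM : ∀ i, z i ≠ 0 → 0 ≤ M (w i)) :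
    IsZero g fun i => if M (w i) = 0 then z i else 0 := by
  classical
  set y : Fin r → ℂ := fun i => if M (w i) = 0 then z i else 0 with hy
  have hysupp : ∀ i, y i ≠ 0 → M (w i) = 0 := by
    intro i hi
    by_contra hcon
    exact hi (if_neg hcon)
  have hyz : ∀ i, M (w i) = 0 → z i = y i := fun i hi => (if_pos hi).symm
  have hzN : ∀ i, M (w i) < 0 → z i = 0 := by
    intro i hi
    by_contra hcon
    have := hM i hcon
    omega
  intro j
  by_cases hj : M (μ j) = 0
  · rw [← eval_zero (hX.homogeneous j) hj hzN hysupp hyz]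
    exact hz j
  · apply eval_eq_zero
    intro n hn
    by_contra hcon
    push Not at hcon
    apply hj
    rw [← hX.homogeneous j (mem_support_iff.mp hn), L_weight]
    refine Finset.sum_eq_zero fun i _ => ?_
    by_cases hi : n i = 0
    · rw [hi]; simp
    · rw [hysupp i (hcon i hi), mul_zero]

theorem functional_eq' (L : (Fin 2 → ℤ) →+ ℤ) (x : Fin 2 → ℤ) :
    L x = L ![1, 0] * x 0 + L ![0, 1] * x 1 := by
  have h : x = x 0 • ![1, 0] + x 1 • ![0, 1] := by
    ext i
    fin_cases i <;> simp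
  conv_lhs => rw [h]
  rw [map_add, map_zsmul, map_zsmul, smul_eq_mul, smul_eq_mul]
  ring

/-- A nonzero linear form is a multiple of a primitive one. -/
theorem exists_primitive (M : (Fin 2 → ℤ) →+ ℤ) {x : Fin 2 → ℤ} (hx : M x ≠ 0) :
    ∃ (L : (Fin 2 → ℤ) →+ ℤ) (G : ℤ), 0 < G ∧ Function.Surjective L ∧ ∀ x, M x = G * L x := by
  set α := M ![1, 0] with hα
  set β := M ![0, 1] with hβ
  have hM : ∀ x, M x = α * x 0 + β * x 1 := functional_eq' M
  obtain ⟨a, ha⟩ := Int.gcd_dvd_left α β
  obtain ⟨b, hb⟩ := Int.gcd_dvd_right α β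
  have hbez := Int.gcd_eq_gcd_ab α β
  set G : ℤ := (Int.gcd α β : ℤ) with hG
  have hG0 : 0 < G := by
    rw [hG]
    have : 0 < Int.gcd α β := by
      rw [Nat.pos_iff_ne_zero, Ne, Int.gcd_eq_zero_iff]
      rintro ⟨h1, h2⟩
      apply hx
      rw [hM, h1, h2]
      ring
    exact_mod_cast this
  let L : (Fin 2 → ℤ) →+ ℤ :=
    a • Pi.evalAddMonoidHom (fun _ : Fin 2 => ℤ) 0 +
      b • Pi.evalAddMonoidHom (fun _ : Fin 2 => ℤ) 1
  have hL : ∀ x, L x = a * x 0 + b * x 1 := fun x => by
    simp [L]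
  refine ⟨L, G, hG0, fun t => ⟨![Int.gcdA α β * t, Int.gcdB α β * t], ?_⟩, fun x => ?_⟩
  · rw [hL]
    show a * (Int.gcdA α β * t) + b * (Int.gcdB α β * t) = t
    have h1 : G * (a * Int.gcdA α β + b * Int.gcdB α β) = G * 1 := by
      calc G * (a * Int.gcdA α β + b * Int.gcdB α β)
          = (G * a) * Int.gcdA α β + (G * b) * Int.gcdB α β := by ring
        _ = α * Int.gcdA α β + β * Int.gcdB α β := by rw [← ha, ← hb]
        _ = G * 1 := by rw [← hbez, mul_one]
    have h2 := mul_left_cancel₀ hG0.ne' h1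
    calc a * (Int.gcdA α β * t) + b * (Int.gcdB α β * t)
        = (a * Int.gcdA α β + b * Int.gcdB α β) * t := by ring
      _ = t := by rw [h2, one_mul]
  · rw [hM, hL]
    calc α * x 0 + β * x 1 = (G * a) * x 0 + (G * b) * x 1 := by rw [← ha, ← hb]
      _ = G * (a * x 0 + b * x 1) := by ring

theorem kappa_ne_zero (hX : IsFanoCompleteIntersection w μ g) : anticanonical w μ ≠ 0 := by
  intro h0
  have h1 := hX.free 0 (isZero_zero hX) ⟨1, one_pos, 0, by rw [map_zero, h0, smul_zero],
    fun i hi => absurd rfl hi⟩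
  have h2 : (w '' {i | (0 : Fin r → ℂ) i ≠ 0}) = ∅ := by
    rw [Set.image_eq_empty]
    ext i
    simp
  rw [h2, Submodule.span_empty] at h1
  have h3 : (![1, 0] : Fin 2 → ℤ) ∈ (⊥ : Submodule ℤ (Fin 2 → ℤ)) := by rw [h1]; trivial
  have h4 := congrFun ((Submodule.mem_bot ℤ).mp h3) 0
  simp at h4

/-- `h(κ) > 0`. -/
theorem kappa_pos (hX : IsFanoCompleteIntersection w μ g) {h : (Fin 2 → ℤ) →+ ℤ}
    (hh : ∀ i, 0 < h (w i)) : 0 < h (anticanonical w μ) := by
  obtain ⟨z, hz, m, hm, n, hn, hn'⟩ := hX.nonempty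
  have hm' : (0 : ℤ) < m := by exact_mod_cast hm
  obtain ⟨i, hi⟩ : ∃ i, n i ≠ 0 := by
    by_contra hcon
    push Not at hcon
    have h1 : n = 0 := Finsupp.ext hcon
    rw [h1, map_zero] at hn
    rcases smul_eq_zero.mp hn.symm with h2 | h2
    · omega
    · exact kappa_ne_zero hX h2
  have h1 : 0 < h (Finsupp.weight w n) := weight_pos (fun i _ => (hh i).le) ⟨i, hi, hh i⟩
  rw [hn, map_nsmul, nsmul_eq_mul] at h1
  by_contra hcon
  have := mul_nonpos_of_nonneg_of_nonpos hm'.le (not_lt.mp hcon)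
  omega

section

variable (h D : (Fin 2 → ℤ) →+ ℤ)

/-- The hypotheses: `h > 0` on the variables, `D(κ) = 0`, and `(h, D)` is injective. -/
structure Frame (w : Fin r → (Fin 2 → ℤ)) (μ : Fin c → (Fin 2 → ℤ)) : Prop where
  pos : ∀ i, 0 < h (w i)
  kappa : 0 < h (anticanonical w μ)
  zero : D (anticanonical w μ) = 0
  inj : ∀ x, D x = 0 → h x = 0 → x = 0

end

variable {h D : (Fin 2 → ℤ) →+ ℤ}

/-- `κ` is in the cone of two variables on different sides. -/
theorem Frame.cone (F : Frame h D w μ) {i b : Fin r} (hi : 0 < D (w i)) (hb : D (w b) < 0) :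
    ∃ m : ℕ, 0 < m ∧ ∃ n : Fin r →₀ ℕ, Finsupp.weight w n = m • anticanonical w μ ∧
      ∀ k, n k ≠ 0 → k = i ∨ k = b := by
  classical
  have h1 := F.pos i
  have h2 := F.pos b
  have h3 := F.kappa
  set κ := anticanonical w μ with hκ
  have hb' : 0 < -D (w b) := by omega
  have hm : 0 < D (w i) * h (w b) + (-D (w b)) * h (w i) :=
    add_pos (mul_pos hi h2) (mul_pos hb' h1)
  refine ⟨(D (w i) * h (w b) + (-D (w b)) * h (w i)).toNat, by omega,
    Finsupp.single b (h κ * D (w i)).toNat + Finsupp.single i (h κ * (-D (w b))).toNat, ?_, ?_⟩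
  · rw [map_add, Finsupp.weight_single, Finsupp.weight_single, ← natCast_zsmul,
      ← natCast_zsmul, ← natCast_zsmul, Int.toNat_of_nonneg hm.le,
      Int.toNat_of_nonneg (mul_pos h3 hi).le, Int.toNat_of_nonneg (mul_pos h3 hb').le]
    have e : (h κ * D (w i)) • w b + (h κ * (-D (w b))) • w i -
        (D (w i) * h (w b) + (-D (w b)) * h (w i)) • κ = 0 := by
      apply F.inj
      · rw [map_sub, map_add, map_zsmul, map_zsmul, map_zsmul]
        simp only [smul_eq_mul]
        rw [F.zero]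
        ring
      · rw [map_sub, map_add, map_zsmul, map_zsmul, map_zsmul]
        simp only [smul_eq_mul]
        ring
    exact sub_eq_zero.mp e
  · intro k hk
    rw [Finsupp.add_apply, Finsupp.single_apply, Finsupp.single_apply] at hk
    by_cases h4 : b = k
    · exact Or.inr h4.symm
    · by_cases h5 : i = k
      · exact Or.inl h5.symm
      · simp [h4, h5] at hk

/-- There is no nonzero zero on the line of `κ`. -/
theorem Frame.no_zero (F : Frame h D w μ) (hX : IsFanoCompleteIntersection w μ g)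
    {z : Fin r → ℂ} (hz : IsZero g z) (hz' : ∀ i, z i ≠ 0 → D (w i) = 0) (k : Fin r) :
    z k = 0 := by
  classical
  by_contra hk
  have h1 := F.pos k
  have h3 := F.kappa
  have hs : FAC.Semistable w (anticanonical w μ) z := by
    refine ⟨(h (w k)).toNat, by omega, Finsupp.single k (h (anticanonical w μ)).toNat, ?_, ?_⟩
    · have e : (h (anticanonical w μ)) • w k - (h (w k)) • anticanonical w μ = 0 := by
        apply F.inj
        · rw [map_sub, map_zsmul, map_zsmul, hz' k hk, F.zero, smul_zero, smul_zero, sub_zero]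
        · rw [map_sub, map_zsmul, map_zsmul]
          simp only [smul_eq_mul]
          ring
      rw [Finsupp.weight_single, ← natCast_zsmul, ← natCast_zsmul, Int.toNat_of_nonneg h3.le,
        Int.toNat_of_nonneg h1.le]
      exact sub_eq_zero.mp e
    · intro i hi
      by_cases hik : k = i
      · rw [← hik]
        exact hk
      · rw [Finsupp.single_apply, if_neg hik] at hi
        exact absurd rfl hi
  have h4 := hX.free z hz hs
  have h5 : ∀ v ∈ Submodule.span ℤ (w '' {i | z i ≠ 0}), D v = 0 := by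
    intro v hv
    induction hv using Submodule.span_induction with
    | mem x hx =>
      obtain ⟨i, hi, rfl⟩ := hx
      exact hz' i hi
    | zero => rw [map_zero]
    | add x y _ _ hx hy => rw [map_add, hx, hy, add_zero]
    | smul a x _ hx => rw [map_zsmul, hx, smul_zero]
  have h6 : ∀ x, D x = 0 := fun x => h5 x (by rw [h4]; trivial)
  -- then `h` is injective, impossible
  have h7 : h ![1, 0] • (![0, 1] : Fin 2 → ℤ) - h ![0, 1] • (![1, 0] : Fin 2 → ℤ) = 0 := by
    apply F.inj _ (h6 _)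
    rw [map_sub, map_zsmul, map_zsmul]
    simp only [smul_eq_mul]
    ring
  have h8 := congrFun h7 0
  have h9 := congrFun h7 1
  simp at h8 h9
  have h10 : (![1, 0] : Fin 2 → ℤ) = 0 := F.inj _ (h6 _) h9
  have h11 := congrFun h10 0
  simp at h11

/-- The linear form which vanishes at `a` and is positive on the side of `κ`. -/
def side (h D : (Fin 2 → ℤ) →+ ℤ) (a : Fin 2 → ℤ) : (Fin 2 → ℤ) →+ ℤ := D a • h - h a • D

theorem side_apply (h D : (Fin 2 → ℤ) →+ ℤ) (a x : Fin 2 → ℤ) :
    side h D a x = D a * h x - h a * D x := by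
  simp [side]

/-- A degree is special, if some nonzero zero is supported on its ray. -/
def Special (w : Fin r → (Fin 2 → ℤ)) (g : Fin c → MvPolynomial (Fin r) ℂ)
    (h D : (Fin 2 → ℤ) →+ ℤ) (i : Fin r) : Prop :=
  ∃ z, IsZero g z ∧ z i ≠ 0 ∧ ∀ k, z k ≠ 0 → side h D (w i) (w k) = 0

/-- Slopes. -/
theorem slope_le_iff (F : Frame h D w μ) (i k : Fin r) :
    (D (w k) : ℚ) / h (w k) ≤ (D (w i) : ℚ) / h (w i) ↔ 0 ≤ side h D (w i) (w k) := by
  have h1 : (0 : ℚ) < h (w i) := by exact_mod_cast F.pos i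
  have h2 : (0 : ℚ) < h (w k) := by exact_mod_cast F.pos k
  rw [div_le_div_iff₀ h2 h1, side_apply]
  constructor
  · intro h3
    have h4 : D (w k) * h (w i) ≤ D (w i) * h (w k) := by exact_mod_cast h3
    linarith [mul_comm (D (w k)) (h (w i))]
  · intro h3
    have h4 : D (w k) * h (w i) ≤ D (w i) * h (w k) := by
      linarith [mul_comm (D (w k)) (h (w i))]
    exact_mod_cast h4

/-- The zero on the ray of maximal slope. -/
theorem special_of_max (F : Frame h D w μ) (hX : IsFanoCompleteIntersection w μ g)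
    {z : Fin r → ℂ} (hz : IsZero g z) {i : Fin r} (hi : z i ≠ 0)
    (hmax : ∀ k, z k ≠ 0 → 0 ≤ side h D (w i) (w k)) : Special w g h D i := by
  refine ⟨_, isZero_face hX (side h D (w i)) hz hmax, ?_, ?_⟩
  · rw [if_pos]
    · exact hi
    · rw [side_apply]
      ring
  · intro k hk
    by_contra hcon
    exact hk (if_neg hcon)

/-- There is a special degree on each side. -/
theorem exists_special (F : Frame h D w μ) (hX : IsFanoCompleteIntersection w μ g) :
    ∃ i, 0 < D (w i) ∧ Special w g h D i := by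
  classical
  obtain ⟨z, hz, m, hm, n, hn, hn'⟩ := hX.nonempty
  obtain ⟨i₀, hi₀⟩ : ∃ i, n i ≠ 0 := by
    by_contra hcon
    push Not at hcon
    have h1 : n = 0 := Finsupp.ext hcon
    rw [h1, map_zero] at hn
    rcases smul_eq_zero.mp hn.symm with h2 | h2
    · omega
    · exact kappa_ne_zero hX h2
  obtain ⟨a, ha, hmax⟩ := Finset.exists_max_image (Finset.univ.filter fun i => z i ≠ 0)
    (fun i => (D (w i) : ℚ) / h (w i))
    ⟨i₀, Finset.mem_filter.mpr ⟨Finset.mem_univ _, hn' i₀ hi₀⟩⟩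
  have ha' := (Finset.mem_filter.mp ha).2
  have hmax' : ∀ k, z k ≠ 0 → 0 ≤ side h D (w a) (w k) := fun k hk =>
    (slope_le_iff F a k).mp (hmax k (Finset.mem_filter.mpr ⟨Finset.mem_univ _, hk⟩))
  refine ⟨a, ?_, special_of_max F hX hz ha' hmax'⟩
  by_contra hcon
  have h1 : ∀ k, z k ≠ 0 → D (w k) ≤ 0 := by
    intro k hk
    have h2 := hmax' k hk
    rw [side_apply] at h2
    have h3 := F.pos a
    have h4 := F.pos k
    have h5 := mul_nonpos_of_nonpos_of_nonneg (not_lt.mp hcon) h4.le
    by_contra h6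
    have h7 := mul_pos h3 (not_le.mp h6)
    omega
  have h2 : D (Finsupp.weight w n) = 0 := by
    rw [hn, map_nsmul, F.zero, smul_zero]
  have h3 : D (w i₀) = 0 := by
    by_contra h4
    have h5 : D (w i₀) < 0 := by
      have := h1 i₀ (hn' i₀ hi₀)
      omega
    have h6 := weight_neg (L := D) (w := w) (n := n) (fun i hi => h1 i (hn' i hi)) ⟨i₀, hi₀, h5⟩
    omega
  have h4 := isZero_face hX (-D) hz (fun i hi => by
    have := h1 i hi
    rw [AddMonoidHom.neg_apply]
    omega)
  have h5 := F.no_zero hX h4 (fun i hi => by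
    by_contra h6
    apply hi
    rw [if_neg]
    rw [AddMonoidHom.neg_apply]
    omega) i₀
  rw [if_pos (by rw [AddMonoidHom.neg_apply, h3, neg_zero])] at h5
  exact hn' i₀ hi₀ h5

/-- **The extremal ray on one side.** -/
theorem exists_edge [hp : (relations g).IsPrime] (F : Frame h D w μ)
    (hX : IsFanoCompleteIntersection w μ g) :
    ∃ (L : (Fin 2 → ℤ) →+ ℤ) (i : Fin r), 0 < D (w i) ∧ L (w i) = 0 ∧ IsEdge w μ g L := by
  classical
  obtain ⟨a, ha, hsa⟩ := exists_special F hX
  obtain ⟨i₁, hi₁, hmin⟩ := Finset.exists_min_image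
    (Finset.univ.filter fun i => 0 < D (w i) ∧ Special w g h D i)
    (fun i => (D (w i) : ℚ) / h (w i)) ⟨a, Finset.mem_filter.mpr ⟨Finset.mem_univ _, ha, hsa⟩⟩
  obtain ⟨-, hD₁, z₁, hz₁, hz₁i, hz₁s⟩ := Finset.mem_filter.mp hi₁
  have hmin' : ∀ i, 0 < D (w i) → Special w g h D i → 0 ≤ side h D (w i) (w i₁) :=
    fun i hi hs => (slope_le_iff F i i₁).mp
      (hmin i (Finset.mem_filter.mpr ⟨Finset.mem_univ _, hi, hs⟩))
  have hMκ : 0 < side h D (w i₁) (anticanonical w μ) := by
    rw [side_apply, F.zero, mul_zero, sub_zero]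
    exact mul_pos hD₁ F.kappa
  obtain ⟨L, G, hG, hsurj, hL⟩ := exists_primitive (side h D (w i₁)) hMκ.ne'
  have hpos : ∀ x, 0 < L x ↔ 0 < side h D (w i₁) x := by
    intro x
    rw [hL]
    exact (mul_pos_iff_of_pos_left hG).symm
  have hzero : ∀ x, L x = 0 ↔ side h D (w i₁) x = 0 := by
    intro x
    rw [hL]
    constructor
    · intro h0
      rw [h0, mul_zero]
    · intro h0
      rcases mul_eq_zero.mp h0 with h1 | h1
      · omega
      · exact h1
  have hLi₁ : L (w i₁) = 0 := by
    rw [hzero, side_apply]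
    ring
  refine ⟨L, i₁, hD₁, hLi₁, hsurj, ?_, ?_⟩
  · rintro z hz ⟨i, hzi, hi⟩ ⟨k, hzk, hk⟩
    -- the minimal slope
    obtain ⟨b, hb, hbmin⟩ := Finset.exists_min_image (Finset.univ.filter fun i => z i ≠ 0)
      (fun i => (D (w i) : ℚ) / h (w i)) ⟨i, Finset.mem_filter.mpr ⟨Finset.mem_univ _, hzi⟩⟩
    have hzb := (Finset.mem_filter.mp hb).2
    have hbmin' : ∀ k, z k ≠ 0 → 0 ≤ side h D (w k) (w b) := fun k hk =>
      (slope_le_iff F k b).mp (hbmin k (Finset.mem_filter.mpr ⟨Finset.mem_univ _, hk⟩))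
    have hface : ∀ k, z k ≠ 0 → 0 ≤ (-side h D (w b)) (w k) := by
      intro k hk
      have h1 := hbmin' k hk
      rw [side_apply] at h1
      rw [AddMonoidHom.neg_apply, side_apply]
      linarith [mul_comm (D (w k)) (h (w b)), mul_comm (h (w k)) (D (w b))]
    have hz' := isZero_face hX _ hz hface
    have hface0 : ∀ k, (if (-side h D (w b)) (w k) = 0 then z k else 0) ≠ 0 →
        side h D (w b) (w k) = 0 := by
      intro k hk
      by_contra hcon
      apply hk
      rw [if_neg]
      rw [AddMonoidHom.neg_apply]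
      omega
    have hbb : (if (-side h D (w b)) (w b) = 0 then z b else 0) ≠ 0 := by
      rw [if_pos]
      · exact hzb
      · rw [AddMonoidHom.neg_apply, side_apply]
        ring
    have hsb : Special w g h D b := ⟨_, hz', hbb, hface0⟩
    -- `b` is before the ray
    have hMb : 0 < side h D (w i₁) (w b) := by
      have h1 := (hpos _).mp hk
      have h2 := hbmin' k hzk
      rw [side_apply] at h1 h2 ⊢
      have h3 := F.pos i₁
      have h4 := F.pos k
      have h5 := F.pos b
      by_contra hcon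
      have h6 : D (w i₁) * h (w b) ≤ h (w i₁) * D (w b) := by omega
      have h7 : h (w k) * (D (w i₁) * h (w b)) ≤ h (w k) * (h (w i₁) * D (w b)) :=
        mul_le_mul_of_nonneg_left h6 h4.le
      have h8 : h (w i₁) * (h (w k) * D (w b)) ≤ h (w i₁) * (D (w k) * h (w b)) :=
        mul_le_mul_of_nonneg_left (by omega) h3.le
      have h9 : h (w b) * (h (w i₁) * D (w k)) < h (w b) * (D (w i₁) * h (w k)) :=
        mul_lt_mul_of_pos_left (by omega) h5
      nlinarith
    have hDb : D (w b) < 0 := by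
      rcases lt_trichotomy (D (w b)) 0 with h1 | h1 | h1
      · exact h1
      · exfalso
        refine hbb (F.no_zero hX hz' (fun k hk => ?_) b)
        have h2 := hface0 k hk
        rw [side_apply, h1, zero_mul, zero_sub, neg_eq_zero] at h2
        rcases mul_eq_zero.mp h2 with h3 | h3
        · have := F.pos b
          omega
        · exact h3
      · exfalso
        have h2 := hmin' b h1 hsb
        rw [side_apply] at h2 hMb
        linarith [mul_comm (D (w i₁)) (h (w b)), mul_comm (h (w i₁)) (D (w b))]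
    have hDi : 0 < D (w i) := by
      have h1 : ¬ 0 < side h D (w i₁) (w i) := fun h => by
        have := (hpos _).mpr h
        omega
      rw [side_apply] at h1
      have h2 := mul_pos hD₁ (F.pos i)
      by_contra hcon
      have h3 := mul_nonpos_of_nonneg_of_nonpos (F.pos i₁).le (not_lt.mp hcon)
      omega
    obtain ⟨m, hm, n, hn, hn'⟩ := F.cone hDi hDb
    refine ⟨m, hm, n, hn, fun k hk => ?_⟩
    rcases hn' k hk with h1 | h1
    · rw [h1]
      exact hzi
    · rw [h1]
      exact hzb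
  · have hS := two_le_S_pos (L := L) hX ((hpos _).mpr hMκ)
    have hsupp : ∀ k, z₁ k ≠ 0 → L (w k) = 0 := fun k hk => (hzero _).mpr (hz₁s k hk)
    obtain ⟨z, hz, hzy, k, hk, hzk⟩ := exists_zero_of_S_pos hX hz₁ (fun x => 0 < L x)
      (fun k hk => by
        by_contra hcon
        have := hsupp k hcon
        omega) (by
        rintro j n hn hn' ⟨k, hk, hk'⟩
        rw [← hn]
        refine weight_pos (fun i hi => ?_) ⟨k, hk, hk'⟩
        rcases hn' i hi with h4 | h4
        · exact (hsupp i h4).ge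
        · exact h4.le) (by omega)
    refine ⟨z, hz, fun i hi => ?_, ⟨i₁, ?_, hLi₁⟩, k, hzk, hk⟩
    · rw [hzy i (by omega)]
      by_contra hcon
      have := hsupp i hcon
      omega
    · rw [hzy i₁ (by omega)]
      exact hz₁i

/-- **The two extremal rays exist.** -/
theorem exists_pair [hp : (relations g).IsPrime] (hX : IsFanoCompleteIntersection w μ g) :
    ∃ L₁ L₂, Pair w μ g L₁ L₂ := by
  classical
  obtain ⟨h, hh⟩ := hX.pointed
  set κ := anticanonical w μ with hκ
  have hκpos : 0 < h κ := kappa_pos hX hh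
  let D : (Fin 2 → ℤ) →+ ℤ :=
    κ 0 • Pi.evalAddMonoidHom (fun _ : Fin 2 => ℤ) 1 -
      κ 1 • Pi.evalAddMonoidHom (fun _ : Fin 2 => ℤ) 0
  have hD : ∀ x, D x = κ 0 * x 1 - κ 1 * x 0 := fun x => by
    simp [D]
  have hinj : ∀ x, D x = 0 → h x = 0 → x = 0 := by
    intro x h1 h2
    rw [hD] at h1
    rw [functional_eq' h] at h2
    have h3 := functional_eq' h κ
    have h4 : h κ * x 0 = 0 := by
      rw [h3]
      linear_combination (κ 0) * h2 - h ![0, 1] * h1
    have h5 : h κ * x 1 = 0 := by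
      rw [h3]
      linear_combination (κ 1) * h2 + h ![1, 0] * h1
    ext i
    fin_cases i
    · rcases mul_eq_zero.mp h4 with h6 | h6
      · omega
      · exact h6
    · rcases mul_eq_zero.mp h5 with h6 | h6
      · omega
      · exact h6
  have F₁ : Frame h D w μ := ⟨hh, hκpos, by rw [← hκ, hD]; ring, hinj⟩
  have F₂ : Frame h (-D) w μ := ⟨hh, hκpos, by
      rw [← hκ, AddMonoidHom.neg_apply, hD]
      ring, fun x h1 h2 => hinj x (by rw [AddMonoidHom.neg_apply] at h1; omega) h2⟩
  obtain ⟨L₁, i₁, h1, h2, h3⟩ := exists_edge F₁ hX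
  obtain ⟨L₂, i₂, h4, h5, h6⟩ := exists_edge F₂ hX
  rw [AddMonoidHom.neg_apply] at h4
  refine ⟨L₁, L₂, h3, h6, ?_⟩
  obtain ⟨m, hm, n, hn, hn'⟩ := F₁.cone h1 (show D (w i₂) < 0 by omega)
  refine ⟨m, hm, n, hn, fun k hk => ?_⟩
  rcases hn' k hk with h7 | h7
  · left
    rw [h7]
    exact h2
  · right
    rw [h7]
    exact h5

end Pool.Agent.CID
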