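import Pool.Agent.CID.Exc2
import Pool.Agent.CID.Rays

/-!
# The exceptional case does not occur
-/

set_option autoImplicit false

open scoped ENNReal
open MvPolynomial

namespace Pool.Agent.CID

open Pool.Agent.CIC

variable {r c : ℕ} {w : Fin r → (Fin 2 → ℤ)} {μ : Fin c → (Fin 2 → ℤ)}
  {g : Fin c → MvPolynomial (Fin r) ℂ} {L L₁ L₂ : (Fin 2 → ℤ) →+ ℤ} {y : Fin r → ℂ}

theorem functional_eq (L : (Fin 2 → ℤ) →+ ℤ) (x : Fin 2 → ℤ) :
    L x = L ![1, 0] * x 0 + L ![0, 1] * x 1 := by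
  have h : x = x 0 • ![1, 0] + x 1 • ![0, 1] := by
    ext i
    fin_cases i <;> simp
  conv_lhs => rw [h]
  rw [map_add, map_zsmul, map_zsmul, smul_eq_mul, smul_eq_mul]
  ring

/-- The primitive linear form which vanishes at a class `n` with `L₁(n) = -1`. -/
theorem exists_functional (L₁ L₂ : (Fin 2 → ℤ) →+ ℤ) (n : Fin 2 → ℤ) (hn : L₁ n = -1)
    (hinj : ∀ x, L₁ x = 0 → L₂ x = 0 → x = 0) :
    ∃ (t : (Fin 2 → ℤ) →+ ℤ) (e : Fin 2 → ℤ) (G : ℤ), 0 < G ∧ t n = 0 ∧ L₁ e = 0 ∧ t e = 1 ∧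
      ∀ x, G * t x = L₂ x + L₂ n * L₁ x := by
  set α := L₁ ![1, 0] with hα
  set β := L₁ ![0, 1] with hβ
  have hL : ∀ x, L₁ x = α * x 0 + β * x 1 := functional_eq L₁
  let t : (Fin 2 → ℤ) →+ ℤ :=
    n 0 • Pi.evalAddMonoidHom (fun _ : Fin 2 => ℤ) 1 -
      n 1 • Pi.evalAddMonoidHom (fun _ : Fin 2 => ℤ) 0
  have ht : ∀ x, t x = n 0 * x 1 - n 1 * x 0 := fun x => by
    simp [t]
  let e : Fin 2 → ℤ := ![β, -α]
  have he0 : e 0 = β := rfl
  have he1 : e 1 = -α := rfl
  have hn' := hL n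
  rw [hn] at hn'
  have h1 : t n = 0 := by
    rw [ht]
    ring
  have h2 : L₁ e = 0 := by
    rw [hL, he0, he1]
    ring
  have h3 : t e = 1 := by
    rw [ht, he0, he1]
    linarith
  have h4 : ∀ x, x = (-L₁ x) • n + t x • e := by
    intro x
    ext i
    rw [Pi.add_apply, Pi.smul_apply, Pi.smul_apply, smul_eq_mul, smul_eq_mul, hL, ht]
    fin_cases i
    · show x 0 = -(α * x 0 + β * x 1) * n 0 + (n 0 * x 1 - n 1 * x 0) * β
      linear_combination (-x 0) * hn'
    · show x 1 = -(α * x 0 + β * x 1) * n 1 + (n 0 * x 1 - n 1 * x 0) * (-α)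
      linear_combination (-x 1) * hn'
  have h5 : ∀ x, L₂ e * t x = L₂ x + L₂ n * L₁ x := by
    intro x
    have h6 := congrArg L₂ (h4 x)
    rw [map_add, map_zsmul, map_zsmul, smul_eq_mul, smul_eq_mul] at h6
    rw [h6]
    ring
  have h6 : L₂ e ≠ 0 := by
    intro h7
    have h8 := hinj e h2 h7
    rw [h8, map_zero] at h3
    omega
  rcases lt_or_gt_of_ne h6 with h7 | h7
  · refine ⟨-t, -e, -L₂ e, by omega, ?_, ?_, ?_, ?_⟩
    · rw [AddMonoidHom.neg_apply, h1, neg_zero]
    · rw [map_neg, h2, neg_zero]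
    · rw [AddMonoidHom.neg_apply, map_neg, h3, neg_neg]
    · intro x
      rw [AddMonoidHom.neg_apply, ← h5]
      ring
  · exact ⟨t, e, L₂ e, h7, h1, h2, h3, h5⟩

/-- The sum over the residue classes. -/
theorem sum_residues (q : ℕ) (hq : 0 < q) (a : ℤ) :
    ∑ s ∈ Finset.range q, (if (q : ℤ) ∣ a - s then (1 : ℤ) else 0) = 1 := by
  have hq' : (0 : ℤ) < q := by exact_mod_cast hq
  have h1 := Int.emod_nonneg a hq'.ne'
  have h2 := Int.emod_lt_of_pos a hq'
  have h3 : (((a % q).toNat : ℕ) : ℤ) = a % q := Int.toNat_of_nonneg h1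
  rw [Finset.sum_eq_single (a % q).toNat]
  · rw [if_pos]
    rw [h3]
    exact Int.dvd_self_sub_emod
  · intro s hs hne
    rw [if_neg]
    intro hdvd
    apply hne
    have h4 : (q : ℤ) ∣ (s : ℤ) - a % q := by
      have h5 : (q : ℤ) ∣ a - a % q := Int.dvd_self_sub_emod
      have h6 := dvd_sub h5 hdvd
      have h7 : a - a % q - (a - s) = s - a % q := by ring
      rwa [h7] at h6
    have h8 : (s : ℤ) < q := by exact_mod_cast Finset.mem_range.mp hs
    have h9 : (s : ℤ) - a % q = 0 := by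
      apply Int.eq_zero_of_abs_lt_dvd h4
      rw [abs_lt]
      have : (0 : ℤ) ≤ s := by positivity
      omega
    omega
  · intro hmem
    exfalso
    apply hmem
    rw [Finset.mem_range]
    omega

/-- The only variable with `L₁ = 0` generates the kernel of `L₁`. -/
theorem Exc.primitive (e : Exc w μ g L₁ L₂) {i : Fin r} (hi : L₁ (w i) = 0)
    (hi' : ∀ k, L₁ (w k) = 0 → k = i) (t : (Fin 2 → ℤ) →+ ℤ) (v : Fin 2 → ℤ) (hv : L₁ v = 0)
    (htv : t v = 1) (hpos : 0 < t (w i)) : t (w i) = 1 := by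
  classical
  by_contra hne
  obtain ⟨q, hq⟩ : ∃ q : ℕ, (q : ℤ) = t (w i) := ⟨(t (w i)).toNat, by omega⟩
  have hq2 : 2 ≤ q := by omega
  obtain ⟨y, hy, -⟩ := e.pair.e₁.isRay e.hX
  have hyi : ∀ k, y k ≠ 0 → k = i := fun k hk => hi' k (hy.supp k hk)
  obtain ⟨f, hf, hf'⟩ := e.exists_matching hy
  -- the linear forms
  have ht' : ∀ (s : ℕ) (x : Fin 2 → ℤ), (t - s • L₁) x = t x - s * L₁ x := by
    intro s x
    rw [AddMonoidHom.sub_apply, AddMonoidHom.smul_apply, nsmul_eq_mul]
  have hsurj : ∀ s : ℕ, Function.Surjective (t - s • L₁) := by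
    intro s x
    refine ⟨x • v, ?_⟩
    rw [map_zsmul, ht', hv, htv, smul_eq_mul]
    ring
  have hti : ∀ s : ℕ, (q : ℤ) ∣ (t - s • L₁) (w i) := by
    intro s
    rw [ht', hi, mul_zero, sub_zero, ← hq]
  have h1 : ∀ s : ℕ, S w μ (ind fun x => 0 < L₁ x ∧ (q : ℤ) ∣ (t - s • L₁) x) ≤ 0 := by
    intro s
    by_contra hcon
    obtain ⟨z, hz, hzy, k, hk, hzk⟩ := exists_zero_of_S_pos e.hX hy.zero
      (fun x => 0 < L₁ x ∧ (q : ℤ) ∣ (t - s • L₁) x) (fun k hk => y_pos hy k hk.1) (by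
        rintro j n hn hn' ⟨k, hk, hk'⟩
        rw [← hn]
        refine ⟨weight_pos (fun i hi => ?_) ⟨k, hk, hk'.1⟩, weight_dvd fun i hi => ?_⟩
        · rcases hn' i hi with h4 | h4
          · exact (hy.supp i h4).ge
          · exact h4.1.le
        · rcases hn' i hi with h4 | h4
          · rw [hyi i h4]
            exact hti s
          · exact h4.2) (not_le.mp hcon)
    refine not_dvd e.hX (hsurj s) hq2 hz (hy.semistable z ⟨hz, fun i hi => hzy i fun h4 => ?_,
      fun i hi => ?_, k, hk.1, hzk⟩) ?_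
    · have := h4.1
      omega
    · rw [hzy i fun h4 => by have := h4.1; omega]
      exact y_neg hy i hi
    · intro k hk
      by_cases h4 : 0 < L₁ (w k) ∧ (q : ℤ) ∣ (t - s • L₁) (w k)
      · exact h4.2
      · rw [hzy k h4] at hk
        rw [hyi k hk]
        exact hti s
  have h2 : ∀ s : ℕ, 0 ≤ S w μ (ind fun x => 2 ≤ L₁ x ∧ (q : ℤ) ∣ (t - s • L₁) x) := by
    intro s
    rw [S_ind' w μ fun x => 2 ≤ L₁ x ∧ (q : ℤ) ∣ (t - s • L₁) x]
    have h3 : (Finset.univ.filter fun j => 2 ≤ L₁ (μ j) ∧ (q : ℤ) ∣ (t - s • L₁) (μ j)).card ≤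
        (Finset.univ.filter fun k => 2 ≤ L₁ (w k) ∧ (q : ℤ) ∣ (t - s • L₁) (w k)).card := by
      let F : Fin c → Fin r := fun j => if h : 2 ≤ L₁ (μ j) then f ⟨j, h⟩ else i
      refine Finset.card_le_card_of_injOn F ?_ ?_
      · intro j hj
        obtain ⟨-, hj1, hj2⟩ := Finset.mem_filter.mp (Finset.mem_coe.mp hj)
        have hF : F j = f ⟨j, hj1⟩ := dif_pos hj1
        rw [Finset.mem_coe, Finset.mem_filter, hF]
        obtain ⟨h4, h5⟩ := hf' ⟨j, hj1⟩
        refine ⟨Finset.mem_univ _, h4, ?_⟩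
        obtain ⟨n, -, hn, hwt⟩ := e.exists_of_eval hy h5
        have h6 : (q : ℤ) ∣ (t - s • L₁) (Finsupp.weight w n) := by
          refine weight_dvd fun k hk => ?_
          rw [hyi k (hn k hk)]
          exact hti s
        rw [hwt, map_sub] at h6
        exact (dvd_sub_right hj2).mp h6
      · intro j hj j' hj' hjj
        obtain ⟨-, hj1, -⟩ := Finset.mem_filter.mp (Finset.mem_coe.mp hj)
        obtain ⟨-, hj1', -⟩ := Finset.mem_filter.mp (Finset.mem_coe.mp hj')
        have hF : F j = f ⟨j, hj1⟩ := dif_pos hj1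
        have hF' : F j' = f ⟨j', hj1'⟩ := dif_pos hj1'
        rw [hF, hF'] at hjj
        exact congrArg Subtype.val (hf hjj)
    omega
  have h3 : ∀ s : ℕ, S w μ (ind fun x => L₁ x = 1 ∧ (q : ℤ) ∣ (t - s • L₁) x) ≤ 0 := by
    intro s
    have h4 : S w μ (ind fun x => 0 < L₁ x ∧ (q : ℤ) ∣ (t - s • L₁) x) =
        S w μ (ind fun x => L₁ x = 1 ∧ (q : ℤ) ∣ (t - s • L₁) x) +
        S w μ (ind fun x => 2 ≤ L₁ x ∧ (q : ℤ) ∣ (t - s • L₁) x) := by
      rw [← S_add]
      have : ∀ x, ind (fun x => 0 < L₁ x ∧ (q : ℤ) ∣ (t - s • L₁) x) x =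
          ind (fun x => L₁ x = 1 ∧ (q : ℤ) ∣ (t - s • L₁) x) x +
          ind (fun x => 2 ≤ L₁ x ∧ (q : ℤ) ∣ (t - s • L₁) x) x := by
        intro x
        unfold ind
        by_cases hd : (q : ℤ) ∣ (t - s • L₁) x
        · simp only [hd, and_true]
          split_ifs <;> omega
        · simp only [hd, and_false, if_false]
          norm_num
      exact S_congr w μ (fun k => this _) (fun j => this _)
    have h5 := h1 s
    have h6 := h2 s
    omega
  have h4 : S w μ (ind fun x => L₁ x = 1) =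
      ∑ s ∈ Finset.range q, S w μ (ind fun x => L₁ x = 1 ∧ (q : ℤ) ∣ (t - s • L₁) x) := by
    rw [← S_sum]
    have : ∀ x, ind (fun x => L₁ x = 1) x =
        ∑ s ∈ Finset.range q, ind (fun x => L₁ x = 1 ∧ (q : ℤ) ∣ (t - s • L₁) x) x := by
      intro x
      by_cases hx : L₁ x = 1
      · have h5 := sum_residues q (by omega) (t x)
        rw [ind_of hx]
        refine h5.symm.trans (Finset.sum_congr rfl fun s _ => ?_)
        have h6 : (t - s • L₁) x = t x - s := by
          rw [ht', hx, mul_one]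
        by_cases hd : (q : ℤ) ∣ t x - s
        · rw [if_pos hd, ind_of ⟨hx, by rw [h6]; exact hd⟩]
        · rw [if_neg hd, ind_of_not fun h => hd (by rw [← h6]; exact h.2)]
      · rw [ind_of_not hx]
        symm
        exact Finset.sum_eq_zero fun s _ => ind_of_not fun h => hx h.1
    exact S_congr w μ (fun k => this _) (fun j => this _)
  have h5 := Finset.sum_nonpos fun s (_ : s ∈ Finset.range q) => h3 s
  have h6 := e.one_eq
  have h7 := e.neg_nonneg
  omega

/-- **The exceptional case does not occur.** -/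
theorem Exc.false [hp : (relations g).IsPrime] (e : Exc w μ g L₁ L₂) : False := by
  classical
  have hl₁ := e.pair.e₁.pos e.hX
  have hl₂ := e.pair.e₂.pos e.hX
  have hneg : 0 < neg w μ L₁ := by
    have h1 := two_le_S_pos e.hX hl₁
    have h2 := e.pos_eq
    omega
  -- a variable with `L₁ = -1` and the largest `L₂`
  obtain ⟨k₁, hk₁⟩ : ∃ k, L₁ (w k) = -1 := by
    have h1 := hneg
    rw [neg, S_ind'] at h1
    have h2 : 0 < (Finset.univ.filter fun k => L₁ (w k) < 0).card := by omega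
    obtain ⟨k, hk⟩ := Finset.card_pos.mp h2
    have h3 := (Finset.mem_filter.mp hk).2
    have h4 := e.neg_one_le k
    exact ⟨k, by omega⟩
  obtain ⟨k₀, hk₀, hmax⟩ := Finset.exists_max_image
    (Finset.univ.filter fun k => L₁ (w k) = -1) (fun k => L₂ (w k))
    ⟨k₁, Finset.mem_filter.mpr ⟨Finset.mem_univ _, hk₁⟩⟩
  have hk₀' : L₁ (w k₀) = -1 := (Finset.mem_filter.mp hk₀).2
  have hmax' : ∀ k, L₁ (w k) = -1 → L₂ (w k) ≤ L₂ (w k₀) := fun k hk =>
    hmax k (Finset.mem_filter.mpr ⟨Finset.mem_univ _, hk⟩)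
  set b := L₂ (w k₀) with hb
  have hb2 : 2 ≤ b := by
    have := e.big₂ k₀ (Dl_pos_of_nonpos hl₁ hl₂ (e.pair.pos_var e.hX k₀) (by omega)).le
    omega
  obtain ⟨t, v, G, hG, htk₀, hv, htv, ht⟩ := exists_functional L₁ L₂ (w k₀) hk₀'
    fun x h1 h2 => e.pair.eq_zero e.hX h1 h2
  rw [← hb] at ht
  have hsurj : Function.Surjective t := fun x => ⟨x • v, by
    rw [map_zsmul, htv, smul_eq_mul, mul_one]⟩
  obtain ⟨i, hi, hi'⟩ := e.unique
  have hti : t (w i) = 1 := by
    refine e.primitive hi hi' t v hv htv ?_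
    have h1 := ht (w i)
    rw [hi, mul_zero, add_zero] at h1
    have h2 := e.two_le_L₂ hi
    by_contra hcon
    have := mul_nonpos_of_nonneg_of_nonpos hG.le (not_lt.mp hcon)
    omega
  -- `G ≤ b + 1`
  have htκ := ht (anticanonical w μ)
  rw [e.one₁, e.one₂] at htκ
  have htκ1 : 1 ≤ t (anticanonical w μ) := by
    by_contra hcon
    have := mul_nonpos_of_nonneg_of_nonpos hG.le (show t (anticanonical w μ) ≤ 0 by omega)
    omega
  have hGb : G ≤ b + 1 := by nlinarith
  -- the base point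
  let y : Fin r → ℂ := Pi.single k₀ 1
  have hyk : ∀ k, y k ≠ 0 → k = k₀ := by
    intro k hk
    by_contra hne
    exact hk (Pi.single_eq_of_ne hne _)
  have hy : IsZero g y := by
    intro j
    apply eval_eq_zero
    intro n hn
    by_contra hcon
    push Not at hcon
    have h1 : L₁ (Finsupp.weight w n) ≤ 0 := weight_nonpos fun k hk => by
      rw [hyk k (hcon k hk)]
      omega
    rw [e.hX.homogeneous j (mem_support_iff.mp hn)] at h1
    have := e.L₁_pos j
    omega
  have hS : ∀ d : ℕ, 2 ≤ d → S w μ (ind fun x => 0 < L₁ x ∧ (d : ℤ) ∣ t x) ≤ 0 := by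
    intro d hd
    by_contra hcon
    obtain ⟨z, hz, hzy, k, hk, hzk⟩ := exists_zero_of_S_pos e.hX hy
      (fun x => 0 < L₁ x ∧ (d : ℤ) ∣ t x) (fun k hk => by
        by_contra hcon
        rw [hyk k hcon] at hk
        omega) (by
        rintro j n hn hn' -
        refine ⟨e.L₁_pos j, ?_⟩
        rw [← hn]
        refine weight_dvd fun i hi => ?_
        rcases hn' i hi with h4 | h4
        · rw [hyk i h4, htk₀]
          exact dvd_zero _
        · exact h4.2) (not_le.mp hcon)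
    refine not_dvd e.hX hsurj hd hz (e.pair.e₁.wall z hz ⟨k₀, ?_, by omega⟩
      ⟨k, hzk, hk.1⟩) ?_
    · rw [hzy k₀ fun h4 => by omega]
      show (Pi.single k₀ (1 : ℂ) : Fin r → ℂ) k₀ ≠ 0
      rw [Pi.single_eq_same]
      exact one_ne_zero
    · intro i hi
      by_cases h4 : 0 < L₁ (w i) ∧ (d : ℤ) ∣ t (w i)
      · exact h4.2
      · rw [hzy i h4] at hi
        rw [hyk i hi, htk₀]
        exact dvd_zero _
  -- positivity of `t`
  have hL₂ : ∀ k, -1 ≤ L₂ (w k) := fun k => e.symm.neg_one_le k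
  have htw : ∀ k, 0 < L₁ (w k) → 0 < t (w k) := by
    intro k hk
    have h1 := ht (w k)
    have h2 := hL₂ k
    by_contra hcon
    have h3 := mul_nonpos_of_nonneg_of_nonpos hG.le (not_lt.mp hcon)
    have h4 : 2 * 1 ≤ b * L₁ (w k) := mul_le_mul hb2 hk (by norm_num) (by omega)
    omega
  have htμ : ∀ j, 0 < L₁ (μ j) → 0 < t (μ j) := by
    intro j hj
    have h1 := ht (μ j)
    have h2 := e.L₂_pos j
    by_contra hcon
    have h3 := mul_nonpos_of_nonneg_of_nonpos hG.le (not_lt.mp hcon)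
    have h4 : 2 * 1 ≤ b * L₁ (μ j) := mul_le_mul hb2 hj (by norm_num) (by omega)
    omega
  -- there is no variable of degree one
  have hone : ∀ k, 0 < L₁ (w k) → t (w k) ≠ 1 := by
    intro k hk h1
    have h2 := ht (w k)
    rw [h1, mul_one] at h2
    have h3 := hL₂ k
    rcases le_or_gt (L₁ (w k)) 1 with h4 | h4
    · have h5 : L₁ (w k) = 1 := by omega
      rw [h5, mul_one] at h2
      rcases le_or_gt (Dl (anticanonical w μ) L₁ L₂ (w k)) 0 with h6 | h6
      · have := e.big₁ k h6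
        omega
      · have := e.big₂ k h6.le
        omega
    · have h5 : b * 2 ≤ b * L₁ (w k) := mul_le_mul_of_nonneg_left (by omega) (by omega)
      have h6 : L₂ (w k) = -1 := by omega
      have h7 : b * 2 = b * L₁ (w k) := by omega
      have h8 : L₁ (w k) = 2 := by
        have := mul_left_cancel₀ (show b ≠ 0 by omega) h7
        omega
      have h9 : b = 2 := by omega
      refine e.nosec k₀ k ?_
      have h10 : w k₀ + w k - anticanonical w μ = 0 := by
        apply e.pair.eq_zero e.hX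
        · rw [map_sub, map_add, hk₀', h8, e.one₁]
          norm_num
        · rw [map_sub, map_add, ← hb, h9, h6, e.one₂]
          norm_num
      exact sub_eq_zero.mp h10
  -- the count
  obtain ⟨H, hw, hμ⟩ := exists_bound w μ t
  have c1 := S_phi (w := w) (μ := μ) (L := t) (P := fun x => 0 < L₁ x) H
    (fun k hk => ⟨htw k hk, hw k⟩) (fun j hj => ⟨htμ j hj, hμ j⟩)
  have c2 := S_theta (w := w) (μ := μ) (L := t) (P := fun x => 0 < L₁ x) H
    (fun k hk => ⟨htw k hk, hw k⟩) (fun j hj => ⟨htμ j hj, hμ j⟩)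
  have c3 : S w μ (ind fun x => 0 < L₁ x ∧ t x = 1) ≤ 0 := by
    refine S_nonpos_of w μ (fun k => ?_) (fun j => ind_nonneg _ _)
    rw [ind_of_not]
    rintro ⟨h3, h4⟩
    exact hone k h3 h4
  have hterm : ∀ d ∈ Finset.Icc 2 H, theta d *
      S w μ (ind fun x => 0 < L₁ x ∧ (d : ℤ) ∣ t x) ≤ 0 := fun d hd =>
    mul_nonpos_of_nonneg_of_nonpos (theta_nonneg d) (hS d (Finset.mem_Icc.mp hd).1)
  have c4 := Finset.sum_nonpos hterm
  have c5 : t (anticanonical w μ) = S w μ (fun x => ind (fun x => 0 < L₁ x) x * t x) +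
      S w μ (fun x => ind (fun x => ¬ 0 < L₁ x) x * t x) := by
    rw [← S_L, ← S_add]
    have : ∀ x : Fin 2 → ℤ, t x = ind (fun x => 0 < L₁ x) x * t x +
        ind (fun x => ¬ 0 < L₁ x) x * t x := by
      intro x
      by_cases hx : 0 < L₁ x
      · rw [ind_of hx, ind_of_not (not_not.mpr hx)]
        ring
      · rw [ind_of_not hx, ind_of hx]
        ring
    exact S_congr w μ (fun k => this _) (fun j => this _)
  have c6 : S w μ (fun x => ind (fun x => ¬ 0 < L₁ x) x * t x) ≤ 1 := by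
    have h1 := e.zer₁
    rw [zer] at h1
    have h2 : S w μ (fun x => ind (fun x => ¬ 0 < L₁ x) x * t x - ind (fun x => L₁ x = 0) x) ≤
        0 := by
      refine S_nonpos_of w μ (fun k => ?_) (fun j => ?_)
      · rcases lt_trichotomy (L₁ (w k)) 0 with h3 | h3 | h3
        · rw [ind_of (show ¬ 0 < L₁ (w k) by omega), ind_of_not (show ¬ L₁ (w k) = 0 by omega),
            one_mul, sub_zero]
          have h4 : L₁ (w k) = -1 := by
            have := e.neg_one_le k
            omega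
          have h5 := ht (w k)
          have h6 := hmax' k h4
          rw [h4] at h5
          by_contra hcon
          have h7 := mul_pos hG (not_le.mp hcon)
          omega
        · rw [ind_of (show ¬ 0 < L₁ (w k) by omega), ind_of h3, hi' k h3, hti]
          norm_num
        · rw [ind_of_not (show ¬ ¬ 0 < L₁ (w k) from not_not.mpr h3),
            ind_of_not (show ¬ L₁ (w k) = 0 by omega)]
          norm_num
      · have h3 := e.L₁_pos j
        rw [ind_of_not (show ¬ ¬ 0 < L₁ (μ j) from not_not.mpr h3),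
          ind_of_not (show ¬ L₁ (μ j) = 0 by omega)]
        norm_num
    rw [S_sub] at h2
    omega
  have c7 : ∑ d ∈ Finset.Icc 2 H, theta d *
      S w μ (ind fun x => 0 < L₁ x ∧ (d : ℤ) ∣ t x) = 0 := by omega
  have c8 : ∀ d ∈ Finset.Icc 2 H, S w μ (ind fun x => 0 < L₁ x ∧ (d : ℤ) ∣ t x) = 0 := by
    intro d hd
    have h8 := (Finset.sum_eq_zero_iff_of_nonpos hterm).mp c7 d hd
    have h9 := theta_pos d (Finset.mem_Icc.mp hd).1
    rcases mul_eq_zero.mp h8 with h10 | h10
    · omega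
    · exact h10
  rw [Finset.sum_eq_zero fun d hd => by rw [c8 d hd, mul_zero], add_zero, e.pos_eq] at c1
  omega

/-- **Theorem**, for minimal presentations. -/
theorem not_fail [hp : (relations g).IsPrime] (hX : IsFanoCompleteIntersection w μ g)
    (hmin : ∀ j k, coeff (Finsupp.single k 1) (g j) = 0) :
    ¬ Fail w (anticanonical w μ) := by
  intro hα
  obtain ⟨L₁, L₂, h⟩ := exists_pair hX
  exact (exc_of_not_le hX h hα hmin).false

end Pool.Agent.CID
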