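import Pool.Agent.CID.CT3
import Pool.Agent.CID.Ineq

/-!
# Families of fibres
-/

set_option autoImplicit false

open MvPolynomial

namespace Pool.Agent.CID

open Pool.Agent.CIC

variable {r c : ℕ} {w : Fin r → (Fin 2 → ℤ)} {μ : Fin c → (Fin 2 → ℤ)}
  {g : Fin c → MvPolynomial (Fin r) ℂ} {L L₁ L₂ : (Fin 2 → ℤ) →+ ℤ}

section

variable (w L) (d : ℕ)

/-- The variables of degree zero. -/
abbrev Sg : Type := {i : Fin r // L (w i) = 0}

/-- The variables whose degree is a positive multiple of `d`. -/
abbrev Ta : Type := {i : Fin r // 0 < L (w i) ∧ (d : ℤ) ∣ L (w i)}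

/-- The substitution. -/
noncomputable def sub (i : Fin r) : MvPolynomial (Sg w L ⊕ Ta w L d) ℂ :=
  if h : L (w i) = 0 then X (Sum.inl ⟨i, h⟩)
  else if h : 0 < L (w i) ∧ (d : ℤ) ∣ L (w i) then X (Sum.inr ⟨i, h⟩) else 0

/-- The substitution. -/
noncomputable def sub₀ (i : Fin r) : MvPolynomial (Sg w L) ℂ :=
  if h : L (w i) = 0 then X ⟨i, h⟩ else 0

/-- The point. -/
noncomputable def pt (u : Sg w L → ℂ) (v : Ta w L d → ℂ) (i : Fin r) : ℂ :=
  if h : L (w i) = 0 then u ⟨i, h⟩
  else if h : 0 < L (w i) ∧ (d : ℤ) ∣ L (w i) then v ⟨i, h⟩ else 0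

variable {w L d}

theorem eval_sub (u : Sg w L → ℂ) (v : Ta w L d → ℂ) (p : MvPolynomial (Fin r) ℂ) :
    eval (Sum.elim u v) (bind₁ (sub w L d) p) = eval (pt w L d u v) p := by
  have h1 : (aeval (Sum.elim u v) : MvPolynomial (Sg w L ⊕ Ta w L d) ℂ →ₐ[ℂ] ℂ).comp
      (bind₁ (sub w L d)) = (aeval (pt w L d u v) : MvPolynomial (Fin r) ℂ →ₐ[ℂ] ℂ) := by
    apply MvPolynomial.algHom_ext
    intro i
    rw [AlgHom.comp_apply, bind₁_X_right, aeval_X]
    unfold sub pt
    split_ifs with h h'
    · rw [aeval_X, Sum.elim_inl]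
    · rw [aeval_X, Sum.elim_inr]
    · rw [map_zero]
  have h2 := DFunLike.congr_fun h1 p
  simpa [MvPolynomial.aeval_eq_eval] using h2

theorem eval_sub₀ (u : Sg w L → ℂ) (p : MvPolynomial (Fin r) ℂ) :
    eval u (bind₁ (sub₀ w L) p) = eval (pt w L d u 0) p := by
  have h1 : (aeval u : MvPolynomial (Sg w L) ℂ →ₐ[ℂ] ℂ).comp
      (bind₁ (sub₀ w L)) = (aeval (pt w L d u 0) : MvPolynomial (Fin r) ℂ →ₐ[ℂ] ℂ) := by
    apply MvPolynomial.algHom_ext
    intro i
    rw [AlgHom.comp_apply, bind₁_X_right, aeval_X]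
    unfold sub₀ pt
    split_ifs with h h'
    · rw [aeval_X]
    · rw [map_zero, Pi.zero_apply]
    · rw [map_zero]
  have h2 := DFunLike.congr_fun h1 p
  simpa [MvPolynomial.aeval_eq_eval] using h2

theorem homogeneous_sub {p : MvPolynomial (Fin r) ℂ} {m : Fin 2 → ℤ}
    (hp : IsWeightedHomogeneous w p m) :
    IsWeightedHomogeneous (wt (Sg w L) fun k : Ta w L d => (L (w k)).toNat)
      (bind₁ (sub w L d) p) (L m).toNat := by
  classical
  rw [show bind₁ (sub w L d) p = ∑ n ∈ p.support, C (coeff n p) * ∏ i, sub w L d i ^ n i by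
    rw [bind₁, aeval_def, eval₂_eq']
    rfl]
  rw [← mem_weightedHomogeneousSubmodule]
  refine Submodule.sum_mem _ fun n hn => ?_
  rw [mem_weightedHomogeneousSubmodule]
  by_cases hs : ∀ i, n i ≠ 0 → L (w i) = 0 ∨ (0 < L (w i) ∧ (d : ℤ) ∣ L (w i))
  · have h1 : IsWeightedHomogeneous (wt (Sg w L) fun k : Ta w L d => (L (w k)).toNat)
        (∏ i, sub w L d i ^ n i) (∑ i, n i * (L (w i)).toNat) := by
      refine IsWeightedHomogeneous.prod _ _ _ fun i _ => ?_
      by_cases hi : n i = 0
      · rw [hi, pow_zero, zero_mul]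
        exact isWeightedHomogeneous_one _ _
      · rw [← smul_eq_mul]
        refine IsWeightedHomogeneous.pow ?_ _
        unfold sub
        split_ifs with h h'
        · have := isWeightedHomogeneous_X ℂ
            (wt (Sg w L) fun k : Ta w L d => (L (w k)).toNat) (Sum.inl ⟨i, h⟩)
          rw [h]
          exact this
        · exact isWeightedHomogeneous_X ℂ
            (wt (Sg w L) fun k : Ta w L d => (L (w k)).toNat) (Sum.inr ⟨i, h'⟩)
        · exact absurd (hs i hi) (by push Not; exact ⟨h, fun h1 h2 => h' ⟨h1, h2⟩⟩)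
    have h2 : (∑ i, n i * (L (w i)).toNat) = (L m).toNat := by
      have h3 : ((∑ i, n i * (L (w i)).toNat : ℕ) : ℤ) = L m := by
        rw [← hp (mem_support_iff.mp hn), L_weight]
        push_cast
        refine Finset.sum_congr rfl fun i _ => ?_
        by_cases hi : n i = 0
        · rw [hi]; simp
        · rcases hs i hi with h4 | h4
          · rw [h4]; simp
          · rw [Int.toNat_of_nonneg h4.1.le]
      omega
    rw [h2] at h1
    have h3 := (isWeightedHomogeneous_C
      (wt (Sg w L) fun k : Ta w L d => (L (w k)).toNat) (coeff n p)).mul h1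
    rwa [zero_add] at h3
  · push Not at hs
    obtain ⟨i, hi, h1, h2⟩ := hs
    have h3 : sub w L d i = 0 := by
      unfold sub
      rw [dif_neg h1, dif_neg fun h => h2 h.1 h.2]
    rw [Finset.prod_eq_zero (Finset.mem_univ i) (by rw [h3, zero_pow hi]), mul_zero]
    exact isWeightedHomogeneous_zero _ _ _

end

/-- **Families.** Let `d ≥ 2`. If there is a nonzero zero supported on the variables with `D ≤ 0`
and `d ∣ L₁`, then `n_d ≤ 1 - (z₁ - t₁)`, if this is negative. -/
theorem S_family (hX : IsFanoCompleteIntersection w μ g) (h : Pair w μ g L₁ L₂) (d : ℕ)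
    (hd : 2 ≤ d) (ha : ¬ TypeB w μ g L₁ L₂ d) (hz : 0 < S w μ (ind fun x => L₁ x = 0)) :
    S w μ (ind fun x => 0 < L₁ x ∧ (d : ℤ) ∣ L₁ x) ≤ 1 - S w μ (ind fun x => L₁ x = 0) := by
  classical
  unfold TypeB at ha
  push Not at ha
  obtain ⟨z, hz0, hzs, i₀, hi₀⟩ := ha
  have hl₁ := h.e₁.pos hX
  have hl₂ := h.e₂.pos hX
  have s₀ := S_ind' w μ fun x => L₁ x = 0
  have s₁ := S_ind' w μ fun x => 0 < L₁ x ∧ (d : ℤ) ∣ L₁ x
  set J₀ := Finset.univ.filter fun j => L₁ (μ j) = 0 with hJ₀
  set J₁ := Finset.univ.filter fun j => 0 < L₁ (μ j) ∧ (d : ℤ) ∣ L₁ (μ j) with hJ₁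
  let e₀ := J₀.equivFin
  let e₁ := J₁.equivFin
  have hσ : Fintype.card (Sg w L₁) = (Finset.univ.filter fun k => L₁ (w k) = 0).card := by
    rw [Fintype.card_subtype]
  have hτ : Fintype.card (Ta w L₁ d) =
      (Finset.univ.filter fun k => 0 < L₁ (w k) ∧ (d : ℤ) ∣ L₁ (w k)).card := by
    rw [Fintype.card_subtype]
  have key := card_le (σ := Sg w L₁) (τ := Ta w L₁ d) (t := J₀.card) (e := J₁.card)
    (fun l => bind₁ (sub₀ w L₁) (g (e₀.symm l))) (fun l => by
      rw [eval_sub₀ (d := d)]
      have h1 : pt w L₁ d (0 : Sg w L₁ → ℂ) 0 = 0 := by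
        ext i
        unfold pt
        split_ifs <;> rfl
      rw [h1]
      exact isZero_zero hX _)
    (fun j => bind₁ (sub w L₁ d) (g (e₁.symm j))) (fun k => (L₁ (w k)).toNat)
    (fun k => by
      have := k.2.1
      omega) (fun j => (L₁ (μ (e₁.symm j))).toNat) (fun j => by
      have := (Finset.mem_filter.mp (e₁.symm j).2).2.1
      omega) (fun j => homogeneous_sub (hX.homogeneous _)) (by
      intro u v hu hv
      by_contra hcon
      push Not at hcon
      obtain ⟨hu0, hv0⟩ := hcon
      obtain ⟨i, hi⟩ : ∃ i, u i ≠ 0 := by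
        by_contra hcon
        push Not at hcon
        exact hu0 (funext hcon)
      obtain ⟨k, hk⟩ : ∃ k, v k ≠ 0 := by
        by_contra hcon
        push Not at hcon
        exact hv0 (funext hcon)
      have hsupp : ∀ i, pt w L₁ d u v i ≠ 0 → L₁ (w i) = 0 ∨
          (0 < L₁ (w i) ∧ (d : ℤ) ∣ L₁ (w i)) := by
        intro i hi
        by_contra hcon
        push Not at hcon
        apply hi
        unfold pt
        rw [dif_neg hcon.1, dif_neg fun h => hcon.2 h.1 h.2]
      have hsupp₀ : ∀ i, pt w L₁ d u 0 i ≠ 0 → L₁ (w i) = 0 := by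
        intro i hi
        by_contra hcon
        apply hi
        unfold pt
        rw [dif_neg hcon]
        split_ifs <;> rfl
      have hpos : ∀ i, L₁ (w i) < 0 → pt w L₁ d u v i = 0 := by
        intro i hi
        by_contra hcon
        rcases hsupp i hcon with h4 | h4
        · omega
        · omega
      have hzero : IsZero g (pt w L₁ d u v) := by
        intro j
        rcases lt_trichotomy (L₁ (μ j)) 0 with hj | hj | hj
        · exact eval_neg (hX.homogeneous j) hj hpos
        · rw [eval_zero (hX.homogeneous j) hj hpos hsupp₀ (fun i hi => by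
            unfold pt
            rw [dif_pos hi, dif_pos hi])]
          have h5 := hu (e₀ ⟨j, Finset.mem_filter.mpr ⟨Finset.mem_univ _, hj⟩⟩)
          rw [eval_sub₀ (d := d), Equiv.symm_apply_apply] at h5
          exact h5
        · by_cases hdj : (d : ℤ) ∣ L₁ (μ j)
          · have h5 := hv (e₁ ⟨j, Finset.mem_filter.mpr ⟨Finset.mem_univ _, hj, hdj⟩⟩)
            rw [eval_sub, Equiv.symm_apply_apply] at h5
            exact h5
          · apply eval_eq_zero
            intro n hn
            by_contra hcon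
            push Not at hcon
            apply hdj
            rw [← hX.homogeneous j (mem_support_iff.mp hn)]
            refine weight_dvd fun i hi => ?_
            rcases hsupp i (hcon i hi) with h4 | h4
            · rw [h4]
              exact dvd_zero _
            · exact h4.2
      refine not_dvd hX h.e₁.surj hd hzero (h.e₁.wall _ hzero ⟨i, ?_, i.2.le⟩
        ⟨k, ?_, k.2.1⟩) ?_
      · unfold pt
        rw [dif_pos i.2]
        exact hi
      · unfold pt
        have : ¬ L₁ (w k) = 0 := by
          have := k.2.1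
          omega
        rw [dif_neg this, dif_pos k.2]
        exact hk
      · intro i hi
        rcases hsupp i hi with h4 | h4
        · rw [h4]
          exact dvd_zero _
        · exact h4.2) (by
      refine ⟨fun k => z k, ?_, fun j => ?_⟩
      · intro h0
        have h5 := hzs i₀ hi₀
        have h6 := pos_one_of_Dl_nonpos hl₁ hl₂ (h.pos_var hX i₀) h5.1
        exact hi₀ (congrFun h0 ⟨i₀, h6, h5.2⟩)
      · rw [eval_sub]
        have h7 : pt w L₁ d (0 : Sg w L₁ → ℂ) (fun k => z k) = z := by
          ext i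
          unfold pt
          split_ifs with h8 h9
          · rw [Pi.zero_apply]
            symm
            by_contra hcon
            have h5 := hzs i hcon
            have h6 := pos_one_of_Dl_nonpos hl₁ hl₂ (h.pos_var hX i) h5.1
            omega
          · rfl
          · symm
            by_contra hcon
            have h5 := hzs i hcon
            exact h9 ⟨pos_one_of_Dl_nonpos hl₁ hl₂ (h.pos_var hX i) h5.1, h5.2⟩
        rw [h7]
        exact hz0 _) (by
      rw [hσ]
      omega)
  rw [hσ, hτ] at key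
  omega

end Pool.Agent.CID
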