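import Pool.Agent.CID.Ineq

/-!
# A matching between variables and equations
-/

set_option autoImplicit false

open MvPolynomial

namespace Pool.Agent.CID

open Pool.Agent.CIC

variable {r c : ℕ} {w : Fin r → (Fin 2 → ℤ)} {μ : Fin c → (Fin 2 → ℤ)}
  {g : Fin c → MvPolynomial (Fin r) ℂ} {L L₁ L₂ : (Fin 2 → ℤ) →+ ℤ}

/-- The variables between `κ` and the line of `L₂` can be matched with equations. -/
theorem exists_injection (hX : IsFanoCompleteIntersection w μ g) (h : Pair w μ g L₁ L₂) :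
    ∃ F : {k // Dl (anticanonical w μ) L₁ L₂ (w k) < 0 ∧ 0 < L₂ (w k)} → Fin c,
      Function.Injective F ∧ ∀ k, (Dl (anticanonical w μ) L₁ L₂ (μ (F k)) < 0 ∧
        0 < L₂ (μ (F k))) ∧ ∃ n ∈ (g (F k)).support, n k ≠ 0 ∧
          ∀ i, n i ≠ 0 → Dl (anticanonical w μ) L₁ L₂ (w i) < 0 := by
  classical
  obtain ⟨y, hy, -⟩ := h.e₂.isRay hX
  have hl₁ := h.e₁.pos hX
  have hl₂ := h.e₂.pos hX
  set D := Dl (anticanonical w μ) L₁ L₂ with hD
  have hyD : ∀ i, y i ≠ 0 → D (w i) < 0 := fun i hi =>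
    Dl_neg_of_nonpos hl₁ hl₂ (h.pos_var hX i) (hy.supp i hi).le
  let t : {k // D (w k) < 0 ∧ 0 < L₂ (w k)} → Finset (Fin c) := fun k =>
    Finset.univ.filter fun j => (D (μ j) < 0 ∧ 0 < L₂ (μ j)) ∧ ∃ n ∈ (g j).support, n k ≠ 0 ∧
      ∀ i, n i ≠ 0 → D (w i) < 0
  have key : ∀ s : Finset {k // D (w k) < 0 ∧ 0 < L₂ (w k)}, s.card ≤ (s.biUnion t).card := by
    intro s
    by_contra hcon
    rw [not_le] at hcon
    let Q : Finset (Fin r) := s.map ⟨Subtype.val, Subtype.val_injective⟩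
    have hQ' : ∀ k ∈ Q, ∃ hk : D (w k) < 0 ∧ 0 < L₂ (w k), (⟨k, hk⟩ :
        {k // D (w k) < 0 ∧ 0 < L₂ (w k)}) ∈ s := by
      intro k hk
      obtain ⟨a, ha, rfl⟩ := Finset.mem_map.mp hk
      exact ⟨a.2, ha⟩
    have hQ : ∀ k ∈ Q, y k = 0 := fun k hk => by
      obtain ⟨hk', -⟩ := hQ' k hk
      exact y_pos hy k hk'.2
    obtain ⟨z, hz, hzy, i, hi, hzi⟩ := exists_zero hy.zero Q hQ (s.biUnion t) (by
      intro z hz j hj
      rw [← hy.zero j]
      refine eval_eq_eval hz fun n hn hn' i hi => ?_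
      by_contra hni
      apply hj
      obtain ⟨hi', his⟩ := hQ' i hi
      rw [Finset.mem_biUnion]
      refine ⟨⟨i, hi'⟩, his, Finset.mem_filter.mpr ⟨Finset.mem_univ _, ?_, n, hn, hni, ?_⟩⟩
      · have h3 : Finsupp.weight w n = μ j := hX.homogeneous j (mem_support_iff.mp hn)
        rw [← h3]
        refine ⟨weight_neg (fun i hi => ?_) ⟨i, hni, hi'.1⟩, weight_pos (fun i hi => ?_)
          ⟨i, hni, hi'.2⟩⟩
        · rcases hn' i hi with h4 | h4
          · exact (hyD i h4).le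
          · obtain ⟨h5, -⟩ := hQ' i h4
            exact h5.1.le
        · rcases hn' i hi with h4 | h4
          · exact (hy.supp i h4).ge
          · obtain ⟨h5, -⟩ := hQ' i h4
            exact h5.2.le
      · intro i hi
        rcases hn' i hi with h4 | h4
        · exact hyD i h4
        · obtain ⟨h5, -⟩ := hQ' i h4
          exact h5.1) (by rw [Finset.card_map]; exact hcon)
    obtain ⟨hi', -⟩ := hQ' i hi
    refine not_semistable' hX h (z := z) ?_ (hy.semistable z ⟨hz, fun i hi => ?_, fun i hi => ?_,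
      i, hi'.2, hzi⟩)
    · intro i hi
      by_cases h4 : i ∈ Q
      · obtain ⟨h5, -⟩ := hQ' i h4
        exact h5.1
      · rw [hzy i h4] at hi
        exact hyD i hi
    · refine hzy i fun h4 => ?_
      obtain ⟨h5, -⟩ := hQ' i h4
      omega
    · rw [hzy i fun h4 => by
        obtain ⟨h5, -⟩ := hQ' i h4
        omega]
      exact y_neg hy i hi
  obtain ⟨F, hF, hF'⟩ := (Finset.all_card_le_biUnion_card_iff_exists_injective t).mp key
  exact ⟨F, hF, fun k => (Finset.mem_filter.mp (hF' k)).2⟩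

/-- If no equation has a linear monomial, then the sum of the degrees of the equations between
`κ` and the line of `L₂` is larger than that of the variables. -/
theorem S_lt (hX : IsFanoCompleteIntersection w μ g) (h : Pair w μ g L₁ L₂)
    (hmin : ∀ j k, coeff (Finsupp.single k 1) (g j) = 0)
    (hk : ∃ k, Dl (anticanonical w μ) L₁ L₂ (w k) < 0 ∧ 0 < L₂ (w k)) :
    S w μ (fun x => ind (fun x => Dl (anticanonical w μ) L₁ L₂ x < 0 ∧ 0 < L₂ x) x * L₁ x) <
      0 := by
  classical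
  have hl₁ := h.e₁.pos hX
  have hl₂ := h.e₂.pos hX
  set D := Dl (anticanonical w μ) L₁ L₂ with hD
  obtain ⟨F, hF, hF'⟩ : ∃ F : {k // D (w k) < 0 ∧ 0 < L₂ (w k)} → Fin c,
      Function.Injective F ∧ ∀ k, (D (μ (F k)) < 0 ∧
        0 < L₂ (μ (F k))) ∧ ∃ n ∈ (g (F k)).support, n k ≠ 0 ∧
          ∀ i, n i ≠ 0 → D (w i) < 0 := exists_injection hX h
  have hw : ∀ i, D (w i) < 0 → 0 < L₁ (w i) := fun i hi =>
    pos_one_of_Dl_nonpos hl₁ hl₂ (h.pos_var hX i) hi.le
  have hμ : ∀ j, D (μ j) < 0 → 0 < L₁ (μ j) := fun j hj =>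
    pos_one_of_Dl_nonpos hl₁ hl₂ (h.pos_eq hX j) hj.le
  have hlt : ∀ k, L₁ (w (k : {k // D (w k) < 0 ∧ 0 < L₂ (w k)}).1) < L₁ (μ (F k)) := by
    intro k
    obtain ⟨-, n, hn, hnk, hn'⟩ := hF' k
    rw [← hX.homogeneous _ (mem_support_iff.mp hn)]
    have hsplit : Finsupp.weight w n = Finsupp.weight w (n - Finsupp.single k.1 1) + w k.1 := by
      have h5 : n = (n - Finsupp.single k.1 1) + Finsupp.single k.1 1 := by
        ext i
        rw [Finsupp.add_apply, Finsupp.tsub_apply, Finsupp.single_apply]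
        by_cases hik : k.1 = i
        · subst hik
          rw [if_pos rfl]
          omega
        · rw [if_neg hik]
          omega
      conv_lhs => rw [h5]
      rw [map_add, Finsupp.weight_single, one_smul]
    rw [hsplit, map_add]
    have h6 : 0 < L₁ (Finsupp.weight w (n - Finsupp.single k.1 1)) := by
      have h7 : ∀ i, (n - Finsupp.single k.1 1 : Fin r →₀ ℕ) i ≠ 0 → 0 < L₁ (w i) := by
        intro i hi
        refine hw i (hn' i ?_)
        rw [Finsupp.tsub_apply] at hi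
        omega
      refine weight_pos (fun i hi => (h7 i hi).le) ?_
      by_contra hcon
      push Not at hcon
      have h8 : n - Finsupp.single k.1 1 = 0 := by
        ext i
        rw [Finsupp.zero_apply]
        by_contra h9
        have := hcon i h9
        have := h7 i h9
        omega
      have h9 : n = Finsupp.single k.1 1 := by
        ext i
        have h10 := DFunLike.congr_fun h8 i
        rw [Finsupp.tsub_apply, Finsupp.zero_apply] at h10
        rw [Finsupp.single_apply] at h10 ⊢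
        by_cases hik : k.1 = i
        · rw [if_pos hik] at h10 ⊢
          rw [hik] at hnk
          omega
        · rw [if_neg hik] at h10 ⊢
          omega
      rw [h9, mem_support_iff] at hn
      exact hn (hmin _ _)
    omega
  unfold S
  have e1 : ∑ k, ind (fun x => D x < 0 ∧ 0 < L₂ x) (w k) * L₁ (w k) =
      ∑ k : {k // D (w k) < 0 ∧ 0 < L₂ (w k)}, L₁ (w k) := by
    rw [← Finset.sum_subtype (Finset.univ.filter (fun k => D (w k) < 0 ∧ 0 < L₂ (w k)))
      (fun k => by simp) (fun k => L₁ (w k)), Finset.sum_filter]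
    refine Finset.sum_congr rfl fun k _ => ?_
    unfold ind
    split_ifs <;> simp
  have e2 : ∑ j, ind (fun x => D x < 0 ∧ 0 < L₂ x) (μ j) * L₁ (μ j) =
      ∑ j ∈ Finset.univ.filter (fun j => D (μ j) < 0 ∧ 0 < L₂ (μ j)), L₁ (μ j) := by
    rw [Finset.sum_filter]
    refine Finset.sum_congr rfl fun k _ => ?_
    unfold ind
    split_ifs <;> simp
  have e3 : ∑ k : {k // D (w k) < 0 ∧ 0 < L₂ (w k)}, L₁ (w k) <
      ∑ j ∈ Finset.univ.filter (fun j => D (μ j) < 0 ∧ 0 < L₂ (μ j)), L₁ (μ j) := by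
    obtain ⟨k, hk⟩ := hk
    calc ∑ k : {k // D (w k) < 0 ∧ 0 < L₂ (w k)}, L₁ (w k)
        < ∑ k : {k // D (w k) < 0 ∧ 0 < L₂ (w k)}, L₁ (μ (F k)) :=
          Finset.sum_lt_sum (fun k _ => (hlt k).le) ⟨⟨k, hk⟩, Finset.mem_univ _, hlt _⟩
      _ = ∑ j ∈ Finset.univ.image F, L₁ (μ j) :=
          (Finset.sum_image (f := fun j => L₁ (μ j)) fun a _ b _ h => hF h).symm
      _ ≤ ∑ j ∈ Finset.univ.filter (fun j => D (μ j) < 0 ∧ 0 < L₂ (μ j)), L₁ (μ j) := by
          refine Finset.sum_le_sum_of_subset_of_nonneg ?_ ?_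
          · intro j hj
            obtain ⟨k, -, rfl⟩ := Finset.mem_image.mp hj
            exact Finset.mem_filter.mpr ⟨Finset.mem_univ _, (hF' k).1⟩
          · intro j hj _
            exact (hμ j (Finset.mem_filter.mp hj).2.1).le
  show ∑ k, ind (fun x => D x < 0 ∧ 0 < L₂ x) (w k) * L₁ (w k) -
    ∑ j, ind (fun x => D x < 0 ∧ 0 < L₂ x) (μ j) * L₁ (μ j) < 0
  rw [e1, e2]
  omega

end Pool.Agent.CID
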