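import Pool.Agent.CID.Family
import Pool.Agent.CID.Matching
import Pool.Agent.CID.Arith2

/-!
# Smooth Fano varieties of Picard number two
-/

set_option autoImplicit false

open scoped ENNReal
open MvPolynomial

namespace Pool.Agent.CID

open Pool.Agent.CIC

variable {r c : ℕ} {w : Fin r → (Fin 2 → ℤ)} {μ : Fin c → (Fin 2 → ℤ)}
  {g : Fin c → MvPolynomial (Fin r) ℂ} {L L₁ L₂ : (Fin 2 → ℤ) →+ ℤ}

/-- The number of variables with `L = 0` minus the number of equations with `L = 0`. -/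
noncomputable def zer (w : Fin r → (Fin 2 → ℤ)) (μ : Fin c → (Fin 2 → ℤ))
    (L : (Fin 2 → ℤ) →+ ℤ) : ℤ := S w μ (ind fun x => L x = 0)

/-- The number of variables with `L < 0` minus the number of equations with `L < 0`. -/
noncomputable def neg (w : Fin r → (Fin 2 → ℤ)) (μ : Fin c → (Fin 2 → ℤ))
    (L : (Fin 2 → ℤ) →+ ℤ) : ℤ := S w μ (ind fun x => L x < 0)

theorem neg_nonneg' (hX : IsFanoCompleteIntersection w μ g) (h : IsEdge w μ g L) :
    0 ≤ neg w μ L := by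
  have h1 := S_neg hX h (fun _ => 1) (fun _ _ => by norm_num) (fun _ _ _ _ => le_rfl)
  rw [S_congr w μ (G := ind fun x => L x < 0) (fun k => mul_one _) (fun j => mul_one _)] at h1
  exact h1

/-- The count on one side. -/
theorem length_le (hX : IsFanoCompleteIntersection w μ g) (h : IsEdge w μ g L) (H : ℕ)
    (hw : ∀ k, L (w k) ≤ H) (hμ : ∀ j, L (μ j) ≤ H) :
    L (anticanonical w μ) ≤ r - c - zer w μ L - 2 * neg w μ L +
      ∑ d ∈ Finset.Icc 2 H, (Nat.totient d : ℤ) *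
        S w μ (ind fun x => 0 < L x ∧ (d : ℤ) ∣ L x) := by
  have h1 := S_phi (w := w) (μ := μ) (L := L) (P := fun x => 0 < L x) H
    (fun k hk => ⟨hk, hw k⟩) (fun j hj => ⟨hj, hμ j⟩)
  have h2 := S_neg hX h (fun t => -t - 1) (fun t ht => by omega) (fun s t h1 _ => by omega)
  have h3 : L (anticanonical w μ) = S w μ (fun x => ind (fun x => 0 < L x) x * L x) -
      S w μ (fun x => ind (fun x => L x < 0) x * (-L x - 1)) - neg w μ L := by
    rw [← S_L, neg, ← S_sub, ← S_sub]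
    have : ∀ x : Fin 2 → ℤ, L x = ind (fun x => 0 < L x) x * L x -
        ind (fun x => L x < 0) x * (-L x - 1) - ind (fun x => L x < 0) x := by
      intro x
      unfold ind
      split_ifs
      · omega
      · omega
      · omega
      · omega
    exact S_congr w μ (fun k => this _) (fun j => this _)
  have h4 : S w μ (ind fun x => 0 < L x) = r - c - zer w μ L - neg w μ L := by
    rw [← S_one w μ, zer, neg, ← S_sub, ← S_sub]
    have : ∀ x : Fin 2 → ℤ, ind (fun x => 0 < L x) x = 1 - ind (fun x => L x = 0) x -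
        ind (fun x => L x < 0) x := by
      intro x
      unfold ind
      split_ifs <;> omega
    exact S_congr w μ (fun k => this _) (fun j => this _)
  rw [h3, h1, h4]
  omega

section

/-- There is a degree of type `(a)`. -/
theorem exists_not_typeB (hX : IsFanoCompleteIntersection w μ g) (h : Pair w μ g L₁ L₂)
    (hα : Fail w (anticanonical w μ)) : ∃ d, 2 ≤ d ∧ ¬ TypeB w μ g L₁ L₂ d := by
  by_contra hcon
  push Not at hcon
  have hl₁ := h.e₁.pos hX
  have hl₂ := h.e₂.pos hX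
  have hfail := lt_of_not_le hX h hα
  set D := Dl (anticanonical w μ) L₁ L₂ with hD
  obtain ⟨H, hw, hμ⟩ := exists_bound w μ L₁
  -- the side beyond `κ`
  have h1 := S_theta (w := w) (μ := μ) (L := L₁) (P := fun x => D x ≤ 0) H
    (fun k hk => ⟨pos_one_of_Dl_nonpos hl₁ hl₂ (h.pos_var hX k) hk, hw k⟩)
    (fun j hj => ⟨pos_one_of_Dl_nonpos hl₁ hl₂ (h.pos_eq hX j) hj, hμ j⟩)
  have h2 : S w μ (ind fun x => D x ≤ 0 ∧ L₁ x = 1) ≤ 0 := by
    refine S_nonpos_of w μ (fun k => ?_) (fun j => ind_nonneg _ _)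
    unfold ind
    rw [if_neg]
    rintro ⟨h3, h4⟩
    have := hfail k h3
    omega
  have h3 : ∑ d ∈ Finset.Icc 2 H, theta d *
      S w μ (ind fun x => D x ≤ 0 ∧ (d : ℤ) ∣ L₁ x) ≤ 0 :=
    Finset.sum_nonpos fun d hd => mul_nonpos_of_nonneg_of_nonpos (theta_nonneg d)
      ((hcon d (Finset.mem_Icc.mp hd).1).S_all hX)
  -- the other side
  have h4 := S_phi (w := w) (μ := μ) (L := L₁) (P := fun x => 0 < D x ∧ 0 < L₁ x) H
    (fun k hk => ⟨hk.2, hw k⟩) (fun j hj => ⟨hj.2, hμ j⟩)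
  have h5 : ∀ d : ℕ, S w μ (ind fun x => (0 < D x ∧ 0 < L₁ x) ∧ (d : ℤ) ∣ L₁ x) ≤ 0 := by
    intro d
    have e := S_side hX h d
    rw [← hD] at e
    simpa only [and_assoc] using e
  have h6 : S w μ (ind fun x => 0 < D x ∧ 0 < L₁ x) ≤ 0 := by
    have e := h5 1
    simpa only [Nat.cast_one, isUnit_one.dvd, and_true] using e
  have h7 : ∑ d ∈ Finset.Icc 2 H, (Nat.totient d : ℤ) *
      S w μ (ind fun x => (0 < D x ∧ 0 < L₁ x) ∧ (d : ℤ) ∣ L₁ x) ≤ 0 :=
    Finset.sum_nonpos fun d _ => mul_nonpos_of_nonneg_of_nonpos (by positivity) (h5 d)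
  have h8 := S_neg hX h.e₁ (fun t => -t) (fun t ht => by omega) (fun s t h1 _ => by omega)
  have h9 : L₁ (anticanonical w μ) = S w μ (fun x => ind (fun x => D x ≤ 0) x * L₁ x) +
      S w μ (fun x => ind (fun x => 0 < D x ∧ 0 < L₁ x) x * L₁ x) -
      S w μ (fun x => ind (fun x => L₁ x < 0) x * (-L₁ x)) := by
    rw [← S_L, ← S_add, ← S_sub]
    have : ∀ x : Fin 2 → ℤ, (0 < L₁ x ∨ 0 < L₂ x) → L₁ x = ind (fun x => D x ≤ 0) x * L₁ x +
        ind (fun x => 0 < D x ∧ 0 < L₁ x) x * L₁ x -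
        ind (fun x => L₁ x < 0) x * (-L₁ x) := by
      intro x hx
      have e1 := Dl_pos_of_nonpos hl₁ hl₂ hx
      rw [← hD] at e1
      unfold ind
      split_ifs <;> omega
    exact S_congr w μ (fun k => this _ (h.pos_var hX k)) (fun j => this _ (h.pos_eq hX j))
  omega

/-- The inequality for one ray. -/
theorem length_add_le (hX : IsFanoCompleteIntersection w μ g) (h : Pair w μ g L₁ L₂)
    (hα : Fail w (anticanonical w μ)) :
    L₁ (anticanonical w μ) + 2 * zer w μ L₁ + 2 * neg w μ L₁ ≤ r - c + 1 := by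
  obtain ⟨d, hd, hd'⟩ := exists_not_typeB hX h hα
  obtain ⟨H₀, hw, hμ⟩ := exists_bound w μ L₁
  have hH : ∀ x : ℤ, x ≤ H₀ → x ≤ ((H₀ + d : ℕ) : ℤ) := fun x hx => by
    push_cast
    omega
  have h1 := length_le hX h.e₁ (H₀ + d) (fun k => hH _ (hw k)) (fun j => hH _ (hμ j))
  have h2 : ∀ d' ∈ Finset.Icc 2 (H₀ + d), (Nat.totient d' : ℤ) *
      S w μ (ind fun x => 0 < L₁ x ∧ (d' : ℤ) ∣ L₁ x) ≤ 0 := fun d' hd' =>
    mul_nonpos_of_nonneg_of_nonpos (by positivity)
      (S_dvd hX h.e₁ d' (Finset.mem_Icc.mp hd').1)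
  have hmem : d ∈ Finset.Icc 2 (H₀ + d) := Finset.mem_Icc.mpr ⟨hd, by omega⟩
  have h3 : ∑ d' ∈ Finset.Icc 2 (H₀ + d), (Nat.totient d' : ℤ) *
      S w μ (ind fun x => 0 < L₁ x ∧ (d' : ℤ) ∣ L₁ x) ≤
      (Nat.totient d : ℤ) * S w μ (ind fun x => 0 < L₁ x ∧ (d : ℤ) ∣ L₁ x) := by
    rw [← Finset.add_sum_erase _ _ hmem]
    have := Finset.sum_nonpos (s := (Finset.Icc 2 (H₀ + d)).erase d)
      fun d' hd' => h2 d' (Finset.mem_of_mem_erase hd')
    omega
  have h4 := S_dvd hX h.e₁ d hd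
  have h5 : (1 : ℤ) ≤ Nat.totient d := by
    have : 0 < Nat.totient d := Nat.totient_pos.mpr (by omega)
    exact_mod_cast this
  have h6 : (Nat.totient d : ℤ) * S w μ (ind fun x => 0 < L₁ x ∧ (d : ℤ) ∣ L₁ x) ≤
      S w μ (ind fun x => 0 < L₁ x ∧ (d : ℤ) ∣ L₁ x) := by nlinarith
  have h7 : S w μ (ind fun x => 0 < L₁ x ∧ (d : ℤ) ∣ L₁ x) ≤ 1 - zer w μ L₁ := by
    by_cases hz : 0 < zer w μ L₁
    · exact S_family hX h d hd hd' hz
    · omega
  omega

end

/-- The count of all degrees. -/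
theorem middle (hX : IsFanoCompleteIntersection w μ g) (h : Pair w μ g L₁ L₂) :
    (r : ℤ) - c = zer w μ L₁ + neg w μ L₁ + (zer w μ L₂ + neg w μ L₂) +
      S w μ (ind fun x => 0 < Dl (anticanonical w μ) L₁ L₂ x ∧ 0 < L₁ x) +
      S w μ (ind fun x => Dl (anticanonical w μ) L₁ L₂ x = 0) +
      S w μ (ind fun x => Dl (anticanonical w μ) L₁ L₂ x < 0 ∧ 0 < L₂ x) := by
  have hl₁ := h.e₁.pos hX
  have hl₂ := h.e₂.pos hX
  set D := Dl (anticanonical w μ) L₁ L₂ with hD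
  rw [← S_one w μ, zer, neg, zer, neg, ← S_add, ← S_add, ← S_add, ← S_add, ← S_add, ← S_add]
  have : ∀ x : Fin 2 → ℤ, (0 < L₁ x ∨ 0 < L₂ x) → 1 =
      ind (fun x => L₁ x = 0) x + ind (fun x => L₁ x < 0) x +
        (ind (fun x => L₂ x = 0) x + ind (fun x => L₂ x < 0) x) +
      ind (fun x => 0 < D x ∧ 0 < L₁ x) x + ind (fun x => D x = 0) x +
      ind (fun x => D x < 0 ∧ 0 < L₂ x) x := by
    intro x hx
    have e1 := Dl_pos_of_nonpos hl₁ hl₂ hx
    have e2 := Dl_neg_of_nonpos hl₁ hl₂ hx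
    rw [← hD] at e1 e2
    unfold ind
    split_ifs <;> omega
  exact S_congr w μ (fun k => this _ (h.pos_var hX k)) (fun j => this _ (h.pos_eq hX j))

theorem S_side' (hX : IsFanoCompleteIntersection w μ g) (h : Pair w μ g L₁ L₂) :
    S w μ (ind fun x => 0 < Dl (anticanonical w μ) L₁ L₂ x ∧ 0 < L₁ x) ≤ 0 := by
  have e := S_side hX h 1
  simpa only [Nat.cast_one, isUnit_one.dvd, and_true] using e

theorem S_side'' (hX : IsFanoCompleteIntersection w μ g) (h : Pair w μ g L₁ L₂) :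
    S w μ (ind fun x => Dl (anticanonical w μ) L₁ L₂ x < 0 ∧ 0 < L₂ x) ≤ 0 := by
  have e := S_side' hX h.symm
  have : ∀ x, ind (fun x => 0 < Dl (anticanonical w μ) L₂ L₁ x ∧ 0 < L₂ x) x =
      ind (fun x => Dl (anticanonical w μ) L₁ L₂ x < 0 ∧ 0 < L₂ x) x := by
    intro x
    have e1 := Dl_symm (anticanonical w μ) L₁ L₂ x
    unfold ind
    split_ifs <;> omega
  rwa [S_congr w μ (fun k => this _) (fun j => this _)] at e

section

/-- **Theorem (B).** -/
theorem length_add_length (hX : IsFanoCompleteIntersection w μ g) (h : Pair w μ g L₁ L₂)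
    (hα : Fail w (anticanonical w μ)) :
    L₁ (anticanonical w μ) + L₂ (anticanonical w μ) ≤ 2 := by
  have h1 := length_add_le hX h hα
  have h2 := length_add_le hX h.symm hα
  have h3 := middle hX h
  have h4 := S_side' hX h
  have h5 := S_side'' hX h
  have h6 := S_line hX h
  omega

end

end Pool.Agent.CID
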