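import Pool.Agent.CID.Final

/-!
# Smooth Fano varieties of Picard number two: minimal presentations
-/

set_option autoImplicit false

open scoped ENNReal
open MvPolynomial

namespace Pool.Agent.CID

open Pool.Agent.CIC

variable {r c : ℕ} {w : Fin r → (Fin 2 → ℤ)} {μ : Fin c → (Fin 2 → ℤ)}
  {g : Fin c → MvPolynomial (Fin r) ℂ} {L L₁ L₂ : (Fin 2 → ℤ) →+ ℤ}

/-- There is a variable of degree one for `L₂`, and it is between `κ` and the line of `L₂`. -/
theorem exists_mid (hX : IsFanoCompleteIntersection w μ g) (h : Pair w μ g L₁ L₂)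
    (hα : Fail w (anticanonical w μ)) :
    ∃ k, Dl (anticanonical w μ) L₁ L₂ (w k) < 0 ∧ 0 < L₂ (w k) := by
  have hl₁ := h.e₁.pos hX
  have hl₂ := h.e₂.pos hX
  have hfail := lt_of_not_le hX h.symm hα
  obtain ⟨H, hw, hμ⟩ := exists_bound w μ L₂
  have h1 := S_theta (w := w) (μ := μ) (L := L₂) (P := fun x => 0 < L₂ x) H
    (fun k hk => ⟨hk, hw k⟩) (fun j hj => ⟨hj, hμ j⟩)
  have h2 : ∑ d ∈ Finset.Icc 2 H, theta d *
      S w μ (ind fun x => 0 < L₂ x ∧ (d : ℤ) ∣ L₂ x) ≤ 0 :=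
    Finset.sum_nonpos fun d hd => mul_nonpos_of_nonneg_of_nonpos (theta_nonneg d)
      (S_dvd hX h.e₂ d (Finset.mem_Icc.mp hd).1)
  have h3 := S_neg hX h.e₂ (fun t => -t) (fun t ht => by omega) (fun s t h1 _ => by omega)
  have h4 : L₂ (anticanonical w μ) = S w μ (fun x => ind (fun x => 0 < L₂ x) x * L₂ x) -
      S w μ (fun x => ind (fun x => L₂ x < 0) x * (-L₂ x)) := by
    rw [← S_L, ← S_sub]
    have : ∀ x : Fin 2 → ℤ, L₂ x = ind (fun x => 0 < L₂ x) x * L₂ x -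
        ind (fun x => L₂ x < 0) x * (-L₂ x) := by
      intro x
      unfold ind
      split_ifs <;> omega
    exact S_congr w μ (fun k => this _) (fun j => this _)
  have h5 : 0 < S w μ (ind fun x => 0 < L₂ x ∧ L₂ x = 1) := by omega
  by_contra hcon
  push Not at hcon
  have h6 : S w μ (ind fun x => 0 < L₂ x ∧ L₂ x = 1) ≤ 0 := by
    refine S_nonpos_of w μ (fun k => ?_) (fun j => ind_nonneg _ _)
    unfold ind
    rw [if_neg]
    rintro ⟨h7, h8⟩
    have h9 : ¬ Dl (anticanonical w μ) L₁ L₂ (w k) < 0 := fun h => by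
      have := hcon k h
      omega
    have h10 := Dl_symm (anticanonical w μ) L₁ L₂ (w k)
    have := hfail k (by omega)
    omega
  omega

/-- **Theorem (C)**, one side. -/
theorem zer_le_one (hX : IsFanoCompleteIntersection w μ g) (h : Pair w μ g L₁ L₂)
    (hα : Fail w (anticanonical w μ))
    (hmin : ∀ j k, coeff (Finsupp.single k 1) (g j) = 0) : zer w μ L₁ ≤ 1 := by
  by_contra hz
  rw [not_le] at hz
  have hl₁ := h.e₁.pos hX
  have hl₂ := h.e₂.pos hX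
  have hfail := lt_of_not_le hX h hα
  have a1 := length_add_le hX h hα
  have a2 := length_add_le hX h.symm hα
  have a3 := middle hX h
  have a4 := S_side' hX h
  have a5 := S_side'' hX h
  have a6 := S_line hX h
  -- all inequalities are equalities
  obtain ⟨d₀, hd₀, hd₀'⟩ := exists_not_typeB hX h hα
  obtain ⟨H₀, hw₀, hμ₀⟩ := exists_bound w μ L₁
  set H := H₀ + d₀ with hH
  have hw : ∀ k, L₁ (w k) ≤ H := fun k => by
    have := hw₀ k
    rw [hH]
    push_cast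
    omega
  have hμ : ∀ j, L₁ (μ j) ≤ H := fun j => by
    have := hμ₀ j
    rw [hH]
    push_cast
    omega
  have b1 := length_le hX h.e₁ H hw hμ
  set n : ℕ → ℤ := fun d => S w μ (ind fun x => 0 < L₁ x ∧ (d : ℤ) ∣ L₁ x) with hn
  have b2 : 1 - zer w μ L₁ ≤ ∑ d ∈ Finset.Icc 2 H, (Nat.totient d : ℤ) * n d := by
    show 1 - zer w μ L₁ ≤ ∑ d ∈ Finset.Icc 2 H, (Nat.totient d : ℤ) *
        S w μ (ind fun x => 0 < L₁ x ∧ (d : ℤ) ∣ L₁ x)
    omega
  have hn0 : ∀ d, 2 ≤ d → n d ≤ 0 := fun d hd => S_dvd hX h.e₁ d hd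
  have hna : ∀ d, 2 ≤ d → ¬ TypeB w μ g L₁ L₂ d → n d ≤ 1 - zer w μ L₁ := fun d hd hd' =>
    S_family hX h d hd hd' (lt_trans one_pos hz)
  have hterm : ∀ d ∈ Finset.Icc 2 H, (Nat.totient d : ℤ) * n d ≤ 0 := fun d hd =>
    mul_nonpos_of_nonneg_of_nonpos (by positivity) (hn0 d (Finset.mem_Icc.mp hd).1)
  have hmem : d₀ ∈ Finset.Icc 2 H := Finset.mem_Icc.mpr ⟨hd₀, by omega⟩
  -- `d₀ = 2`
  have htot : Nat.totient d₀ = 1 := by
    by_contra hne
    have h1 : 0 < Nat.totient d₀ := Nat.totient_pos.mpr (by omega)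
    have h2 : (2 : ℤ) ≤ Nat.totient d₀ := by
      have : 2 ≤ Nat.totient d₀ := by omega
      exact_mod_cast this
    have h3 := hna d₀ hd₀ hd₀'
    have h4 : (Nat.totient d₀ : ℤ) * n d₀ ≤ 2 * n d₀ := by nlinarith
    rw [← Finset.add_sum_erase _ _ hmem] at b2
    have h5 := Finset.sum_nonpos (s := (Finset.Icc 2 H).erase d₀)
      fun d' hd' => hterm d' (Finset.mem_of_mem_erase hd')
    omega
  have hd₂ : d₀ = 2 := by
    rcases Nat.totient_eq_one_iff.mp htot with h1 | h1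
    · omega
    · exact h1
  subst hd₂
  have hn2 := hna 2 le_rfl hd₀'
  have hrest : ∀ d ∈ (Finset.Icc 2 H).erase 2, n d = 0 := by
    intro d hd
    have h1 := Finset.mem_of_mem_erase hd
    have h2 := Finset.mem_Icc.mp h1
    rw [← Finset.add_sum_erase _ _ hmem, ← Finset.add_sum_erase _ _ hd, Nat.totient_two,
      Nat.cast_one, one_mul] at b2
    have h5 := Finset.sum_nonpos (s := ((Finset.Icc 2 H).erase 2).erase d)
      fun d' hd' => hterm d' (Finset.mem_of_mem_erase (Finset.mem_of_mem_erase hd'))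
    have h6 := hterm d h1
    have h7 : (Nat.totient d : ℤ) * n d = 0 := by omega
    rcases mul_eq_zero.mp h7 with h8 | h8
    · have : 0 < Nat.totient d := Nat.totient_pos.mpr (by omega)
      have : Nat.totient d = 0 := by exact_mod_cast h8
      omega
    · exact h8
  have htype : ∀ d ∈ (Finset.Icc 2 H).erase 2, TypeB w μ g L₁ L₂ d := by
    intro d hd
    by_contra hcon
    have h1 := hrest d hd
    have h2 := hna d (Finset.mem_Icc.mp (Finset.mem_of_mem_erase hd)).1 hcon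
    omega
  set D := Dl (anticanonical w μ) L₁ L₂ with hD
  have hN : ∀ d ∈ (Finset.Icc 2 H).erase 2,
      S w μ (ind fun x => (D x < 0 ∧ 0 < L₂ x) ∧ (d : ℤ) ∣ L₁ x) = 0 := by
    intro d hd
    have h1 := hrest d hd
    have h2 : S w μ (ind fun x => D x = 0 ∧ (d : ℤ) ∣ L₁ x) ≤ 0 := (htype d hd).S_line hX
    have h3 : S w μ (ind fun x => D x < 0 ∧ 0 < L₂ x ∧ (d : ℤ) ∣ L₁ x) ≤ 0 :=
      (htype d hd).S_mid hX
    have h4 := (htype d hd).S_far hX h
    have h5 : S w μ (ind fun x => 0 < D x ∧ 0 < L₁ x ∧ (d : ℤ) ∣ L₁ x) ≤ 0 := S_side hX h d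
    have h6 : n d = S w μ (ind fun x => 0 < D x ∧ 0 < L₁ x ∧ (d : ℤ) ∣ L₁ x) +
        S w μ (ind fun x => D x = 0 ∧ (d : ℤ) ∣ L₁ x) +
        S w μ (ind fun x => D x < 0 ∧ 0 < L₂ x ∧ (d : ℤ) ∣ L₁ x) +
        S w μ (ind fun x => L₂ x ≤ 0 ∧ (d : ℤ) ∣ L₁ x) := by
      rw [hn, ← S_add, ← S_add, ← S_add]
      have : ∀ x : Fin 2 → ℤ, (0 < L₁ x ∨ 0 < L₂ x) →
          ind (fun x => 0 < L₁ x ∧ (d : ℤ) ∣ L₁ x) x =
          ind (fun x => 0 < D x ∧ 0 < L₁ x ∧ (d : ℤ) ∣ L₁ x) x +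
          ind (fun x => D x = 0 ∧ (d : ℤ) ∣ L₁ x) x +
          ind (fun x => D x < 0 ∧ 0 < L₂ x ∧ (d : ℤ) ∣ L₁ x) x +
          ind (fun x => L₂ x ≤ 0 ∧ (d : ℤ) ∣ L₁ x) x := by
        intro x hx
        have e1 := Dl_pos_of_nonpos hl₁ hl₂ hx
        have e2 := Dl_neg_of_nonpos hl₁ hl₂ hx
        rw [← hD] at e1 e2
        unfold ind
        by_cases hdx : (d : ℤ) ∣ L₁ x
        · simp only [hdx, and_true]
          split_ifs <;> omega
        · simp only [hdx, and_false, if_false]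
          norm_num
      exact S_congr w μ (fun k => this _ (h.pos_var hX k)) (fun j => this _ (h.pos_eq hX j))
    have h7 : S w μ (ind fun x => (D x < 0 ∧ 0 < L₂ x) ∧ (d : ℤ) ∣ L₁ x) =
        S w μ (ind fun x => D x < 0 ∧ 0 < L₂ x ∧ (d : ℤ) ∣ L₁ x) := by
      simp only [and_assoc]
    omega
  -- the sum of the degrees
  have hP : ∀ k, D (w k) < 0 ∧ 0 < L₂ (w k) → 0 < L₁ (w k) ∧ L₁ (w k) ≤ H := fun k hk =>
    ⟨pos_one_of_Dl_nonpos hl₁ hl₂ (h.pos_var hX k) hk.1.le, hw k⟩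
  have hP' : ∀ j, D (μ j) < 0 ∧ 0 < L₂ (μ j) → 0 < L₁ (μ j) ∧ L₁ (μ j) ≤ H := fun j hj =>
    ⟨pos_one_of_Dl_nonpos hl₁ hl₂ (h.pos_eq hX j) hj.1.le, hμ j⟩
  have c1 := S_phi (w := w) (μ := μ) (L := L₁) (P := fun x => D x < 0 ∧ 0 < L₂ x) H hP hP'
  have c2 := S_theta (w := w) (μ := μ) (L := L₁) (P := fun x => D x < 0 ∧ 0 < L₂ x) H hP hP'
  rw [← Finset.add_sum_erase _ _ hmem, Finset.sum_eq_zero fun d hd => by
    rw [hN d hd, mul_zero]] at c1 c2
  have ht2 : theta 2 = 2 := by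
    unfold theta
    rw [Nat.totient_two, ArithmeticFunction.moebius_apply_prime Nat.prime_two]
    norm_num
  rw [ht2] at c2
  rw [Nat.totient_two, Nat.cast_one, one_mul] at c1
  have c3 : S w μ (ind fun x => (D x < 0 ∧ 0 < L₂ x) ∧ L₁ x = 1) ≤ 0 := by
    refine S_nonpos_of w μ (fun k => ?_) (fun j => ind_nonneg _ _)
    unfold ind
    rw [if_neg]
    rintro ⟨⟨h3, -⟩, h4⟩
    have := hfail k h3.le
    omega
  have c4 : S w μ (fun x => ind (fun x => D x < 0 ∧ 0 < L₂ x) x * L₁ x) < 0 :=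
    S_lt hX h hmin (exists_mid hX h hα)
  omega

/-- **Theorem (C).** -/
theorem exceptional (hX : IsFanoCompleteIntersection w μ g) (h : Pair w μ g L₁ L₂)
    (hα : Fail w (anticanonical w μ))
    (hmin : ∀ j k, coeff (Finsupp.single k 1) (g j) = 0) :
    L₁ (anticanonical w μ) = 1 ∧ L₂ (anticanonical w μ) = 1 ∧ zer w μ L₁ = 1 ∧
      zer w μ L₂ = 1 ∧ (r : ℤ) - c = 2 * (neg w μ L₁ + 1) ∧
        (r : ℤ) - c = 2 * (neg w μ L₂ + 1) := by
  have hl₁ := h.e₁.pos hX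
  have hl₂ := h.e₂.pos hX
  have h1 := zer_le_one hX h hα hmin
  have h2 := zer_le_one hX h.symm hα hmin
  have a1 := length_add_le hX h hα
  have a2 := length_add_le hX h.symm hα
  have a3 := middle hX h
  have a4 := S_side' hX h
  have a5 := S_side'' hX h
  have a6 := S_line hX h
  have key : ∀ L : (Fin 2 → ℤ) →+ ℤ, IsEdge w μ g L → L (anticanonical w μ) ≤
      r - c - zer w μ L - 2 * neg w μ L := by
    intro L hL
    obtain ⟨H, hw, hμ⟩ := exists_bound w μ L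
    have b1 := length_le hX hL H hw hμ
    have b2 : ∑ d ∈ Finset.Icc 2 H, (Nat.totient d : ℤ) *
        S w μ (ind fun x => 0 < L x ∧ (d : ℤ) ∣ L x) ≤ 0 :=
      Finset.sum_nonpos fun d hd => mul_nonpos_of_nonneg_of_nonpos (by positivity)
        (S_dvd hX hL d (Finset.mem_Icc.mp hd).1)
    omega
  have b1 := key L₁ h.e₁
  have b2 := key L₂ h.e₂
  omega

end Pool.Agent.CID
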