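import Pool.Agent.NumGor.DIM

/-!
# Krull's height theorem in terms of transcendence degrees
-/

set_option autoImplicit false

open Cardinal

namespace Pool.Agent.CID

universe u

/-- One element. -/
theorem exists_prime_one (F : Type u) [Field F] (A : Type u) [CommRing A] [IsDomain A]
    [Algebra F A] [Algebra.FiniteType F A] (m : Ideal A) [m.IsPrime] (x : A) (hx : x ∈ m) :
    ∃ q : Ideal A, q.IsPrime ∧ q ≤ m ∧ x ∈ q ∧
      Algebra.trdeg F A ≤ Algebra.trdeg F (A ⧸ q) + 1 := by
  have : IsNoetherianRing A := Algebra.FiniteType.isNoetherianRing F A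
  by_cases hx0 : x = 0
  · refine ⟨⊥, inferInstance, bot_le, by rw [hx0]; exact Ideal.zero_mem _, ?_⟩
    have e := (AlgEquiv.quotientBot F A).trdeg_eq
    rw [e]
    exact le_self_add
  · obtain ⟨q, hq, hqm⟩ := Ideal.exists_minimalPrimes_le (I := Ideal.span {x}) (J := m)
      ((Ideal.span_singleton_le_iff_mem m).mpr hx)
    have hqp : q.IsPrime := hq.1.1
    have hxq : x ∈ q := hq.1.2 (Ideal.mem_span_singleton_self x)
    have h1 : q.height ≤ 1 := Ideal.height_le_one_of_isPrincipal_of_mem_minimalPrimes _ q hq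
    have h0 : q ≠ ⊥ := by
      rintro rfl
      exact hx0 (by simpa using hxq)
    have h2 : q.height = 1 := by
      refine le_antisymm h1 ?_
      rw [Order.one_le_iff_pos, pos_iff_ne_zero, Ne, Ideal.height_eq_zero_iff_eq_bot]
      exact h0
    refine ⟨q, hqp, hqm, hxq, ?_⟩
    exact (NumGor.p_DIM F A q h2).ge

/-- **Krull.** Let `A` be a finitely generated domain over a field, and `x_1, …, x_e` elements of a
prime ideal `m`. There is a prime ideal `q` in `m` which contains the `x_i` such that the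
transcendence degree of `A / q` is at least that of `A` minus `e`. -/
theorem exists_prime (F : Type u) [Field F] (A : Type u) [CommRing A] [IsDomain A]
    [Algebra F A] [Algebra.FiniteType F A] (m : Ideal A) [m.IsPrime] (e : ℕ) (x : Fin e → A)
    (hx : ∀ i, x i ∈ m) :
    ∃ q : Ideal A, q.IsPrime ∧ q ≤ m ∧ (∀ i, x i ∈ q) ∧
      Algebra.trdeg F A ≤ Algebra.trdeg F (A ⧸ q) + e := by
  induction e with
  | zero =>
    refine ⟨⊥, inferInstance, bot_le, fun i => i.elim0, ?_⟩
    have e := (AlgEquiv.quotientBot F A).trdeg_eq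
    rw [e]
    exact le_self_add
  | succ e ih =>
    obtain ⟨q₁, hq₁, hqm, hxq, htr⟩ := ih (fun i => x i.castSucc) (fun i => hx _)
    let m₁ : Ideal (A ⧸ q₁) := m.map (Ideal.Quotient.mk q₁)
    have hker : RingHom.ker (Ideal.Quotient.mk q₁) ≤ m := by
      rw [Ideal.mk_ker]
      exact hqm
    have hm₁ : m₁.IsPrime := Ideal.map_isPrime_of_surjective Ideal.Quotient.mk_surjective hker
    obtain ⟨q₂, hq₂, hq₂m, hxq₂, htr₂⟩ := exists_prime_one F (A ⧸ q₁) m₁
      (Ideal.Quotient.mk q₁ (x (Fin.last e))) (Ideal.mem_map_of_mem _ (hx _))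
    refine ⟨q₂.comap (Ideal.Quotient.mk q₁), inferInstance, ?_, ?_, ?_⟩
    · refine (Ideal.comap_mono hq₂m).trans ?_
      rw [Ideal.comap_map_of_surjective _ Ideal.Quotient.mk_surjective]
      refine sup_le le_rfl ?_
      rw [← RingHom.ker_eq_comap_bot]
      exact hker
    · intro i
      rcases Fin.eq_castSucc_or_eq_last i with ⟨j, rfl⟩ | rfl
      · rw [Ideal.mem_comap, Ideal.Quotient.eq_zero_iff_mem.mpr (hxq j)]
        exact Ideal.zero_mem _
      · exact hxq₂
    · let f : (A ⧸ q₂.comap (Ideal.Quotient.mk q₁)) →ₐ[F] ((A ⧸ q₁) ⧸ q₂) :=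
        Ideal.Quotient.liftₐ _ ((Ideal.Quotient.mkₐ F q₂).comp (Ideal.Quotient.mkₐ F q₁)) (by
          intro a ha
          exact Ideal.Quotient.eq_zero_iff_mem.mpr ha)
      have hf : Function.Surjective f := by
        intro b
        obtain ⟨b', rfl⟩ := Ideal.Quotient.mk_surjective b
        obtain ⟨a, rfl⟩ := Ideal.Quotient.mk_surjective b'
        exact ⟨Ideal.Quotient.mk _ a, rfl⟩
      have h3 := trdeg_le_of_surjective f hf
      calc Algebra.trdeg F A ≤ Algebra.trdeg F (A ⧸ q₁) + e := htr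
        _ ≤ (Algebra.trdeg F ((A ⧸ q₁) ⧸ q₂) + 1) + e := by gcongr
        _ ≤ (Algebra.trdeg F (A ⧸ q₂.comap (Ideal.Quotient.mk q₁)) + 1) + e := by gcongr
        _ = Algebra.trdeg F (A ⧸ q₂.comap (Ideal.Quotient.mk q₁)) + (e + 1 : ℕ) := by
          push_cast
          rw [add_assoc, add_comm (1 : Cardinal.{u})]

end Pool.Agent.CID
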