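import Pool.Agent.CID.Ineq

/-!
# Elimination of a variable
-/

set_option autoImplicit false

open MvPolynomial

namespace Pool.Agent.CID

open Pool.Agent.CIC

/-- Substitution of homogeneous polynomials. -/
theorem aeval_homogeneous {s t : ℕ} {w : Fin s → (Fin 2 → ℤ)} {w' : Fin t → (Fin 2 → ℤ)}
    (f : Fin s → MvPolynomial (Fin t) ℂ) (hf : ∀ i, IsWeightedHomogeneous w' (f i) (w i))
    {p : MvPolynomial (Fin s) ℂ} {m : Fin 2 → ℤ} (hp : IsWeightedHomogeneous w p m) :
    IsWeightedHomogeneous w' (aeval f p) m := by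
  classical
  rw [show aeval f p = ∑ n ∈ p.support, C (coeff n p) * ∏ i, f i ^ n i by
    rw [aeval_def, eval₂_eq']
    rfl]
  rw [← mem_weightedHomogeneousSubmodule]
  refine Submodule.sum_mem _ fun n hn => ?_
  rw [mem_weightedHomogeneousSubmodule]
  have h1 : IsWeightedHomogeneous w' (∏ i, f i ^ n i) (∑ i, n i • w i) :=
    IsWeightedHomogeneous.prod _ _ _ fun i _ => IsWeightedHomogeneous.pow (hf i) _
  have h2 : (∑ i, n i • w i) = m := by
    rw [← weight_eq]
    exact hp (mem_support_iff.mp hn)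
  rw [h2] at h1
  have h3 := (isWeightedHomogeneous_C w' (coeff n p)).mul h1
  rwa [zero_add] at h3

variable {r c : ℕ}

section

variable (k₀ : Fin (r + 1)) (P : MvPolynomial (Fin r) ℂ)

/-- The substitution `T_{k₀} ↦ P`. -/
noncomputable def sbs : MvPolynomial (Fin (r + 1)) ℂ →ₐ[ℂ] MvPolynomial (Fin r) ℂ :=
  aeval (Fin.insertNth (α := fun _ => MvPolynomial (Fin r) ℂ) k₀ P X)

/-- The inclusion. -/
noncomputable def inc : MvPolynomial (Fin r) ℂ →ₐ[ℂ] MvPolynomial (Fin (r + 1)) ℂ :=
  rename k₀.succAbove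

/-- The extended point. -/
noncomputable def ext (z : Fin r → ℂ) : Fin (r + 1) → ℂ :=
  Fin.insertNth (α := fun _ => ℂ) k₀ (eval z P) z

variable {k₀ P}

theorem sbs_same : sbs k₀ P (X k₀) = P := by
  rw [sbs, aeval_X, Fin.insertNth_apply_same]

theorem sbs_succAbove (i : Fin r) : sbs k₀ P (X (k₀.succAbove i)) = X i := by
  rw [sbs, aeval_X, Fin.insertNth_apply_succAbove]

theorem sbs_inc (p : MvPolynomial (Fin r) ℂ) : sbs k₀ P (inc k₀ p) = p := by
  have h : (sbs k₀ P).comp (inc k₀) = AlgHom.id ℂ _ := by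
    apply MvPolynomial.algHom_ext
    intro i
    rw [AlgHom.comp_apply, inc, rename_X, sbs_succAbove]
    rfl
  exact DFunLike.congr_fun h p

theorem ext_same (z : Fin r → ℂ) : ext k₀ P z k₀ = eval z P := by
  rw [ext, Fin.insertNth_apply_same]

theorem ext_succAbove (z : Fin r → ℂ) (i : Fin r) : ext k₀ P z (k₀.succAbove i) = z i := by
  rw [ext, Fin.insertNth_apply_succAbove]

theorem eval_sbs (z : Fin r → ℂ) (p : MvPolynomial (Fin (r + 1)) ℂ) :
    eval z (sbs k₀ P p) = eval (ext k₀ P z) p := by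
  have h : (aeval z : MvPolynomial (Fin r) ℂ →ₐ[ℂ] ℂ).comp (sbs k₀ P) =
      aeval (ext k₀ P z) := by
    apply MvPolynomial.algHom_ext
    intro i
    rw [AlgHom.comp_apply, aeval_X]
    rcases Fin.eq_self_or_eq_succAbove k₀ i with rfl | ⟨i, rfl⟩
    · rw [sbs_same, ext_same, aeval_eq_eval]
    · rw [sbs_succAbove, ext_succAbove, aeval_X]
  have h2 := DFunLike.congr_fun h p
  simpa [MvPolynomial.aeval_eq_eval] using h2

/-- The chain rule. -/
theorem pderiv_sbs (i : Fin r) (p : MvPolynomial (Fin (r + 1)) ℂ) :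
    pderiv i (sbs k₀ P p) = sbs k₀ P (pderiv (k₀.succAbove i) p) +
      sbs k₀ P (pderiv k₀ p) * pderiv i P := by
  classical
  induction p using MvPolynomial.induction_on with
  | C a =>
    rw [pderiv_C, pderiv_C, map_zero, zero_mul, add_zero, sbs, aeval_C]
    exact pderiv_C
  | add p q hp hq =>
    rw [map_add, map_add, hp, hq, map_add, map_add, map_add, map_add]
    ring
  | mul_X p l hp =>
    have hl : pderiv i (sbs k₀ P (X l)) = sbs k₀ P (pderiv (k₀.succAbove i) (X l)) +
        sbs k₀ P (pderiv k₀ (X l)) * pderiv i P := by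
      rcases Fin.eq_self_or_eq_succAbove k₀ l with rfl | ⟨l, rfl⟩
      · rw [sbs_same, pderiv_X_of_ne (Fin.succAbove_ne l i).symm, pderiv_X_self, map_zero,
          map_one, one_mul, zero_add]
      · rw [sbs_succAbove, pderiv_X_of_ne (Fin.succAbove_ne k₀ l), map_zero, zero_mul, add_zero]
        by_cases h : l = i
        · subst h
          rw [pderiv_X_self, pderiv_X_self, map_one]
        · rw [pderiv_X_of_ne h, pderiv_X_of_ne (fun h' => h (Fin.succAbove_right_injective h')),
            map_zero]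
    rw [map_mul, pderiv_mul, hl, hp, pderiv_mul, pderiv_mul, map_add, map_add, map_mul,
      map_mul, map_mul, map_mul]
    ring

/-- A polynomial in which `T_{k₀}` occurs only linearly. -/
theorem eq_add (p : MvPolynomial (Fin (r + 1)) ℂ)
    (hp : ∀ n ∈ p.support, n k₀ ≠ 0 → n = Finsupp.single k₀ 1) :
    p = C (coeff (Finsupp.single k₀ 1) p) * X k₀ + inc k₀ (sbs k₀ 0 p) := by
  classical
  have hmon : ∀ (n : Fin (r + 1) →₀ ℕ) (b : ℂ), inc k₀ (sbs k₀ 0 (monomial n b)) =
      if n k₀ = 0 then monomial n b else 0 := by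
    intro n b
    have hX : ∀ i, inc k₀ (sbs k₀ 0 (X i)) = if i = k₀ then 0 else X i := by
      intro i
      rcases Fin.eq_self_or_eq_succAbove k₀ i with rfl | ⟨i, rfl⟩
      · rw [sbs_same, map_zero, if_pos rfl]
      · rw [sbs_succAbove, if_neg (Fin.succAbove_ne k₀ i), inc, rename_X]
    rw [monomial_eq, map_mul, map_mul, Finsupp.prod_fintype _ _ (fun i => pow_zero _), map_prod,
      map_prod]
    have hC : inc k₀ (sbs k₀ 0 (C b)) = C b := by
      rw [sbs, aeval_C]
      exact rename_C _ _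
    rw [hC]
    split_ifs with h
    · congr 1
      refine Finset.prod_congr rfl fun i _ => ?_
      rw [map_pow, map_pow, hX]
      split_ifs with hi
      · rw [hi, h, pow_zero, pow_zero]
      · rfl
    · rw [Finset.prod_eq_zero (Finset.mem_univ k₀), mul_zero]
      rw [map_pow, map_pow, hX, if_pos rfl, zero_pow h]
  have h1 : inc k₀ (sbs k₀ 0 p) =
      ∑ n ∈ p.support, if n k₀ = 0 then monomial n (coeff n p) else 0 := by
    conv_lhs => rw [p.as_sum]
    rw [map_sum, map_sum]
    exact Finset.sum_congr rfl fun n _ => hmon n _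
  have h2 : C (coeff (Finsupp.single k₀ 1) p) * X k₀ =
      ∑ n ∈ p.support, if n k₀ = 0 then 0 else monomial n (coeff n p) := by
    rw [Finset.sum_congr rfl (g := fun n => if n = Finsupp.single k₀ 1 then
      monomial (Finsupp.single k₀ 1) (coeff (Finsupp.single k₀ 1) p) else 0)]
    · rw [Finset.sum_ite_eq']
      have h3 : C (coeff (Finsupp.single k₀ 1) p) * X k₀ =
          monomial (Finsupp.single k₀ 1) (coeff (Finsupp.single k₀ 1) p) := by
        rw [C_mul_X_eq_monomial]
      split_ifs with h4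
      · exact h3
      · rw [h3, notMem_support_iff.mp h4, map_zero]
    · intro n hn
      by_cases h4 : n k₀ = 0
      · rw [if_pos h4, if_neg]
        rintro rfl
        rw [Finsupp.single_eq_same] at h4
        exact one_ne_zero h4
      · rw [if_neg h4, if_pos (hp n hn h4), hp n hn h4]
  conv_lhs => rw [p.as_sum]
  rw [h1, h2, ← Finset.sum_add_distrib]
  refine Finset.sum_congr rfl fun n _ => ?_
  split_ifs <;> simp

end

end Pool.Agent.CID
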