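import Pool.Agent.CID.Reduce
import Pool.Agent.CID.Rays

/-!
# Elimination of a variable: the reduced data
-/

set_option autoImplicit false

open MvPolynomial

namespace Pool.Agent.CID

open Pool.Agent.CIC

variable {r c : ℕ}

section

variable (g : Fin (c + 1) → MvPolynomial (Fin (r + 1)) ℂ) (k₀ : Fin (r + 1)) (j₀ : Fin (c + 1))

/-- The polynomial which is substituted for `T_{k₀}`. -/
noncomputable def redP : MvPolynomial (Fin r) ℂ :=
  C (-(coeff (Finsupp.single k₀ 1) (g j₀))⁻¹) * sbs k₀ 0 (g j₀)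

/-- The reduced equations. -/
noncomputable def red (j : Fin c) : MvPolynomial (Fin r) ℂ :=
  sbs k₀ (redP g k₀ j₀) (g (j₀.succAbove j))

end

variable {g : Fin (c + 1) → MvPolynomial (Fin (r + 1)) ℂ} {k₀ : Fin (r + 1)} {j₀ : Fin (c + 1)}
  {w : Fin (r + 1) → (Fin 2 → ℤ)} {μ : Fin (c + 1) → (Fin 2 → ℤ)}

section

variable (hX : IsFanoCompleteIntersection w μ g)
  (ha : coeff (Finsupp.single k₀ 1) (g j₀) ≠ 0)

include hX ha

theorem red_mu : μ j₀ = w k₀ := by
  have h := hX.homogeneous j₀ ha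
  rw [Finsupp.weight_single, one_smul] at h
  exact h.symm

theorem red_mono : ∀ n ∈ (g j₀).support, n k₀ ≠ 0 → n = Finsupp.single k₀ 1 := by
  classical
  intro n hn hk
  obtain ⟨h, hh⟩ := hX.pointed
  have h1 : Finsupp.weight w n = w k₀ := by
    rw [hX.homogeneous j₀ (mem_support_iff.mp hn), red_mu hX ha]
  have h5 : n = (n - Finsupp.single k₀ 1) + Finsupp.single k₀ 1 := by
    ext i
    rw [Finsupp.add_apply, Finsupp.tsub_apply, Finsupp.single_apply]
    by_cases hik : k₀ = i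
    · subst hik
      rw [if_pos rfl]
      omega
    · rw [if_neg hik]
      omega
  have h2 : h (Finsupp.weight w (n - Finsupp.single k₀ 1)) = 0 := by
    rw [h5, map_add, Finsupp.weight_single, one_smul] at h1
    have h3 := congrArg h h1
    rw [map_add] at h3
    have h4 : (n - Finsupp.single k₀ 1 + Finsupp.single k₀ 1 - Finsupp.single k₀ 1 :
        Fin (r + 1) →₀ ℕ) = n - Finsupp.single k₀ 1 := by
      rw [add_tsub_cancel_right]
    omega
  have h6 : n - Finsupp.single k₀ 1 = 0 := by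
    by_contra hne
    obtain ⟨i, hi⟩ : ∃ i, (n - Finsupp.single k₀ 1 : Fin (r + 1) →₀ ℕ) i ≠ 0 := by
      by_contra hcon
      push Not at hcon
      exact hne (Finsupp.ext hcon)
    have := weight_pos (L := h) (w := w) (n := n - Finsupp.single k₀ 1)
      (fun i _ => (hh i).le) ⟨i, hi, hh i⟩
    omega
  rw [h5, h6, zero_add]

theorem red_eq : g j₀ = C (coeff (Finsupp.single k₀ 1) (g j₀)) *
    (X k₀ - inc k₀ (redP g k₀ j₀)) := by
  conv_lhs => rw [eq_add (g j₀) (red_mono hX ha)]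
  rw [redP, map_mul, mul_sub, ← mul_assoc]
  have h1 : inc k₀ (C (-(coeff (Finsupp.single k₀ 1) (g j₀))⁻¹)) =
      C (-(coeff (Finsupp.single k₀ 1) (g j₀))⁻¹) := rename_C _ _
  rw [h1, ← C_mul, mul_neg, mul_inv_cancel₀ ha, map_neg, map_one]
  ring

theorem red_zero : sbs k₀ (redP g k₀ j₀) (g j₀) = 0 := by
  rw [red_eq hX ha, map_mul, map_sub, sbs_same, sbs_inc, sub_self, mul_zero]

theorem redP_homogeneous : IsWeightedHomogeneous (fun i => w (k₀.succAbove i))
    (redP g k₀ j₀) (w k₀) := by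
  rw [← red_mu hX ha, redP]
  have h1 : IsWeightedHomogeneous (fun i => w (k₀.succAbove i)) (sbs k₀ 0 (g j₀)) (μ j₀) := by
    refine aeval_homogeneous _ (fun i => ?_) (hX.homogeneous j₀)
    rcases Fin.eq_self_or_eq_succAbove k₀ i with rfl | ⟨i, rfl⟩
    · rw [Fin.insertNth_apply_same]
      exact isWeightedHomogeneous_zero _ _ _
    · rw [Fin.insertNth_apply_succAbove]
      exact isWeightedHomogeneous_X ℂ (fun i => w (k₀.succAbove i)) i
  have h2 := (isWeightedHomogeneous_C (fun i => w (k₀.succAbove i))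
    (-(coeff (Finsupp.single k₀ 1) (g j₀))⁻¹)).mul h1
  rwa [zero_add] at h2

theorem sbs_homogeneous {p : MvPolynomial (Fin (r + 1)) ℂ} {m : Fin 2 → ℤ}
    (hp : IsWeightedHomogeneous w p m) :
    IsWeightedHomogeneous (fun i => w (k₀.succAbove i)) (sbs k₀ (redP g k₀ j₀) p) m := by
  refine aeval_homogeneous _ (fun i => ?_) hp
  rcases Fin.eq_self_or_eq_succAbove k₀ i with rfl | ⟨i, rfl⟩
  · rw [Fin.insertNth_apply_same]
    exact redP_homogeneous hX ha
  · rw [Fin.insertNth_apply_succAbove]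
    exact isWeightedHomogeneous_X ℂ (fun i => w (k₀.succAbove i)) i

theorem red_kappa : anticanonical (fun i => w (k₀.succAbove i)) (fun j => μ (j₀.succAbove j)) =
    anticanonical w μ := by
  rw [anticanonical, anticanonical, Fin.sum_univ_succAbove w k₀, Fin.sum_univ_succAbove μ j₀,
    red_mu hX ha]
  abel

theorem X_sub_mem : X k₀ - inc k₀ (redP g k₀ j₀) ∈ relations g := by
  have hgj : g j₀ ∈ relations g := Ideal.subset_span ⟨j₀, rfl⟩
  have h1 := Ideal.mul_mem_left _ (C (coeff (Finsupp.single k₀ 1) (g j₀))⁻¹) hgj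
  have h2 : C (coeff (Finsupp.single k₀ 1) (g j₀))⁻¹ * g j₀ =
      X k₀ - inc k₀ (redP g k₀ j₀) := by
    calc C (coeff (Finsupp.single k₀ 1) (g j₀))⁻¹ * g j₀
        = C (coeff (Finsupp.single k₀ 1) (g j₀))⁻¹ *
          (C (coeff (Finsupp.single k₀ 1) (g j₀)) * (X k₀ - inc k₀ (redP g k₀ j₀))) := by
          rw [← red_eq hX ha]
      _ = X k₀ - inc k₀ (redP g k₀ j₀) := by
          rw [← mul_assoc, ← C_mul, inv_mul_cancel₀ ha, C_1, one_mul]
  rwa [h2] at h1

/-- `ι(φ(p)) ≡ p` modulo the equations. -/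
theorem mk_inc_sbs (p : MvPolynomial (Fin (r + 1)) ℂ) :
    Ideal.Quotient.mk (relations g) (inc k₀ (sbs k₀ (redP g k₀ j₀) p)) =
      Ideal.Quotient.mk (relations g) p := by
  have h : ((Ideal.Quotient.mkₐ ℂ (relations g)).comp (inc k₀)).comp
      (sbs k₀ (redP g k₀ j₀)) = Ideal.Quotient.mkₐ ℂ (relations g) := by
    apply MvPolynomial.algHom_ext
    intro i
    rw [AlgHom.comp_apply, AlgHom.comp_apply]
    rcases Fin.eq_self_or_eq_succAbove k₀ i with rfl | ⟨i, rfl⟩
    · rw [sbs_same]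
      have h1 := X_sub_mem hX ha
      rw [← Ideal.Quotient.eq_zero_iff_mem, map_sub, sub_eq_zero] at h1
      exact h1.symm
    · rw [sbs_succAbove, inc, rename_X]
  exact DFunLike.congr_fun h p

/-- The two rings are isomorphic. -/
noncomputable def redEquiv : CoxRing g ≃+* CoxRing (red g k₀ j₀) :=
  RingEquiv.ofRingHom
    (Ideal.Quotient.lift (relations g)
      ((Ideal.Quotient.mk (relations (red g k₀ j₀))).comp
        (sbs k₀ (redP g k₀ j₀) : MvPolynomial (Fin (r + 1)) ℂ →+* MvPolynomial (Fin r) ℂ)) (by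
      intro a ha'
      have h1 : relations g ≤ RingHom.ker ((Ideal.Quotient.mk (relations (red g k₀ j₀))).comp
          (sbs k₀ (redP g k₀ j₀) :
            MvPolynomial (Fin (r + 1)) ℂ →+* MvPolynomial (Fin r) ℂ)) := by
        rw [relations, Ideal.span_le]
        rintro _ ⟨j, rfl⟩
        rw [SetLike.mem_coe, RingHom.mem_ker]
        show Ideal.Quotient.mk (relations (red g k₀ j₀)) (sbs k₀ (redP g k₀ j₀) (g j)) = 0
        rcases Fin.eq_self_or_eq_succAbove j₀ j with rfl | ⟨j, rfl⟩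
        · rw [red_zero hX ha, map_zero]
        · exact Ideal.Quotient.eq_zero_iff_mem.mpr (Ideal.subset_span ⟨j, rfl⟩)
      exact h1 ha'))
    (Ideal.Quotient.lift (relations (red g k₀ j₀))
      ((Ideal.Quotient.mk (relations g)).comp
        (inc k₀ : MvPolynomial (Fin r) ℂ →+* MvPolynomial (Fin (r + 1)) ℂ)) (by
      intro a ha'
      have h1 : relations (red g k₀ j₀) ≤ RingHom.ker ((Ideal.Quotient.mk (relations g)).comp
          (inc k₀ : MvPolynomial (Fin r) ℂ →+* MvPolynomial (Fin (r + 1)) ℂ)) := by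
        rw [relations, Ideal.span_le]
        rintro _ ⟨j, rfl⟩
        rw [SetLike.mem_coe, RingHom.mem_ker]
        show Ideal.Quotient.mk (relations g) (inc k₀ (sbs k₀ (redP g k₀ j₀) _)) = 0
        rw [mk_inc_sbs hX ha]
        exact Ideal.Quotient.eq_zero_iff_mem.mpr (Ideal.subset_span ⟨_, rfl⟩)
      exact h1 ha'))
    (by
      apply Ideal.Quotient.ringHom_ext
      ext p
      · show Ideal.Quotient.mk (relations (red g k₀ j₀)) (sbs k₀ (redP g k₀ j₀)
          (inc k₀ (C p))) = _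
        rw [sbs_inc]
        rfl
      · show Ideal.Quotient.mk (relations (red g k₀ j₀)) (sbs k₀ (redP g k₀ j₀)
          (inc k₀ (X p))) = _
        rw [sbs_inc]
        rfl)
    (by
      apply Ideal.Quotient.ringHom_ext
      ext p
      · show Ideal.Quotient.mk (relations g) (inc k₀ (sbs k₀ (redP g k₀ j₀) (C p))) = _
        rw [mk_inc_sbs hX ha]
        rfl
      · show Ideal.Quotient.mk (relations g) (inc k₀ (sbs k₀ (redP g k₀ j₀) (X p))) = _
        rw [mk_inc_sbs hX ha]
        rfl)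

theorem redEquiv_mk (p : MvPolynomial (Fin (r + 1)) ℂ) :
    redEquiv hX ha (Ideal.Quotient.mk _ p) =
      Ideal.Quotient.mk _ (sbs k₀ (redP g k₀ j₀) p) := rfl

theorem redEquiv_symm_mk (p : MvPolynomial (Fin r) ℂ) :
    (redEquiv hX ha).symm (Ideal.Quotient.mk _ p) =
      Ideal.Quotient.mk _ (inc k₀ p) := rfl

/-- Zeros. -/
theorem red_isZero {z : Fin r → ℂ} (hz : IsZero (red g k₀ j₀) z) :
    IsZero g (ext k₀ (redP g k₀ j₀) z) := by
  intro j
  rw [← eval_sbs]
  rcases Fin.eq_self_or_eq_succAbove j₀ j with rfl | ⟨j, rfl⟩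
  · rw [red_zero hX ha, map_zero]
  · exact hz j

/-- Every zero is an extended point. -/
theorem eq_ext {z : Fin (r + 1) → ℂ} (hz : IsZero g z) :
    z = ext k₀ (redP g k₀ j₀) (fun i => z (k₀.succAbove i)) := by
  have h1 : ∀ p ∈ relations g, eval z p = 0 := by
    intro p hp
    have h2 : relations g ≤ RingHom.ker (eval z) := by
      rw [relations, Ideal.span_le]
      rintro _ ⟨j, rfl⟩
      exact hz j
    exact h2 hp
  have h2 := h1 _ (X_sub_mem hX ha)
  rw [map_sub, eval_X, sub_eq_zero] at h2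
  funext i
  rcases Fin.eq_self_or_eq_succAbove k₀ i with rfl | ⟨i, rfl⟩
  · rw [ext_same, h2, inc, eval_rename]
    rfl
  · rw [ext_succAbove]

/-- A monomial of the substituted polynomial. -/
theorem exists_monomial {z : Fin r → ℂ} (hz : eval z (redP g k₀ j₀) ≠ 0) :
    ∃ n : Fin r →₀ ℕ, Finsupp.weight (fun i => w (k₀.succAbove i)) n = w k₀ ∧
      ∀ i, n i ≠ 0 → z i ≠ 0 := by
  obtain ⟨n, hn, hn'⟩ := exists_of_eval_ne_zero hz
  exact ⟨n, redP_homogeneous hX ha (mem_support_iff.mp hn), hn'⟩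

end

end Pool.Agent.CID
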