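import Pool.Agent.CID.Reduce2
import Pool.Agent.CID.Exc3

/-!
# Elimination of a variable: the reduced data are those of a smooth Fano variety
-/

set_option autoImplicit false

open MvPolynomial

namespace Pool.Agent.CID

open Pool.Agent.CIC

variable {r c : ℕ}

theorem weight_mapDomain (w : Fin (r + 1) → (Fin 2 → ℤ)) (k₀ : Fin (r + 1))
    (n : Fin r →₀ ℕ) : Finsupp.weight w (n.mapDomain k₀.succAbove) =
      Finsupp.weight (fun i => w (k₀.succAbove i)) n := by
  rw [weight_eq, weight_eq, Fin.sum_univ_succAbove _ k₀, Finsupp.mapDomain_of_notMem_range,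
    zero_smul, zero_add]
  · refine Finset.sum_congr rfl fun i _ => ?_
    rw [Finsupp.mapDomain_apply Fin.succAbove_right_injective]
  · rintro ⟨i, hi⟩
    exact Fin.succAbove_ne k₀ i hi

variable {g : Fin (c + 1) → MvPolynomial (Fin (r + 1)) ℂ} {k₀ : Fin (r + 1)} {j₀ : Fin (c + 1)}
  {w : Fin (r + 1) → (Fin 2 → ℤ)} {μ : Fin (c + 1) → (Fin 2 → ℤ)}

theorem ext_semistable {P : MvPolynomial (Fin r) ℂ} {κ : Fin 2 → ℤ} {z : Fin r → ℂ}
    (hz : FAC.Semistable (fun i => w (k₀.succAbove i)) κ z) :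
    FAC.Semistable w κ (ext k₀ P z) := by
  obtain ⟨m, hm, n, hn, hz⟩ := hz
  refine ⟨m, hm, n.mapDomain k₀.succAbove, ?_, ?_⟩
  · rw [weight_mapDomain, hn]
  · intro i hi
    rcases Fin.eq_self_or_eq_succAbove k₀ i with rfl | ⟨i, rfl⟩
    · exfalso
      apply hi
      rw [Finsupp.mapDomain_of_notMem_range]
      rintro ⟨i', hi'⟩
      exact Fin.succAbove_ne _ i' hi'
    · rw [Finsupp.mapDomain_apply Fin.succAbove_right_injective] at hi
      rw [ext_succAbove]
      exact hz i hi

section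

variable (hX : IsFanoCompleteIntersection w μ g)
  (ha : coeff (Finsupp.single k₀ 1) (g j₀) ≠ 0)

include hX ha

theorem red_semistable {κ : Fin 2 → ℤ} {z : Fin (r + 1) → ℂ} (hz : IsZero g z)
    (hs : FAC.Semistable w κ z) :
    FAC.Semistable (fun i => w (k₀.succAbove i)) κ (fun i => z (k₀.succAbove i)) := by
  obtain ⟨m, hm, n, hn, hnz⟩ := hs
  obtain ⟨n₁, hn₁, hn₁'⟩ : ∃ n₁ : Fin r →₀ ℕ,
      Finsupp.weight (fun i => w (k₀.succAbove i)) n₁ = n k₀ • w k₀ ∧
        ∀ i, n₁ i ≠ 0 → z (k₀.succAbove i) ≠ 0 := by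
    by_cases h0 : n k₀ = 0
    · refine ⟨0, ?_, fun i hi => absurd rfl hi⟩
      rw [map_zero, h0, zero_smul]
    · have h1 := hnz k₀ h0
      rw [eq_ext hX ha hz, ext_same] at h1
      obtain ⟨n₁, h2, h3⟩ := exists_monomial hX ha h1
      refine ⟨n k₀ • n₁, ?_, fun i hi => h3 i ?_⟩
      · rw [map_nsmul, h2]
      · intro h4
        apply hi
        rw [Finsupp.smul_apply, h4, smul_zero]
  refine ⟨m, hm, Finsupp.equivFunOnFinite.symm (fun i => n (k₀.succAbove i)) + n₁, ?_, ?_⟩
  · rw [map_add, hn₁, ← hn, weight_eq, weight_eq, Fin.sum_univ_succAbove _ k₀, add_comm]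
    rfl
  · intro i hi
    rw [Finsupp.add_apply] at hi
    by_cases h1 : n₁ i = 0
    · rw [h1, add_zero] at hi
      exact hnz _ hi
    · exact hn₁' i h1

theorem eval_pderiv_same (z : Fin (r + 1) → ℂ) :
    eval z (pderiv k₀ (g j₀)) = coeff (Finsupp.single k₀ 1) (g j₀) := by
  have h1 : pderiv k₀ (inc k₀ (redP g k₀ j₀)) = 0 := by
    apply pderiv_eq_zero_of_notMem_vars
    intro h
    rw [inc] at h
    have h2 := vars_rename k₀.succAbove (redP g k₀ j₀) h
    rw [Finset.mem_image] at h2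
    obtain ⟨i, _, hi⟩ := h2
    exact Fin.succAbove_ne k₀ i hi
  conv_lhs => rw [red_eq hX ha]
  rw [pderiv_C_mul, map_sub, h1, pderiv_X_self, sub_zero]
  rw [mul_one, eval_C]

theorem red_smooth {z : Fin r → ℂ} (hz : IsZero (red g k₀ j₀) z)
    (hs : FAC.Semistable (fun i => w (k₀.succAbove i)) (anticanonical w μ) z) :
    LinearIndependent ℂ fun (j : Fin c) (i : Fin r) => eval z (pderiv i (red g k₀ j₀ j)) := by
  have hli := hX.smooth _ (red_isZero hX ha hz) (ext_semistable (P := redP g k₀ j₀) hs)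
  rw [Fintype.linearIndependent_iff] at hli ⊢
  intro b hb
  set z' := ext k₀ (redP g k₀ j₀) z with hz'
  set a := coeff (Finsupp.single k₀ 1) (g j₀) with hadef
  have hkey : ∀ (p : MvPolynomial (Fin (r + 1)) ℂ) (i : Fin r),
      eval z' (pderiv (k₀.succAbove i) p) =
        eval z (pderiv i (sbs k₀ (redP g k₀ j₀) p)) -
          eval z' (pderiv k₀ p) * eval z (pderiv i (redP g k₀ j₀)) := by
    intro p i
    rw [pderiv_sbs, map_add, map_mul, eval_sbs, eval_sbs]
    ring
  let t : ℂ := -a⁻¹ * ∑ j, b j * eval z' (pderiv k₀ (g (j₀.succAbove j)))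
  let b' : Fin (c + 1) → ℂ := Fin.insertNth (α := fun _ => ℂ) j₀ t b
  have hb'0 : b' j₀ = t := Fin.insertNth_apply_same _ _ _
  have hb's : ∀ j, b' (j₀.succAbove j) = b j := fun j => Fin.insertNth_apply_succAbove _ _ _ _
  have hsum0 : ∑ j, b' j * eval z' (pderiv k₀ (g j)) = 0 := by
    rw [Fin.sum_univ_succAbove _ j₀, hb'0, eval_pderiv_same hX ha]
    have : ∑ j, b' (j₀.succAbove j) * eval z' (pderiv k₀ (g (j₀.succAbove j))) =
        ∑ j, b j * eval z' (pderiv k₀ (g (j₀.succAbove j))) :=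
      Finset.sum_congr rfl fun j _ => by rw [hb's]
    rw [this]
    show (-a⁻¹ * ∑ j, b j * eval z' (pderiv k₀ (g (j₀.succAbove j)))) * a + _ = 0
    field_simp
    ring
  have hrow : ∀ i, ∑ j, b j * eval z (pderiv i (red g k₀ j₀ j)) = 0 := by
    intro i
    have := congrFun hb i
    rw [Finset.sum_apply] at this
    simpa using this
  have hzero : ∑ j, b' j • (fun i : Fin (r + 1) => eval z' (pderiv i (g j))) = 0 := by
    funext i
    rw [Finset.sum_apply]
    show ∑ j, b' j * eval z' (pderiv i (g j)) = 0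
    rcases Fin.eq_self_or_eq_succAbove k₀ i with rfl | ⟨i, rfl⟩
    · exact hsum0
    · have h1 : ∑ j, b' j * eval z' (pderiv (k₀.succAbove i) (g j)) =
          ∑ j, b' j * eval z (pderiv i (sbs k₀ (redP g k₀ j₀) (g j))) -
            (∑ j, b' j * eval z' (pderiv k₀ (g j))) * eval z (pderiv i (redP g k₀ j₀)) := by
        rw [Finset.sum_mul, ← Finset.sum_sub_distrib]
        refine Finset.sum_congr rfl fun j _ => ?_
        rw [hkey]
        ring
      rw [h1, hsum0, zero_mul, sub_zero, Fin.sum_univ_succAbove _ j₀, red_zero hX ha, map_zero,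
        map_zero, mul_zero, zero_add, ← hrow i]
      exact Finset.sum_congr rfl fun j _ => by rw [hb's]; rfl
  intro j
  rw [← hb's j]
  exact hli b' hzero (j₀.succAbove j)

theorem red_free {z : Fin r → ℂ} (hz : IsZero (red g k₀ j₀) z)
    (hs : FAC.Semistable (fun i => w (k₀.succAbove i)) (anticanonical w μ) z) :
    Submodule.span ℤ ((fun i => w (k₀.succAbove i)) '' {i | z i ≠ 0}) = ⊤ := by
  have h1 := hX.free _ (red_isZero hX ha hz) (ext_semistable (P := redP g k₀ j₀) hs)
  rw [eq_top_iff, ← h1, Submodule.span_le]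
  rintro _ ⟨i, hi, rfl⟩
  replace hi : ext k₀ (redP g k₀ j₀) z i ≠ 0 := hi
  rcases Fin.eq_self_or_eq_succAbove k₀ i with rfl | ⟨i, rfl⟩
  · rw [ext_same] at hi
    obtain ⟨n, hn, hnz⟩ := exists_monomial hX ha hi
    rw [← hn, weight_eq]
    refine Submodule.sum_mem _ fun i' _ => ?_
    by_cases h0 : n i' = 0
    · rw [h0, zero_smul]
      exact Submodule.zero_mem _
    · rw [← natCast_zsmul]
      exact Submodule.smul_mem _ _ (Submodule.subset_span ⟨i', hnz i' h0, rfl⟩)
  · rw [ext_succAbove] at hi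
    exact Submodule.subset_span ⟨i, hi, rfl⟩

theorem red_irrelevant (κ : Fin 2 → ℤ) :
    irrelevant w κ g ≤ (irrelevant (fun i => w (k₀.succAbove i)) κ (red g k₀ j₀)).comap
      (redEquiv hX ha : CoxRing g →+* CoxRing (red g k₀ j₀)) := by
  rw [irrelevant, Ideal.span_le]
  rintro f ⟨m, hm, p, hp, rfl⟩
  rw [SetLike.mem_coe, Ideal.mem_comap]
  exact Ideal.subset_span ⟨m, hm, _, sbs_homogeneous hX ha hp, rfl⟩

/-- The reduced data. -/
theorem red_isFano : IsFanoCompleteIntersection (fun i => w (k₀.succAbove i))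
    (fun j => μ (j₀.succAbove j)) (red g k₀ j₀) where
  pointed := by
    obtain ⟨h, hh⟩ := hX.pointed
    exact ⟨h, fun i => hh _⟩
  homogeneous := fun j => sbs_homogeneous hX ha (hX.homogeneous _)
  prime := by
    have hp := hX.prime
    have h1 : IsDomain (CoxRing g) := inferInstance
    have h2 : IsDomain (CoxRing (red g k₀ j₀)) := MulEquiv.isDomain (CoxRing g) (redEquiv hX ha).symm.toMulEquiv
    exact (Ideal.Quotient.isDomain_iff_prime _).mp h2
  normal := by
    have := hX.normal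
    exact IsIntegrallyClosed.of_equiv (redEquiv hX ha)
  var_ne := by
    intro i hi
    apply hX.var_ne (k₀.succAbove i)
    rw [← Ideal.Quotient.eq_zero_iff_mem] at hi ⊢
    have h1 := redEquiv_symm_mk hX ha (X i)
    rw [hi, map_zero, inc, rename_X] at h1
    exact h1.symm
  nonempty := by
    obtain ⟨z, hz, hs⟩ := hX.nonempty
    refine ⟨fun i => z (k₀.succAbove i), ?_, ?_⟩
    · intro j
      rw [red, eval_sbs, ← eq_ext hX ha hz]
      exact hz _
    · rw [red_kappa hX ha]
      exact red_semistable hX ha hz hs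
  smooth := by
    intro z hz hs
    rw [red_kappa hX ha] at hs
    exact red_smooth hX ha hz hs
  free := by
    intro z hz hs
    rw [red_kappa hX ha] at hs
    exact red_free hX ha hz hs
  small := by
    intro P hP hht hle
    rw [red_kappa hX ha] at hle
    have hP' : (P.comap (redEquiv hX ha : CoxRing g →+* CoxRing (red g k₀ j₀))).IsPrime :=
      Ideal.comap_isPrime _ _
    refine hX.small (P.comap (redEquiv hX ha : CoxRing g →+* CoxRing (red g k₀ j₀))) hP' ?_ ?_
    · have h1 := RingEquiv.height_comap (redEquiv hX ha) P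
      exact h1.le.trans hht
    · exact (red_irrelevant hX ha _).trans (Ideal.comap_mono hle)

end

theorem red_fail {κ : Fin 2 → ℤ} (h : Fail w κ) :
    Fail (fun i => w (k₀.succAbove i)) κ := by
  intro m hm n hn k
  have h1 := h m hm (n.mapDomain k₀.succAbove) (by rw [weight_mapDomain, hn]) (k₀.succAbove k)
  rwa [Finsupp.mapDomain_apply Fin.succAbove_right_injective] at h1

/-- **Theorem.** -/
theorem not_fail_all (c : ℕ) : ∀ (r : ℕ) (w : Fin r → (Fin 2 → ℤ)) (μ : Fin c → (Fin 2 → ℤ))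
    (g : Fin c → MvPolynomial (Fin r) ℂ), IsFanoCompleteIntersection w μ g →
      ¬ Fail w (anticanonical w μ) := by
  induction c with
  | zero =>
    intro r w μ g hX
    have := hX.prime
    exact not_fail hX fun j => j.elim0
  | succ c ih =>
    intro r w μ g hX hfail
    have := hX.prime
    by_cases hmin : ∀ j k, coeff (Finsupp.single k 1) (g j) = 0
    · exact not_fail hX hmin hfail
    · push Not at hmin
      obtain ⟨j₀, k₀, ha⟩ := hmin
      obtain _ | r := r
      · exact k₀.elim0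
      refine ih r _ _ _ (red_isFano hX ha) ?_
      rw [red_kappa hX ha]
      exact red_fail hfail

/-- **Theorem.** `α(X) ≤ 1`. -/
theorem alpha_le_one_main {w : Fin r → (Fin 2 → ℤ)} {μ : Fin c → (Fin 2 → ℤ)}
    {g : Fin c → MvPolynomial (Fin r) ℂ} [hp : (relations g).IsPrime]
    (hX : IsFanoCompleteIntersection w μ g) : alpha w (anticanonical w μ) g ≤ 1 := by
  by_contra hcon
  exact not_fail_all c r w μ g hX (fail_of_not_le hX hcon)

end Pool.Agent.CID
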