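import Pool.Agent.CID.Edge

/-!
# Counting by means of zeros
-/

set_option autoImplicit false

open MvPolynomial

namespace Pool.Agent.CID

open Pool.Agent.CIC

variable {r c : ℕ}

/-- Let `y` be a zero, `Q` a set of variables which vanish at `y`, and `J` a set of fewer than
`#Q` equations, such that all other equations vanish on `y + ℂ ^ Q`. Then there is another zero
in `y + ℂ ^ Q`. -/
theorem exists_zero {g : Fin c → MvPolynomial (Fin r) ℂ} {y : Fin r → ℂ} (hy : IsZero g y)
    (Q : Finset (Fin r)) (hQ : ∀ k ∈ Q, y k = 0) (J : Finset (Fin c))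
    (hJ : ∀ z : Fin r → ℂ, (∀ i, i ∉ Q → z i = y i) → ∀ j, j ∉ J → eval z (g j) = 0)
    (hcard : J.card < Q.card) :
    ∃ z, IsZero g z ∧ (∀ i, i ∉ Q → z i = y i) ∧ ∃ i ∈ Q, z i ≠ 0 := by
  classical
  let φ : Fin r → MvPolynomial Q ℂ := fun i => if h : i ∈ Q then X ⟨i, h⟩ else C (y i)
  let e := J.equivFin
  let F : Fin J.card → MvPolynomial Q ℂ := fun a => bind₁ φ (g (e.symm a))
  let pt : (Q → ℂ) → Fin r → ℂ := fun t i => if h : i ∈ Q then t ⟨i, h⟩ else y i
  have heval : ∀ (t : Q → ℂ) (p : MvPolynomial (Fin r) ℂ),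
      eval t (bind₁ φ p) = eval (pt t) p := by
    intro t p
    have h1 : (aeval t : MvPolynomial Q ℂ →ₐ[ℂ] ℂ).comp (bind₁ φ) =
        (aeval (pt t) : MvPolynomial (Fin r) ℂ →ₐ[ℂ] ℂ) := by
      apply MvPolynomial.algHom_ext
      intro i
      rw [AlgHom.comp_apply, bind₁_X_right, aeval_X]
      by_cases hi : i ∈ Q
      · simp [φ, pt, hi]
      · simp [φ, pt, hi]
    have h2 := DFunLike.congr_fun h1 p
    simpa [MvPolynomial.aeval_eq_eval] using h2
  have hpt0 : pt 0 = y := by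
    ext i
    by_cases hi : i ∈ Q
    · simp [pt, hi, hQ i hi]
    · simp [pt, hi]
  obtain ⟨t, ht, ht'⟩ := KRL.exists_ne_zero_of_lt (σ := Q)
    (by rw [Nat.card_eq_fintype_card, Fintype.card_coe]; exact hcard) F 0 (by
      intro a
      show eval 0 (bind₁ φ (g (e.symm a))) = 0
      rw [heval, hpt0]
      exact hy _)
  refine ⟨pt t, fun j => ?_, fun i hi => by simp [pt, hi], ?_⟩
  · by_cases hj : j ∈ J
    · have h1 := ht' (e ⟨j, hj⟩)
      have h2 : F (e ⟨j, hj⟩) = bind₁ φ (g j) := by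
        show bind₁ φ (g (e.symm (e ⟨j, hj⟩))) = _
        rw [Equiv.symm_apply_apply]
      rw [h2, heval] at h1
      exact h1
    · exact hJ (pt t) (fun i hi => by simp [pt, hi]) j hj
  · obtain ⟨q, hq⟩ : ∃ q, t q ≠ 0 := by
      by_contra hcon
      push Not at hcon
      exact ht (funext hcon)
    refine ⟨q, q.2, ?_⟩
    have : pt t q = t q := by simp [pt]
    rw [this]
    exact hq

/-- A polynomial all of whose monomials in the variables of `supp y ∪ Q` are in the variables of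
`supp y`. -/
theorem eval_eq_eval {g : MvPolynomial (Fin r) ℂ} {y z : Fin r → ℂ} {Q : Finset (Fin r)}
    (hz : ∀ i, i ∉ Q → z i = y i)
    (h : ∀ n ∈ g.support, (∀ i, n i ≠ 0 → y i ≠ 0 ∨ i ∈ Q) → ∀ i ∈ Q, n i = 0) :
    eval z g = eval y g := by
  rw [eval_eq', eval_eq']
  refine Finset.sum_congr rfl fun n hn => ?_
  congr 1
  by_cases hs : ∀ i, n i ≠ 0 → y i ≠ 0 ∨ i ∈ Q
  · have h1 := h n hn hs
    refine Finset.prod_congr rfl fun i _ => ?_
    by_cases hi : i ∈ Q
    · rw [h1 i hi, pow_zero, pow_zero]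
    · rw [hz i hi]
  · push Not at hs
    obtain ⟨i, hi, hyi, hiQ⟩ := hs
    rw [Finset.prod_eq_zero (f := fun i => z i ^ n i) (Finset.mem_univ i)
      (by rw [hz i hiQ, hyi, zero_pow hi]),
      Finset.prod_eq_zero (f := fun i => y i ^ n i) (Finset.mem_univ i)
      (by rw [hyi, zero_pow hi])]

section

variable (w : Fin r → (Fin 2 → ℤ)) (μ : Fin c → (Fin 2 → ℤ))

/-- The sum over the variables minus the sum over the equations. -/
def S (F : (Fin 2 → ℤ) → ℤ) : ℤ := ∑ k, F (w k) - ∑ j, F (μ j)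

open Classical in
/-- Indicator functions. -/
noncomputable def ind (P : (Fin 2 → ℤ) → Prop) (x : Fin 2 → ℤ) : ℤ := if P x then 1 else 0

theorem ind_nonneg (P : (Fin 2 → ℤ) → Prop) (x : Fin 2 → ℤ) : 0 ≤ ind P x := by
  unfold ind
  split_ifs <;> omega

theorem ind_of {P : (Fin 2 → ℤ) → Prop} {x : Fin 2 → ℤ} (h : P x) : ind P x = 1 := if_pos h

theorem ind_of_not {P : (Fin 2 → ℤ) → Prop} {x : Fin 2 → ℤ} (h : ¬ P x) : ind P x = 0 :=
  if_neg h

theorem S_congr {F G : (Fin 2 → ℤ) → ℤ} (h1 : ∀ k, F (w k) = G (w k))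
    (h2 : ∀ j, F (μ j) = G (μ j)) : S w μ F = S w μ G := by
  unfold S
  rw [Finset.sum_congr rfl fun k _ => h1 k, Finset.sum_congr rfl fun j _ => h2 j]

theorem S_add (F G : (Fin 2 → ℤ) → ℤ) : S w μ (fun x => F x + G x) = S w μ F + S w μ G := by
  unfold S
  rw [Finset.sum_add_distrib, Finset.sum_add_distrib]
  ring

theorem S_sub (F G : (Fin 2 → ℤ) → ℤ) : S w μ (fun x => F x - G x) = S w μ F - S w μ G := by
  unfold S
  rw [Finset.sum_sub_distrib, Finset.sum_sub_distrib]
  ring

theorem S_mul (a : ℤ) (F : (Fin 2 → ℤ) → ℤ) : S w μ (fun x => a * F x) = a * S w μ F := by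
  unfold S
  rw [← Finset.mul_sum, ← Finset.mul_sum]
  ring

theorem S_sum {ι : Type*} (s : Finset ι) (F : ι → (Fin 2 → ℤ) → ℤ) :
    S w μ (fun x => ∑ i ∈ s, F i x) = ∑ i ∈ s, S w μ (F i) := by
  unfold S
  rw [Finset.sum_comm, Finset.sum_comm (s := Finset.univ (α := Fin c)),
    ← Finset.sum_sub_distrib]

open Classical in
theorem S_ind (P : (Fin 2 → ℤ) → Prop) : S w μ (ind P) =
    ((Finset.univ.filter fun k => P (w k)).card : ℤ) -
      (Finset.univ.filter fun j => P (μ j)).card := by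
  unfold S ind
  rw [Finset.card_filter, Finset.card_filter]
  push_cast
  rfl

theorem S_ind' (P : (Fin 2 → ℤ) → Prop) [DecidablePred fun k => P (w k)]
    [DecidablePred fun j => P (μ j)] : S w μ (ind P) =
    ((Finset.univ.filter fun k => P (w k)).card : ℤ) -
      (Finset.univ.filter fun j => P (μ j)).card := by
  rw [S_ind]
  congr!

theorem S_nonpos_of {F : (Fin 2 → ℤ) → ℤ} (h1 : ∀ k, F (w k) ≤ 0) (h2 : ∀ j, 0 ≤ F (μ j)) :
    S w μ F ≤ 0 := by
  unfold S
  have e1 := Finset.sum_nonpos (s := Finset.univ) fun k _ => h1 k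
  have e2 := Finset.sum_nonneg (s := Finset.univ) fun j _ => h2 j
  omega

end

variable {w : Fin r → (Fin 2 → ℤ)} {μ : Fin c → (Fin 2 → ℤ)} {g : Fin c → MvPolynomial (Fin r) ℂ}

/-- Let `P` be a set of degrees such that an equation with a monomial in the variables which do
not vanish at the zero `y` and the variables with degree in `P`, not all of the first kind, has
its degree in `P`. If there are more variables than equations with degree in `P`, then there is
another zero in `y + ℂ ^ Q`, `Q` the variables with degree in `P`. -/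
theorem exists_zero_of_S_pos (hX : IsFanoCompleteIntersection w μ g) {y : Fin r → ℂ}
    (hy : IsZero g y) (P : (Fin 2 → ℤ) → Prop) (hP : ∀ k, P (w k) → y k = 0)
    (hclosed : ∀ j, ∀ n : Fin r →₀ ℕ, Finsupp.weight w n = μ j →
      (∀ i, n i ≠ 0 → y i ≠ 0 ∨ P (w i)) → (∃ i, n i ≠ 0 ∧ P (w i)) → P (μ j))
    (hS : 0 < S w μ (ind P)) :
    ∃ z, IsZero g z ∧ (∀ i, ¬ P (w i) → z i = y i) ∧ ∃ i, P (w i) ∧ z i ≠ 0 := by
  classical
  rw [S_ind] at hS
  have hlt : (Finset.univ.filter fun j => P (μ j)).card <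
      (Finset.univ.filter fun k => P (w k)).card := by omega
  have hQ : ∀ k ∈ Finset.univ.filter (fun k => P (w k)), y k = 0 := fun k hk =>
    hP k (Finset.mem_filter.mp hk).2
  obtain ⟨z, hz, hzy, i, hi, hzi⟩ := exists_zero hy (Finset.univ.filter fun k => P (w k)) hQ
    (Finset.univ.filter fun j => P (μ j)) (by
      intro z hz j hj
      rw [← hy j]
      refine eval_eq_eval hz fun n hn hn' i hi => ?_
      by_contra hni
      apply hj
      refine Finset.mem_filter.mpr ⟨Finset.mem_univ _, ?_⟩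
      refine hclosed j n (hX.homogeneous j (mem_support_iff.mp hn)) (fun i hi => ?_)
        ⟨i, hni, (Finset.mem_filter.mp hi).2⟩
      rcases hn' i hi with h4 | h4
      · exact Or.inl h4
      · exact Or.inr (Finset.mem_filter.mp h4).2) hlt
  exact ⟨z, hz, fun i hi => hzy i fun h => hi (Finset.mem_filter.mp h).2, i,
    (Finset.mem_filter.mp hi).2, hzi⟩

/-- Let `P` be a set of degrees which is closed under the addition of elements of `P` and of
degrees of variables which do not vanish at the zero `y`. If there is no other zero in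
`y + ℂ ^ Q`, `Q` the variables with degree in `P`, then there are at least as many equations as
variables with degree in `P`. -/
theorem S_ind_nonpos (hX : IsFanoCompleteIntersection w μ g) {y : Fin r → ℂ}
    (hy : IsZero g y) (P : (Fin 2 → ℤ) → Prop) (hP : ∀ k, P (w k) → y k = 0)
    (hclosed : ∀ n : Fin r →₀ ℕ, (∀ i, n i ≠ 0 → y i ≠ 0 ∨ P (w i)) →
      (∃ i, n i ≠ 0 ∧ P (w i)) → P (Finsupp.weight w n))
    (hno : ∀ z, IsZero g z → (∀ i, ¬ P (w i) → z i = y i) → ∀ i, P (w i) → z i = 0) :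
    S w μ (ind P) ≤ 0 := by
  by_contra hcon
  obtain ⟨z, hz, hzy, i, hi, hzi⟩ := exists_zero_of_S_pos hX hy P hP
    (fun j n hn h1 h2 => hn ▸ hclosed n h1 h2) (not_le.mp hcon)
  exact hzi (hno z hz hzy i hi)

/-- The version with `y = 0`. -/
theorem S_ind_nonpos_zero (hX : IsFanoCompleteIntersection w μ g)
    (P : (Fin 2 → ℤ) → Prop)
    (hclosed : ∀ n : Fin r →₀ ℕ, (∀ i, n i ≠ 0 → P (w i)) → (∃ i, n i ≠ 0) →
      P (Finsupp.weight w n))
    (hno : ∀ z, IsZero g z → (∀ i, z i ≠ 0 → P (w i)) → ∀ i, z i = 0) :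
    S w μ (ind P) ≤ 0 := by
  refine S_ind_nonpos hX (y := 0) (isZero_zero hX) P (fun k _ => rfl) ?_ ?_
  · intro n hn hn'
    obtain ⟨i, hi, -⟩ := hn'
    refine hclosed n (fun i hi => ?_) ⟨i, hi⟩
    rcases hn i hi with h | h
    · exact absurd rfl h
    · exact h
  · intro z hz hz' i _
    refine hno z hz (fun i hi => ?_) i
    by_contra hcon
    exact hi (hz' i hcon)

end Pool.Agent.CID
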